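import Mathlib
import Pool.Agent.Lib.MP_44a246_ntS.SP2b

/-!
Derivations of a function field at one place: a derivation which kills an element of positive
valuation preserves all the fractional ideals; derivatives of elements with a zero or a pole.
-/

namespace Pool.Agent.Lib.MP_44a246_ntE

open Pool.Agent.Lib.MP_e52354_nt
open Pool.Agent.Lib.MP_44a246_nt
open Pool.Agent.Lib.MP_44a246_ntS
open WithZero Polynomial

section

variable {M : Type*} [Field M]

private theorem der_zpow (E : Derivation ℤ M M) {π : M} (hπ : π ≠ 0) (k : ℤ) :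
    E (π ^ k) = π ^ k * ((k : M) * π⁻¹ * E π) := by
  have hnat : ∀ n : ℕ, E (π ^ n) = π ^ n * ((n : M) * π⁻¹ * E π) := by
    intro n
    rw [Derivation.leibniz_pow]
    rcases Nat.eq_zero_or_pos n with rfl | hn
    · simp
    · obtain ⟨m, rfl⟩ : ∃ m, n = m + 1 := ⟨n - 1, by omega⟩
      rw [Nat.add_sub_cancel, smul_eq_mul, nsmul_eq_mul, pow_succ]
      field_simp
  obtain ⟨n, rfl | rfl⟩ := k.eq_nat_or_neg
  · rw [zpow_natCast, hnat]
    push_cast
    rfl
  · rw [zpow_neg, zpow_natCast, Derivation.leibniz_inv, hnat, smul_eq_mul]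
    push_cast
    field_simp

private theorem exists_zpow (v : Valuation M ℤᵐ⁰) {π : M} (hπ : v π = exp (-1 : ℤ)) {y : M}
    (hy : y ≠ 0) : ∃ (k : ℤ) (u : M), v u = 1 ∧ y = π ^ k * u ∧ (v y ≠ 1 → k ≠ 0) ∧
      v y = v (π ^ k) := by
  have hπ0 : π ≠ 0 := by
    rintro rfl
    rw [map_zero] at hπ
    exact exp_ne_zero hπ.symm
  have hvy : v y ≠ 0 := (v.ne_zero_iff).mpr hy
  have hk : v (π ^ (- log (v y))) = v y := by
    rw [map_zpow₀, hπ, ← exp_zsmul, smul_eq_mul, mul_neg, neg_mul, neg_neg, mul_one, exp_log hvy]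
  refine ⟨- log (v y), y / π ^ (- log (v y)), ?_, ?_, ?_, hk.symm⟩
  · rw [map_div₀, hk, div_self hvy]
  · have := zpow_ne_zero (- log (v y)) hπ0
    field_simp
  · intro h1 h2
    rw [h2, zpow_zero, map_one] at hk
    exact h1 hk.symm

/-- a derivation which is regular at `w` and kills the uniformiser -/
private theorem der_le_aux (v : Valuation M ℤᵐ⁰) (E : Derivation ℤ M M) {π : M}
    (hπ : v π = exp (-1 : ℤ)) (hE : ∀ z, v z ≤ 1 → v (E z) ≤ 1) (h0 : E π = 0) (y : M) :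
    v (E y) ≤ v y := by
  have hπ0 : π ≠ 0 := by
    rintro rfl
    rw [map_zero] at hπ
    exact exp_ne_zero hπ.symm
  by_cases hy : y = 0
  · rw [hy, map_zero]
  · obtain ⟨k, u, hu, hyu, -, hvy⟩ := exists_zpow v hπ hy
    have h1 : E y = π ^ k * E u := by
      rw [hyu, Derivation.leibniz, der_zpow E hπ0, h0, smul_eq_mul, smul_eq_mul]
      ring
    rw [h1, map_mul, hvy]
    calc v (π ^ k) * v (E u) ≤ v (π ^ k) * 1 := mul_le_mul' le_rfl (hE u hu.le)
      _ = _ := mul_one _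

/-- a derivation which is regular at `w` and maps the uniformiser to `1` -/
private theorem der_lead_aux (v : Valuation M ℤᵐ⁰) (E : Derivation ℤ M M) {π : M}
    (hπ : v π = exp (-1 : ℤ)) (hE : ∀ z, v z ≤ 1 → v (E z) ≤ 1) (h1 : E π = 1)
    (hint : ∀ k : ℤ, k ≠ 0 → v (k : M) = 1) (y : M) :
    (v y ≠ 1 → v (E y) = v y * exp 1) ∧ v (E y) ≤ v y * exp 1 := by
  have hπ0 : π ≠ 0 := by
    rintro rfl
    rw [map_zero] at hπ
    exact exp_ne_zero hπ.symm
  have hlt : (1 : ℤᵐ⁰) < exp 1 := by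
    rw [← exp_zero]
    exact exp_lt_exp.mpr (by omega)
  by_cases hy : y = 0
  · have h00 : v (E y) = 0 := by rw [hy, map_zero, map_zero]
    have h01 : v y = 0 := by rw [hy, map_zero]
    rw [h00, h01, zero_mul]
    exact ⟨fun _ => rfl, le_rfl⟩
  · obtain ⟨k, u, hu, hyu, hk, hvy⟩ := exists_zpow v hπ hy
    have h2 : E y = π ^ k * ((k : M) * π⁻¹ * u + E u) := by
      rw [hyu, Derivation.leibniz, der_zpow E hπ0, h1, smul_eq_mul, smul_eq_mul]
      ring
    have h3 : v (E u) < exp 1 := (hE u hu.le).trans_lt hlt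
    have hπi : v π⁻¹ = exp 1 := by rw [map_inv₀, hπ, ← exp_neg, neg_neg]
    have h5 : k ≠ 0 → v ((k : M) * π⁻¹ * u + E u) = exp 1 := by
      intro hk0
      have h4 : v ((k : M) * π⁻¹ * u) = exp 1 := by
        rw [map_mul, map_mul, hint k hk0, hu, hπi, one_mul, mul_one]
      rw [Valuation.map_add_eq_of_lt_left v (by rw [h4]; exact h3), h4]
    have h6 : v ((k : M) * π⁻¹ * u + E u) ≤ exp 1 := by
      by_cases hk0 : k = 0
      · rw [hk0, Int.cast_zero, zero_mul, zero_mul, zero_add]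
        exact h3.le
      · exact (h5 hk0).le
    rw [h2, map_mul, hvy]
    refine ⟨fun h => ?_, mul_le_mul' le_rfl h6⟩
    rw [h5 (hk (by rw [hvy]; exact h))]

end

section

variable {κ M : Type*} [Field κ] [IsAlgClosed κ] [CharZero κ] [Field M] [Algebra κ M]
  [Algebra κ[X] M] [IsScalarTower κ κ[X] M]
  [Algebra (RatFunc κ) M] [IsScalarTower κ[X] (RatFunc κ) M]
  [Algebra (Rinf κ) M] [IsScalarTower (Rinf κ) (RatFunc κ) M]
  [FiniteDimensional (RatFunc κ) M]

private theorem le_exp_nat (c : ℤᵐ⁰) : ∃ N : ℕ, c ≤ exp (N : ℤ) := by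
  by_cases hc : c = 0
  · exact ⟨0, by rw [hc]; exact zero_le⟩
  · refine ⟨(log c).toNat, ?_⟩
    rw [← exp_log hc, exp_le_exp, log_exp]
    exact Int.self_le_toNat _

/-- The derivative of an element with a zero or a pole at `w` (the derivation `D'` is `d / dX`):
`w (D' y) = w y * θ` with a constant `θ` which depends only on `w`; and `w (D' y) ≤ w y * θ` for
all `y`. -/
theorem der_lead (w : Place κ M) (D' : Derivation ℤ M M)
    (hκ : ∀ u : κ, D' (algebraMap κ M u) = 0) (hX : D' (algebraMap κ[X] M X) = 1) :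
    ∃ θ : ℤᵐ⁰, θ ≠ 0 ∧ (∀ y, w.1 y ≠ 1 → w.1 (D' y) = w.1 y * θ) ∧
      ∀ y, w.1 (D' y) ≤ w.1 y * θ := by
  -- Let `π` be a uniformiser, `D' π ≠ 0` (`der_unif_ne`), `θ = w (D' π) * exp 1`. The derivation
  -- `D'' = (D' π)⁻¹ • D'` kills `κ`, has bounded poles (`der_place`) and `D'' π = 1`, hence
  -- `w (D'' y) ≤ 1` for `w y ≤ 1` (`polar_part`, as in the proof of `der_int`). For
  -- `y = π ^ k * u`, `w u = 1`, `k : ℤ`: `D'' y = k π ^ (k - 1) u + π ^ k D'' u`, so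
  -- `w (D'' y) ≤ w y * exp 1`, with equality if `k ≠ 0` (`w (k : M) = 1`). If `w y = 1` then
  -- `w (D'' y) ≤ 1 ≤ exp 1`. If `y = 0` both sides are `0`.
  obtain ⟨π, hπ⟩ := w.2.1 (exp (-1 : ℤ))
  have hne : D' π ≠ 0 := der_unif_ne w D' hκ hX hπ
  have hvne : w.1 (D' π) ≠ 0 := (w.1.ne_zero_iff).mpr hne
  have hb : ∀ z, w.1 z ≤ 1 → w.1 (D' z) ≤ exp ((ramIdx (RatFunc κ) w.1 - 1 : ℕ) : ℤ) :=
    fun z hz => der_place w D' (fun u => ⟨0, by rw [hκ, map_zero]⟩) ⟨1, by rw [hX, map_one]⟩ hz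
  obtain ⟨N, hN⟩ := le_exp_nat (w.1 (D' π)⁻¹)
  have hE1 : ((D' π)⁻¹ • D') π = 1 := by
    rw [Derivation.smul_apply, smul_eq_mul, inv_mul_cancel₀ hne]
  have hEz : ∀ z, w.1 z ≤ 1 → w.1 (((D' π)⁻¹ • D') z) ≤ 1 := by
    intro z hz
    obtain ⟨g, hg, hgz⟩ := polar_part w.1 (T := Unit) (Set.range (algebraMap κ M)) (by
        intro z hz
        obtain ⟨c, hc⟩ := place_residue w hz
        exact ⟨_, ⟨c, rfl⟩, hc⟩) (fun _ => (D' π)⁻¹ • D') (by
        rintro - _ ⟨c, rfl⟩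
        rw [Derivation.smul_apply, hκ, smul_zero, map_zero]
        exact zero_le) (N + (ramIdx (RatFunc κ) w.1 - 1)) (fun _ z hz => by
        rw [Derivation.smul_apply, smul_eq_mul, map_mul]
        calc w.1 (D' π)⁻¹ * w.1 (D' z) ≤
              exp (N : ℤ) * exp ((ramIdx (RatFunc κ) w.1 - 1 : ℕ) : ℤ) :=
              mul_le_mul' hN (hb z hz)
          _ = _ := by rw [← exp_add]; push_cast; rfl) hπ z hz
    have h1 := hgz ()
    rw [hE1, mul_one] at h1
    have h2 : ((D' π)⁻¹ • D') z = (((D' π)⁻¹ • D') z - g) + g := by ring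
    rw [h2]
    exact (w.1.map_add _ _).trans (max_le h1 hg)
  have hint : ∀ k : ℤ, k ≠ 0 → w.1 (k : M) = 1 := by
    intro k hk
    have := w.2.2 (k : κ) (Int.cast_ne_zero.mpr hk)
    rwa [map_intCast] at this
  have key := der_lead_aux w.1 ((D' π)⁻¹ • D') hπ hEz hE1 hint
  have hD : ∀ y, w.1 (D' y) = w.1 (((D' π)⁻¹ • D') y) * w.1 (D' π) := by
    intro y
    rw [← map_mul, Derivation.smul_apply, smul_eq_mul]
    congr 1
    field_simp
  refine ⟨exp 1 * w.1 (D' π), mul_ne_zero exp_ne_zero hvne, fun y hy => ?_, fun y => ?_⟩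
  · rw [hD, (key y).1 hy, mul_assoc]
  · rw [hD, ← mul_assoc]
    exact mul_le_mul' (key y).2 le_rfl

/-- A derivation `D` which preserves the constants, maps `X` to a constant and kills an element `T`
of positive valuation preserves all the fractional ideals at `w`. -/
theorem der_le_of_kill (w : Place κ M) (D D' : Derivation ℤ M M)
    (hD : ∀ u : κ, ∃ u' : κ, D (algebraMap κ M u) = algebraMap κ M u')
    (hDX : ∃ u : κ, D (algebraMap κ[X] M X) = algebraMap κ M u)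
    (hκ : ∀ u : κ, D' (algebraMap κ M u) = 0) (hX : D' (algebraMap κ[X] M X) = 1)
    {T : M} (hT0 : T ≠ 0) (hT : w.1 T < 1) (hDT : D T = 0) (y : M) : w.1 (D y) ≤ w.1 y := by
  -- `π` a uniformiser, `q = D π / D' π`, `D₁ = D - q • D'` kills `π`, preserves `κ`, has bounded
  -- poles (`der_place` for `D` and `D'`): `w (D₁ y) ≤ 1` for `w y ≤ 1` (`der_int`), hence
  -- `w (D₁ y) ≤ w y` for all `y = π ^ k u`. As `D T = 0`, `D₁ T = - q * D' T`, so
  -- `w q * w (D' T) = w q * w T * θ ≤ w T` (`der_lead`), `w q * θ ≤ 1`. Then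
  -- `w (D y) ≤ max (w (D₁ y)) (w q * w (D' y)) ≤ w y`.
  obtain ⟨θ, hθ, hθ1, hθ2⟩ := der_lead w D' hκ hX
  obtain ⟨π, hπ⟩ := w.2.1 (exp (-1 : ℤ))
  have hne : D' π ≠ 0 := der_unif_ne w D' hκ hX hπ
  have hb' : ∀ z, w.1 z ≤ 1 → w.1 (D' z) ≤ exp ((ramIdx (RatFunc κ) w.1 - 1 : ℕ) : ℤ) :=
    fun z hz => der_place w D' (fun u => ⟨0, by rw [hκ, map_zero]⟩) ⟨1, by rw [hX, map_one]⟩ hz
  have hb : ∀ z, w.1 z ≤ 1 → w.1 (D z) ≤ exp ((ramIdx (RatFunc κ) w.1 - 1 : ℕ) : ℤ) :=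
    fun z hz => der_place w D hD hDX hz
  set q : M := D π / D' π with hq
  obtain ⟨N, hN⟩ := le_exp_nat (w.1 q)
  have hD₁ : ∀ z, (D - q • D') z = D z - q * D' z := by
    intro z
    rw [Derivation.sub_apply, Derivation.smul_apply, smul_eq_mul]
  have h0 : (D - q • D') π = 0 := by
    rw [hD₁, hq, div_mul_cancel₀ _ hne, sub_self]
  have hE : ∀ z, w.1 z ≤ 1 → w.1 ((D - q • D') z) ≤ 1 := by
    intro z hz
    refine der_int w (D - q • D') (fun u => ?_) (N := N + (ramIdx (RatFunc κ) w.1 - 1))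
      (fun z hz => ?_) hπ h0 hz
    · obtain ⟨u', hu'⟩ := hD u
      refine ⟨u', ?_⟩
      rw [hD₁, hκ, mul_zero, sub_zero, hu']
    · rw [hD₁]
      refine (w.1.map_sub _ _).trans (max_le ?_ ?_)
      · refine (hb z hz).trans (exp_le_exp.mpr ?_)
        push_cast
        omega
      · rw [map_mul]
        calc w.1 q * w.1 (D' z) ≤ exp (N : ℤ) * exp ((ramIdx (RatFunc κ) w.1 - 1 : ℕ) : ℤ) :=
              mul_le_mul' hN (hb' z hz)
          _ = _ := by rw [← exp_add]; push_cast; rfl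
  have hle := der_le_aux w.1 (D - q • D') hπ hE h0
  have hvT : w.1 T ≠ 0 := (w.1.ne_zero_iff).mpr hT0
  have hqθ : w.1 q * θ ≤ 1 := by
    have h1 := hle T
    rw [hD₁, hDT, zero_sub, Valuation.map_neg, map_mul, hθ1 T hT.ne, mul_left_comm] at h1
    have h2 : w.1 T * (w.1 q * θ) ≤ w.1 T * 1 := by rwa [mul_one]
    exact (mul_le_mul_iff_right₀ (zero_lt_iff.mpr hvT)).mp h2
  have h3 : D y = (D - q • D') y + q * D' y := by
    rw [hD₁]; ring
  rw [h3]
  refine (w.1.map_add _ _).trans (max_le (hle y) ?_)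
  rw [map_mul]
  calc w.1 q * w.1 (D' y) ≤ w.1 q * (w.1 y * θ) := mul_le_mul' le_rfl (hθ2 y)
    _ = w.1 y * (w.1 q * θ) := by rw [mul_left_comm]
    _ ≤ w.1 y * 1 := mul_le_mul' le_rfl hqθ
    _ = w.1 y := mul_one _

end

end Pool.Agent.Lib.MP_44a246_ntE
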