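import Mathlib
import Pool.Agent.Lib.MP_44a246_ntE.E01

/-!
Rigidity: the poles of the second derivatives.
-/

namespace Pool.Agent.Lib.MP_44a246_ntE

open Pool.Agent.Lib.MP_e52354_nt
open Pool.Agent.Lib.MP_44a246_nt
open Pool.Agent.Lib.MP_44a246_ntS
open WithZero Polynomial

section

variable {κ M : Type*} [Field κ] [IsAlgClosed κ] [CharZero κ] [Field M] [Algebra κ M]
  [Algebra κ[X] M] [IsScalarTower κ κ[X] M]
  [Algebra (RatFunc κ) M] [IsScalarTower κ[X] (RatFunc κ) M]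
  [Algebra (Rinf κ) M] [IsScalarTower (Rinf κ) (RatFunc κ) M]
  [FiniteDimensional (RatFunc κ) M]

/-- At a place at which `X` has a pole, or at which the value `c` of `X` is killed by `D₀`, a
derivation which extends `D₀` and kills `X` preserves all the fractional ideals. -/
theorem der_le_place (w : Place κ M) {D₀ : Derivation ℤ κ κ} (D D' : Derivation ℤ M M)
    (hD : ∀ u : κ, D (algebraMap κ M u) = algebraMap κ M (D₀ u))
    (hDX : D (algebraMap κ[X] M X) = 0)
    (hκ : ∀ u : κ, D' (algebraMap κ M u) = 0) (hX : D' (algebraMap κ[X] M X) = 1)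
    (h : 1 < w.1 (algebraMap κ[X] M X) ∨
      ∃ c : κ, D₀ c = 0 ∧ w.1 (algebraMap κ[X] M X - algebraMap κ M c) < 1) (y : M) :
    w.1 (D y) ≤ w.1 y := by
  -- `der_le_of_kill` with `T = X⁻¹` or `T = X - c` (`≠ 0` because `D' T ≠ 0`)
  have hD1 : ∀ u : κ, ∃ u' : κ, D (algebraMap κ M u) = algebraMap κ M u' :=
    fun u => ⟨D₀ u, hD u⟩
  have hDX1 : ∃ u : κ, D (algebraMap κ[X] M X) = algebraMap κ M u := ⟨0, by rw [hDX, map_zero]⟩
  rcases h with h | ⟨c, hc0, hc⟩
  · have hX0 : algebraMap κ[X] M X ≠ 0 := by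
      intro h0
      rw [h0, map_zero] at h
      exact absurd h not_lt_zero
    refine der_le_of_kill w D D' hD1 hDX1 hκ hX (inv_ne_zero hX0) ?_ ?_ y
    · rw [map_inv₀]
      exact inv_lt_one_of_one_lt₀ h
    · rw [Derivation.leibniz_inv, hDX, smul_zero]
  · have hT : algebraMap κ[X] M X - algebraMap κ M c ≠ 0 := by
      intro h0
      have h1 : D' (algebraMap κ[X] M X - algebraMap κ M c) = 0 := by rw [h0, map_zero]
      rw [map_sub, hκ, hX, sub_zero] at h1
      exact one_ne_zero h1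
    refine der_le_of_kill w D D' hD1 hDX1 hκ hX hT hc ?_ y
    rw [map_sub, hDX, hD, hc0, map_zero, sub_zero]

/-- **Rigidity.** If `D` extends the derivation `D₀` of the constants, kills `X`, and
`D (D Y) = 0`, then the poles of `D Y` are bounded by the poles of `Y`. -/
theorem rigid (w : Place κ M) {D₀ : Derivation ℤ κ κ} (D D' : Derivation ℤ M M)
    (hD : ∀ u : κ, D (algebraMap κ M u) = algebraMap κ M (D₀ u))
    (hDX : D (algebraMap κ[X] M X) = 0)
    (hκ : ∀ u : κ, D' (algebraMap κ M u) = 0) (hX : D' (algebraMap κ[X] M X) = 1)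
    {Y : M} (hY : D (D Y) = 0) : w.1 (D Y) ≤ max 1 (w.1 Y) := by
  -- If `w X > 1`, or `w (X - c) < 1` (`place_residue`) with `D₀ c = 0`: `der_le_place`. Otherwise
  -- let `γ = D Y` and suppose `w γ > 1`. `D₁ = D + D₀ c • D'` extends `D₀` and kills
  -- `T = X - c`, so `w (D₁ γ) ≤ w γ` (`der_le_of_kill`), and `0 = D γ = D₁ γ - D₀ c * D' γ`, so
  -- `w (D' γ) ≤ w γ`. But `w (D' γ) = w γ * θ` and `1 = w (D' T) = w T * θ` (`der_lead`), so
  -- `θ > 1`, a contradiction.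
  by_cases hwX : 1 < w.1 (algebraMap κ[X] M X)
  · exact (der_le_place w D D' hD hDX hκ hX (Or.inl hwX) Y).trans (le_max_right _ _)
  obtain ⟨c, hc⟩ := place_residue w (not_lt.mp hwX)
  by_cases hc0 : D₀ c = 0
  · exact (der_le_place w D D' hD hDX hκ hX (Or.inr ⟨c, hc0, hc⟩) Y).trans (le_max_right _ _)
  refine le_max_of_le_left (not_lt.mp fun hγ => ?_)
  obtain ⟨θ, hθ, hθ1, -⟩ := der_lead w D' hκ hX
  have hD₁ : ∀ z, (D + algebraMap κ M (D₀ c) • D') z = D z + algebraMap κ M (D₀ c) * D' z := by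
    intro z
    rw [Derivation.add_apply, Derivation.smul_apply, smul_eq_mul]
  have hT : D' (algebraMap κ[X] M X - algebraMap κ M c) = 1 := by
    rw [map_sub, hκ, hX, sub_zero]
  have hT0 : algebraMap κ[X] M X - algebraMap κ M c ≠ 0 := by
    intro h0
    rw [h0, map_zero] at hT
    exact zero_ne_one hT
  have h1 : w.1 ((D + algebraMap κ M (D₀ c) • D') (D Y)) ≤ w.1 (D Y) := by
    refine der_le_of_kill w (D + algebraMap κ M (D₀ c) • D') D' (fun u => ⟨D₀ u, ?_⟩)
      ⟨D₀ c, ?_⟩ hκ hX hT0 hc ?_ (D Y)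
    · rw [hD₁, hD, hκ, mul_zero, add_zero]
    · rw [hD₁, hDX, hX, mul_one, zero_add]
    · rw [hD₁, hT, map_sub, hDX, hD, mul_one, zero_sub, neg_add_cancel]
  rw [hD₁, hY, zero_add, map_mul, w.2.2 (D₀ c) hc0, one_mul, hθ1 _ hγ.ne'] at h1
  have hγ0 : 0 < w.1 (D Y) := zero_lt_one.trans hγ
  have h2 : θ ≤ 1 := by
    refine (mul_le_mul_iff_right₀ hγ0).mp ?_
    rwa [mul_one]
  have h3 : w.1 (algebraMap κ[X] M X - algebraMap κ M c) * θ = 1 := by
    rw [← hθ1 _ hc.ne, hT, map_one]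
  have h4 : w.1 (algebraMap κ[X] M X - algebraMap κ M c) * θ < 1 := by
    calc _ ≤ w.1 (algebraMap κ[X] M X - algebraMap κ M c) * 1 := mul_le_mul' le_rfl h2
      _ < 1 := by rwa [mul_one]
  exact h4.ne h3

end

end Pool.Agent.Lib.MP_44a246_ntE
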