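import Mathlib
import Pool.Agent.Lib.MP_44a246_ntE.E01
import Pool.Agent.Lib.MP_44a246_ntE.E02
import Pool.Agent.Lib.MP_44a246_ntS.SP1b
import Pool.Agent.Lib.MP_44a246_ntS.SP7

/-!
The places over a point of the line which is moved by a derivation which preserves the curve are
not ramified.
-/

namespace Pool.Agent.Lib.MP_44a246_ntE

open Pool.Agent.Lib.MP_e52354_nt
open Pool.Agent.Lib.MP_44a246_nt
open Pool.Agent.Lib.MP_44a246_ntS
open WithZero Polynomial

/-- a polynomial whose coefficients are killed by `D₀` does not vanish at a point `c` which is not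
killed by `D₀` -/
theorem eval_ne_zero_of_der {κ : Type*} [Field κ] [CharZero κ] {D₀ : Derivation ℤ κ κ} {p : κ[X]}
    (hp : p ≠ 0) (hD : ∀ i, D₀ (p.coeff i) = 0) {c : κ} (hc : D₀ c ≠ 0) : p.eval c ≠ 0 := by
  -- induction on the degree: `p (c) = 0` gives `0 = D₀ (p (c)) = p' (c) * D₀ c`, so `p' (c) = 0`,
  -- and the coefficients of `p'` are killed by `D₀`; if `p' = 0` then `p` is a constant.
  induction hn : p.natDegree using Nat.strong_induction_on generalizing p with
  | _ n ih =>
    intro h0
    have h1 := der_eval₂ (RingHom.id κ) D₀ 0 D₀ 0 (fun a => by simp) c p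
    have h2 : mc D₀ p = 0 := by
      ext i
      rw [mc_coeff, hD, coeff_zero]
    rw [h2, eval₂_zero, mul_zero, zero_add, zero_add, ← eval, h0, map_zero, ← eval] at h1
    have h3 : (derivative p).eval c = 0 := by
      rcases mul_eq_zero.mp h1.symm with h | h
      · exact h
      · exact absurd h hc
    by_cases hd : derivative p = 0
    · have h4 := natDegree_eq_zero_of_derivative_eq_zero hd
      rw [natDegree_eq_zero] at h4
      obtain ⟨a, rfl⟩ := h4
      rw [eval_C] at h0
      exact hp (by rw [h0, C_0])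
    · have h5 : p.natDegree ≠ 0 := by
        intro h6
        obtain ⟨a, rfl⟩ := natDegree_eq_zero.mp h6
        exact hd (derivative_C)
      refine ih (derivative p).natDegree ?_ hd (fun i => ?_) rfl h3
      · rw [← hn]
        exact natDegree_derivative_lt h5
      · rw [coeff_derivative, Derivation.leibniz, hD, smul_zero, add_zero]
        have h7 : D₀ ((i : κ) + 1) = 0 := by
          have h8 : D₀ (((i + 1 : ℕ) : κ)) = 0 := D₀.map_natCast (i + 1)
          push_cast at h8
          exact h8
        rw [h7, smul_zero]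

/-- the resultant of polynomials with coefficients in a subring -/
theorem resultant_mem {κ : Type*} [Field κ] {D₀ : Derivation ℤ κ κ} {A B : κ[X][X]}
    (hA : cE D₀ A = 0) (hB : cE D₀ B = 0) (m n : ℕ) (i : ℕ) :
    D₀ ((resultant A B m n).coeff i) = 0 := by
  -- `mc D₀` is a derivation of `κ[X]` which kills the coefficients of `A` and `B`, and the
  -- resultant is a determinant in these coefficients: work in the subring of the elements killed
  -- by `mc D₀`
  let S : Subring κ[X] :=
    { carrier := {q | mc D₀ q = 0}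
      mul_mem' := by
        intro a b ha hb
        rw [Set.mem_ofPred_eq] at ha hb ⊢
        rw [Derivation.leibniz, ha, hb, smul_zero, smul_zero, add_zero]
      one_mem' := by
        rw [Set.mem_ofPred_eq]
        exact Derivation.map_one_eq_zero _
      add_mem' := by
        intro a b ha hb
        rw [Set.mem_ofPred_eq] at ha hb ⊢
        rw [map_add, ha, hb, add_zero]
      zero_mem' := by
        rw [Set.mem_ofPred_eq]
        exact map_zero _
      neg_mem' := by
        intro a ha
        rw [Set.mem_ofPred_eq] at ha ⊢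
        rw [map_neg, ha, neg_zero] }
  have hmem : ∀ G : κ[X][X], cE D₀ G = 0 → (↑G.coeffs : Set κ[X]) ⊆ S := by
    intro G hG x hx
    rw [Finset.mem_coe, mem_coeffs_iff] at hx
    obtain ⟨j, -, rfl⟩ := hx
    have h1 : (cE D₀ G).coeff j = mc D₀ (G.coeff j) := rfl
    rw [hG, coeff_zero] at h1
    exact h1.symm
  have hA' := map_toSubring A S (hmem A hA)
  have hB' := map_toSubring B S (hmem B hB)
  have h1 : resultant A B m n =
      S.subtype (resultant (A.toSubring S (hmem A hA)) (B.toSubring S (hmem B hB)) m n) := by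
    rw [← resultant_map_map, hA', hB']
  have h2 : mc D₀ (resultant A B m n) = 0 := by
    rw [h1]
    exact (resultant (A.toSubring S (hmem A hA)) (B.toSubring S (hmem B hB)) m n).2
  rw [← mc_coeff, h2, coeff_zero]

private theorem dvd_of_res' {L : Type*} [Field L] [CharZero L] {A Q : L[X][X]} (hA : Irreducible A)
    (hm : A.natDegree ≠ 0) {N : ℕ} (hQ : Q.natDegree ≤ N)
    (h : resultant A Q A.natDegree N = 0) : A ∣ Q := by
  have hprim : A.IsPrimitive := hA.isPrimitive hm
  have hinj : Function.Injective (algebraMap L[X] (FractionRing L[X])) :=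
    IsFractionRing.injective _ _
  have hirr : Irreducible (A.map (algebraMap L[X] (FractionRing L[X]))) :=
    hprim.irreducible_iff_irreducible_map_fraction_map.mp hA
  apply hprim.dvd_of_fraction_map_dvd_fraction_map (K := FractionRing L[X])
  obtain ⟨k, hk⟩ := Nat.exists_eq_add_of_le hQ
  have h1 : resultant (A.map (algebraMap L[X] (FractionRing L[X])))
      (Q.map (algebraMap L[X] (FractionRing L[X]))) A.natDegree N = 0 := by
    rw [resultant_map_map, h, map_zero]
  rw [hk, resultant_add_right_deg _ _ _ _ _ natDegree_map_le, mul_eq_zero] at h1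
  have h2 : (A.map (algebraMap L[X] (FractionRing L[X]))).coeff A.natDegree ^ k ≠ 0 := by
    apply pow_ne_zero
    rw [coeff_map]
    intro h0
    rw [map_eq_zero_iff _ hinj, coeff_natDegree, leadingCoeff_eq_zero] at h0
    exact hA.ne_zero h0
  have h3 := h1.resolve_left h2
  have e1 : (A.map (algebraMap L[X] (FractionRing L[X]))).natDegree = A.natDegree :=
    natDegree_map_eq_of_injective hinj A
  have e2 : (Q.map (algebraMap L[X] (FractionRing L[X]))).natDegree = Q.natDegree :=
    natDegree_map_eq_of_injective hinj Q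
  rw [← e1, ← e2, resultant_eq_zero_iff] at h3
  by_contra hnd
  exact h3.2 ((hirr.coprime_iff_not_dvd).mpr hnd)

section

variable {κ M : Type*} [Field κ] [IsAlgClosed κ] [CharZero κ] [Field M] [Algebra κ M]
  [Algebra κ[X] M] [IsScalarTower κ κ[X] M]
  [Algebra (RatFunc κ) M] [IsScalarTower κ[X] (RatFunc κ) M]
  [Algebra (Rinf κ) M] [IsScalarTower (Rinf κ) (RatFunc κ) M]
  [FiniteDimensional (RatFunc κ) M]

private theorem value_one (w : Place κ M) {c : κ}
    (hw : w.1 (algebraMap κ[X] M X - algebraMap κ M c) < 1)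
    (hX : w.1 (algebraMap κ[X] M X) ≤ 1) {p : κ[X]} (hp : p.eval c ≠ 0) :
    w.1 (algebraMap κ[X] M p) = 1 := by
  obtain ⟨q, hq⟩ : (X - C c) ∣ p - C (p.eval c) := by
    rw [dvd_iff_isRoot, IsRoot, eval_sub, eval_C, sub_self]
  have h1 : algebraMap κ[X] M p = algebraMap κ M (p.eval c) +
      (algebraMap κ[X] M X - algebraMap κ M c) * algebraMap κ[X] M q := by
    have h2 := congrArg (algebraMap κ[X] M) hq
    rw [map_sub, map_mul, map_sub] at h2
    have hC : ∀ a : κ, algebraMap κ[X] M (C a) = algebraMap κ M a := fun a => by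
      rw [IsScalarTower.algebraMap_apply κ κ[X] M]; rfl
    rw [hC, hC] at h2
    rw [← h2]
    ring
  have h3 : w.1 (algebraMap κ M (p.eval c)) = 1 := w.2.2 _ hp
  have h4 : w.1 ((algebraMap κ[X] M X - algebraMap κ M c) * algebraMap κ[X] M q) < 1 := by
    rw [map_mul]
    exact mul_lt_one_of_lt_of_le hw (place_poly w hX q)
  rw [h1, Valuation.map_add_eq_of_lt_left w.1 (by rw [h3]; exact h4), h3]

/-- Let the coefficients of the equation `A` of the curve be killed by `D₀` and the value `c` of
`X` at `w` not. Then `Y` has no pole at `w` and `w` is not ramified. -/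
theorem unram (w : Place κ M) {D₀ : Derivation ℤ κ κ} {A : κ[X][X]} (hA : Irreducible A)
    (hdeg : A.natDegree ≠ 0) (hDA : cE D₀ A = 0) {Y : M} (hY : aeval Y A = 0)
    (hgen : IntermediateField.adjoin (RatFunc κ) {Y} = ⊤) {c : κ} (hc : D₀ c ≠ 0)
    (hw : w.1 (algebraMap κ[X] M X - algebraMap κ M c) < 1) :
    w.1 Y ≤ 1 ∧ ramIdx (RatFunc κ) w.1 = 1 := by
  -- `R = resultant A (derivative A) ≠ 0` (as in MP_44a246_ntW/W17) and `A.leadingCoeff` do not
  -- vanish at `c` (`resultant_mem`, `eval_ne_zero_of_der`), so their values in `M` are units at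
  -- `w` (`w (p (X) - p (c)) < 1`). `w (lc) = 1` and the other coefficients have `w ≤ 1`: `Y` is
  -- integral, `w Y ≤ 1`. The resultant is a combination `A * u + A' * v` with `u, v : κ[X][X]`
  -- (`Polynomial.exists_mul_add_mul_eq_C_resultant` or the adjugate of the Sylvester matrix), so
  -- `w (A' (Y)) = 1`. Then `ramIdx_eq_one` (file MP_44a246_nt/Ram.lean) with `α = Y`,
  -- `f = A.map (algebraMap κ[X] (RatFunc κ))`, `place_residue`.
  have hX : w.1 (algebraMap κ[X] M X) ≤ 1 := by
    have h1 : algebraMap κ[X] M X =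
        (algebraMap κ[X] M X - algebraMap κ M c) + algebraMap κ M c := by ring
    rw [h1]
    exact (w.1.map_add _ _).trans (max_le hw.le (place_const_le w c))
  have hint : ∀ q : κ[X], w.1 (algebraMap κ[X] M q) ≤ 1 := place_poly w hX
  have hco : ∀ i j, D₀ ((A.coeff i).coeff j) = 0 := by
    intro i j
    have h1 : (cE D₀ A).coeff i = mc D₀ (A.coeff i) := rfl
    rw [hDA, coeff_zero] at h1
    rw [← mc_coeff, ← h1, coeff_zero]
  set m := A.natDegree with hm
  have hA0 : A ≠ 0 := hA.ne_zero
  have hlc : w.1 (algebraMap κ[X] M (A.coeff m)) = 1 := by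
    refine value_one w hw hX (eval_ne_zero_of_der ?_ (hco m) hc)
    rw [hm, coeff_natDegree]
    exact leadingCoeff_ne_zero.mpr hA0
  -- `Y` is integral
  have hYint : w.1 Y ≤ 1 := by
    by_contra hcon
    push Not at hcon
    have hY0 : w.1 Y ≠ 0 := (zero_lt_one.trans hcon).ne'
    rw [aeval_eq_sum_range, Finset.sum_range_succ, ← hm] at hY
    simp only [Algebra.smul_def] at hY
    have h1 : algebraMap κ[X] M (A.coeff m) * Y ^ m =
        - ∑ i ∈ Finset.range m, algebraMap κ[X] M (A.coeff i) * Y ^ i := by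
      linear_combination hY
    have h2 : w.1 (algebraMap κ[X] M (A.coeff m) * Y ^ m) = w.1 Y ^ m := by
      rw [map_mul, map_pow, hlc, one_mul]
    have h3 : w.1 (∑ i ∈ Finset.range m, algebraMap κ[X] M (A.coeff i) * Y ^ i) < w.1 Y ^ m := by
      refine Valuation.map_sum_lt w.1 (pow_ne_zero m hY0) fun i hi => ?_
      rw [map_mul, map_pow]
      calc w.1 (algebraMap κ[X] M (A.coeff i)) * w.1 Y ^ i ≤ 1 * w.1 Y ^ i :=
            mul_le_mul' (hint _) le_rfl
        _ = w.1 Y ^ i := one_mul _
        _ < w.1 Y ^ m := pow_lt_pow_right₀ hcon (Finset.mem_range.mp hi)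
    rw [← h2, h1, Valuation.map_neg] at h3
    exact lt_irrefl _ h3
  have hev : ∀ q : κ[X][X], w.1 (aeval Y q) ≤ 1 := by
    intro q
    rw [aeval_eq_sum_range]
    refine Valuation.map_sum_le w.1 fun i _ => ?_
    rw [Algebra.smul_def, map_mul, map_pow]
    exact _root_.mul_le_one' (hint _) (pow_le_one' hYint i)
  -- the resultant
  have hder : (derivative A).natDegree ≤ m := (natDegree_derivative_le A).trans (Nat.sub_le _ _)
  have hres : resultant A (derivative A) m m ≠ 0 := by
    intro h0
    have h1 : A ∣ derivative A := dvd_of_res' hA hdeg hder h0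
    have h2 : derivative A ≠ 0 := by
      intro h3
      exact hdeg (natDegree_eq_zero_of_derivative_eq_zero h3)
    have h3 := natDegree_le_of_dvd h1 h2
    have h4 := natDegree_derivative_lt hdeg
    omega
  have hDA' : cE D₀ (derivative A) = 0 := by
    refine Polynomial.ext fun i => ?_
    have h1 : (cE D₀ (derivative A)).coeff i = mc D₀ ((derivative A).coeff i) := rfl
    rw [h1, coeff_derivative, coeff_zero]
    have h2 : mc D₀ (A.coeff (i + 1)) = 0 := by
      have h3 : (cE D₀ A).coeff (i + 1) = mc D₀ (A.coeff (i + 1)) := rfl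
      rw [hDA, coeff_zero] at h3
      exact h3.symm
    have h4 : mc D₀ ((i : κ[X]) + 1) = 0 := by
      have h5 : mc D₀ (((i + 1 : ℕ) : κ[X])) = 0 := (mc D₀).map_natCast (i + 1)
      push_cast at h5
      exact h5
    rw [Derivation.leibniz, h2, h4, smul_zero, smul_zero, add_zero]
  have hresw : w.1 (algebraMap κ[X] M (resultant A (derivative A) m m)) = 1 :=
    value_one w hw hX (eval_ne_zero_of_der hres (resultant_mem hDA hDA' m m) hc)
  obtain ⟨p, q, -, -, hpq⟩ := exists_mul_add_mul_eq_C_resultant A (derivative A) hm.ge hder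
    (Or.inl hdeg)
  have h1 := congrArg (aeval Y) hpq
  rw [map_add, map_mul, map_mul, hY, zero_mul, zero_add, aeval_C] at h1
  have h2 : w.1 (aeval Y (derivative A)) = 1 := by
    refine le_antisymm (hev _) ?_
    calc (1 : ℤᵐ⁰) = w.1 (aeval Y (derivative A) * aeval Y q) := by rw [h1]; exact hresw.symm
      _ = w.1 (aeval Y (derivative A)) * w.1 (aeval Y q) := map_mul _ _ _
      _ ≤ w.1 (aeval Y (derivative A)) * 1 := mul_le_mul' le_rfl (hev q)
      _ = _ := mul_one _
  refine ⟨hYint, ?_⟩
  have : IsScalarTower κ (RatFunc κ) M := by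
    refine IsScalarTower.of_algebraMap_eq fun a => ?_
    rw [IsScalarTower.algebraMap_apply κ κ[X] M, IsScalarTower.algebraMap_apply κ[X] (RatFunc κ) M]
    rfl
  obtain ⟨c', hc'⟩ := place_residue w hYint
  have hcoef : ∀ i, algebraMap (RatFunc κ) M ((A.map (algebraMap κ[X] (RatFunc κ))).coeff i) =
      algebraMap κ[X] M (A.coeff i) := by
    intro i
    rw [coeff_map, ← IsScalarTower.algebraMap_apply κ[X] (RatFunc κ) M]
  refine ramIdx_eq_one (K := RatFunc κ) w.1 w.2.1 (α := Y) ?_
    (f := A.map (algebraMap κ[X] (RatFunc κ))) ?_ hYint ?_ ?_ (c := algebraMap κ (RatFunc κ) c') ?_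
  · have hint : IsIntegral (RatFunc κ) Y := IsIntegral.of_finite (RatFunc κ) Y
    rw [← IntermediateField.adjoin_simple_toSubalgebra_of_isAlgebraic hint.isAlgebraic, hgen,
      IntermediateField.top_toSubalgebra]
  · intro i
    rw [hcoef]
    exact hint _
  · rw [aeval_map_algebraMap, hY]
  · rw [derivative_map, aeval_map_algebraMap, h2]
  · rw [← IsScalarTower.algebraMap_apply κ (RatFunc κ) M]
    exact hc'

omit [IsAlgClosed κ] [CharZero κ] [Algebra (Rinf κ) M] [IsScalarTower (Rinf κ) (RatFunc κ) M]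
  [FiniteDimensional (RatFunc κ) M] in
private theorem inj_poly : Function.Injective (algebraMap κ[X] M) := by
  rw [IsScalarTower.algebraMap_eq κ[X] (RatFunc κ) M]
  exact (algebraMap (RatFunc κ) M).injective.comp (IsFractionRing.injective κ[X] (RatFunc κ))

omit [IsAlgClosed κ] [CharZero κ] [Algebra (Rinf κ) M] [IsScalarTower (Rinf κ) (RatFunc κ) M] in
private theorem alg_X :
    Algebra.IsAlgebraic (IntermediateField.adjoin κ {algebraMap κ[X] M X}) M := by
  have hinj2 : Function.Injective (algebraMap κ[X] M) := inj_poly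
  set x : M := algebraMap κ[X] M X with hx
  refine ⟨fun z => ?_⟩
  have h1 : IsAlgebraic (RatFunc κ) z := Algebra.IsAlgebraic.isAlgebraic z
  have h2 : IsAlgebraic κ[X] z := (IsFractionRing.isAlgebraic_iff κ[X] (RatFunc κ) _).mpr h1
  obtain ⟨Q, hQ0, hQ⟩ := h2
  let F := IntermediateField.adjoin κ {x}
  let ξ : F := IntermediateField.AdjoinSimple.gen κ x
  let φ : κ[X] →+* F := (aeval ξ : κ[X] →ₐ[κ] F).toRingHom
  have hφ : (algebraMap F M).comp φ = algebraMap κ[X] M := by
    refine RingHom.ext fun p => ?_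
    have e1 : algebraMap F M (aeval ξ p) = aeval (algebraMap F M ξ) p :=
      (aeval_algebraMap_apply M ξ p).symm
    have e2 : algebraMap F M ξ = x := rfl
    have e3 : aeval x p = algebraMap κ[X] M p := by
      rw [hx, aeval_algebraMap_apply, aeval_X_left_apply]
    rw [e2, e3] at e1
    exact e1
  have hφinj : Function.Injective φ := by
    have : Function.Injective ((algebraMap F M).comp φ) := by
      rw [hφ]; exact hinj2
    exact Function.Injective.of_comp (f := algebraMap F M) this
  refine ⟨Q.map φ, (Polynomial.map_ne_zero_iff hφinj).mpr hQ0, ?_⟩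
  rw [aeval_def, eval₂_map, hφ]
  exact hQ

/-- **A derivation `D` which extends `D₀`, kills `X` and `Y` (`M = κ (X, Y)`)** : at every place
either it preserves all the fractional ideals, or `X`, `Y` and `D` are regular. -/
theorem der_dich (w : Place κ M) {D₀ : Derivation ℤ κ κ} {A : κ[X][X]} (hA : Irreducible A)
    (hdeg : A.natDegree ≠ 0) (hDA : cE D₀ A = 0) {Y : M} (hY : aeval Y A = 0)
    (hgen : IntermediateField.adjoin (RatFunc κ) {Y} = ⊤) (D : Derivation ℤ M M)
    (hD : ∀ u : κ, D (algebraMap κ M u) = algebraMap κ M (D₀ u))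
    (hDX : D (algebraMap κ[X] M X) = 0) :
    (∀ y, w.1 (D y) ≤ w.1 y) ∨
      (w.1 (algebraMap κ[X] M X) ≤ 1 ∧ w.1 Y ≤ 1 ∧ ∀ y, w.1 y ≤ 1 → w.1 (D y) ≤ 1) := by
  -- `D'` from `exists_der_ext` (with `E₀ = 0`, `m = 1`); `der_le_place`, `unram`, `der_place`
  have ht : Transcendental κ (algebraMap κ[X] M X) :=
    (transcendental_algebraMap_iff inj_poly).mpr (transcendental_X κ)
  obtain ⟨D', hκ, hX⟩ := exists_der_ext ht alg_X (0 : Derivation ℤ κ κ) 1
  have hκ' : ∀ u : κ, D' (algebraMap κ M u) = 0 := fun u => by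
    rw [hκ]
    simp
  by_cases hwX : w.1 (algebraMap κ[X] M X) ≤ 1
  · obtain ⟨c, hc⟩ := place_residue w hwX
    by_cases hD₀ : D₀ c = 0
    · left
      exact der_le_place w D D' hD hDX hκ' hX (Or.inr ⟨c, hD₀, hc⟩)
    · right
      obtain ⟨h1, h2⟩ := unram w hA hdeg hDA hY hgen hD₀ hc
      refine ⟨hwX, h1, fun y hy => ?_⟩
      have h3 := der_place w D (fun u => ⟨_, hD u⟩) ⟨0, by rw [hDX, map_zero]⟩ hy
      rw [h2] at h3
      simpa using h3
  · left
    push Not at hwX
    exact der_le_place w D D' hD hDX hκ' hX (Or.inl hwX)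

end

end Pool.Agent.Lib.MP_44a246_ntE
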