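import Mathlib
import Pool.Agent.Lib.MP_44a246_ntR.GR9

/-!
Dimensions of Riemann-Roch spaces; the genus and the ramification are bounded by the pole orders of
a basis.
-/

namespace Pool.Agent.Lib.MP_44a246_ntE

open Pool.Agent.Lib.MP_44a246_nt Pool.Agent.Lib.MP_44a246_ntL
open Pool.Agent.Lib.MP_44a246_ntR
open WithZero Polynomial Module

/-- `l(D) ≤ deg D + 1` -/
theorem finrank_rr_le_deg {κ L : Type*} [Field κ] [IsAlgClosed κ] [CharZero κ] [Field L]
    [Algebra κ L] (h : IsFF κ L) {D : Place κ L →₀ ℤ} (hD : -1 ≤ divDeg D) :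
    (finrank κ (rr D) : ℤ) ≤ divDeg D + 1 := by
  -- `finrank_rr_le` for `D - (deg D + 1) P ≤ D`, `rr_of_neg`, `exists_place`
  obtain ⟨Q⟩ := exists_place h
  have h0 : 0 ≤ divDeg D + 1 := by omega
  have hdeg : divDeg (D + Finsupp.single Q (-(divDeg D + 1))) = -1 := by
    rw [divDeg_add, divDeg_single]
    ring
  have hle : D + Finsupp.single Q (-(divDeg D + 1)) ≤ D := by
    intro v
    rw [Finsupp.add_apply]
    by_cases hv : v = Q
    · rw [hv, Finsupp.single_eq_same]
      omega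
    · rw [Finsupp.single_eq_of_ne hv, add_zero]
  have h1 := finrank_rr_le h hle
  rw [rr_of_neg h (D := D + Finsupp.single Q (-(divDeg D + 1))) (by rw [hdeg]; norm_num), hdeg,
    finrank_bot] at h1
  push_cast at h1
  linarith

section

variable {κ L : Type*} [Field κ] [IsAlgClosed κ] [CharZero κ] [Field L] [Algebra κ L]
  [Algebra (RatFunc κ) L] [IsScalarTower κ (RatFunc κ) L] [FiniteDimensional (RatFunc κ) L]

/-- the lower bound for the multiples of the pole divisor -/
private theorem e04_lower {P : Place κ L →₀ ℤ} (hP : IsPole P)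
    {f : Fin (finrank (RatFunc κ) L) → L} (hf : LinearIndependent (RatFunc κ) f)
    {j : Fin (finrank (RatFunc κ) L) → ℕ} (hj : ∀ i, f i ∈ rr (j i • P)) {N : ℕ}
    (hN : ∀ i, j i ≤ N) :
    (finrank (RatFunc κ) L : ℤ) * (N + 1) - ∑ i, (j i : ℤ) ≤ finrank κ (rr (N • P)) := by
  have hF : IsFF κ L := isFF_of_ratFunc κ L
  have hfd : FiniteDimensional κ (rr (N • P)) := finite_rr hF _
  have h1 : LinearIndependent κ fun p : ℕ × Fin (finrank (RatFunc κ) L) =>
      (RatFunc.X : RatFunc κ) ^ p.1 • f p.2 := linearIndependent_smul gr4_pow_indep hf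
  have h2 : LinearIndependent κ fun p : (i : Fin (finrank (RatFunc κ) L)) × Fin (N + 1 - j i) =>
      (RatFunc.X : RatFunc κ) ^ (p.2 : ℕ) • f p.1 := by
    have h3 := h1.comp (fun p : (i : Fin (finrank (RatFunc κ) L)) × Fin (N + 1 - j i) =>
      ((p.2 : ℕ), p.1)) (by
        rintro ⟨i, a⟩ ⟨i', a'⟩ hab
        simp only [Prod.mk.injEq] at hab
        obtain ⟨ha, rfl⟩ := hab
        have : a = a' := Fin.ext ha
        rw [this])
    exact h3
  have hmem : ∀ p : (i : Fin (finrank (RatFunc κ) L)) × Fin (N + 1 - j i),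
      (RatFunc.X : RatFunc κ) ^ (p.2 : ℕ) • f p.1 ∈ rr (N • P) := by
    rintro ⟨i, a⟩ v
    have e1 : (RatFunc.X : RatFunc κ) ^ (a : ℕ) • f i = tL κ L ^ (a : ℕ) * f i := by
      rw [Algebra.smul_def, map_pow]
      rfl
    have h4 : v.1 (tL κ L) ≤ exp (P v) := by
      apply gr4_le_exp
      intro _
      rw [hP v]
      exact le_max_right _ _
    have h5 : v.1 (f i) ≤ exp ((j i : ℤ) * P v) := by
      have h6 := hj i v
      rwa [Finsupp.smul_apply, nsmul_eq_mul] at h6
    have h7 : ((a : ℕ) : ℤ) + j i ≤ N := by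
      have := a.2
      omega
    have h8 := hP.nonneg v
    simp only
    rw [e1, map_mul, map_pow, Finsupp.smul_apply, nsmul_eq_mul]
    calc v.1 (tL κ L) ^ (a : ℕ) * v.1 (f i) ≤ exp (P v) ^ (a : ℕ) * exp ((j i : ℤ) * P v) :=
          mul_le_mul' (pow_le_pow_left' h4 _) h5
      _ = exp (((a : ℕ) : ℤ) * P v + (j i : ℤ) * P v) := by
          rw [← exp_nsmul, nsmul_eq_mul, exp_add]
      _ ≤ exp ((N : ℤ) * P v) := by
          rw [exp_le_exp, ← add_mul]
          exact mul_le_mul_of_nonneg_right h7 h8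
  have h3 : LinearIndependent κ fun p : (i : Fin (finrank (RatFunc κ) L)) × Fin (N + 1 - j i) =>
      (⟨(RatFunc.X : RatFunc κ) ^ (p.2 : ℕ) • f p.1, hmem p⟩ : rr (N • P)) := by
    apply LinearIndependent.of_comp (Submodule.subtype _)
    exact h2
  have h4 := h3.fintype_card_le_finrank
  rw [Fintype.card_sigma] at h4
  simp only [Fintype.card_fin] at h4
  have h5 : ((∑ i, (N + 1 - j i) : ℕ) : ℤ) =
      (finrank (RatFunc κ) L : ℤ) * (N + 1) - ∑ i, (j i : ℤ) := by
    have h6 : ∀ i, ((N + 1 - j i : ℕ) : ℤ) = ((N : ℤ) + 1) - j i := by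
      intro i
      have := hN i
      omega
    rw [Nat.cast_sum, Finset.sum_congr rfl fun i _ => h6 i, Finset.sum_sub_distrib,
      Finset.sum_const, Finset.card_univ, Fintype.card_fin, nsmul_eq_mul]
  rw [← h5]
  exact_mod_cast h4

private theorem e04_all {P : Place κ L →₀ ℤ} (hP : IsPole P)
    {f : Fin (finrank (RatFunc κ) L) → L} (hf : LinearIndependent (RatFunc κ) f)
    {j : Fin (finrank (RatFunc κ) L) → ℕ} (hj : ∀ i, f i ∈ rr (j i • P)) (D : Place κ L →₀ ℤ) :
    divDeg D + finrank (RatFunc κ) L - ∑ i, (j i : ℤ) ≤ finrank κ (rr D) := by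
  have hF : IsFF κ L := isFF_of_ratFunc κ L
  have hdeg : ∀ m : ℕ, divDeg (m • P) = m * finrank (RatFunc κ) L := by
    intro m
    induction m with
    | zero => simp [divDeg]
    | succ k ih =>
      rw [succ_nsmul, divDeg_add, ih, hP.deg]
      push_cast
      ring
  obtain ⟨p, hp, m, hm⟩ := clear_poles hP D
  obtain ⟨D', hD', hdeg', hfr⟩ := rr_shift hF D (gr4_pL_ne (L := L) hp)
  have hle : D' ≤ (m + ∑ i, j i) • P := by
    intro v
    rw [hD' v, Finsupp.smul_apply, nsmul_eq_mul]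
    have h1 := hm v
    have h2 : (0 : ℤ) ≤ ((∑ i, j i : ℕ) : ℤ) * P v := mul_nonneg (Int.natCast_nonneg _) (hP.nonneg v)
    push_cast at h2 ⊢
    linarith
  have h1 := finrank_rr_le hF hle
  rw [hdeg, hdeg', hfr] at h1
  have h2 := e04_lower hP hf hj (N := m + ∑ i, j i) (fun i =>
    (Finset.single_le_sum (f := j) (fun _ _ => Nat.zero_le _) (Finset.mem_univ i)).trans
      (Nat.le_add_left _ _))
  have h3 : (finrank (RatFunc κ) L : ℤ) * (((m + ∑ i, j i : ℕ) : ℤ) + 1) =
      ((m + ∑ i, j i : ℕ) : ℤ) * finrank (RatFunc κ) L + finrank (RatFunc κ) L := by ring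
  rw [h3] at h2
  linarith

/-- the genus is bounded by the pole orders of a basis -/
theorem genus_le_basis {P : Place κ L →₀ ℤ} (hP : IsPole P)
    {f : Fin (finrank (RatFunc κ) L) → L} (hf : LinearIndependent (RatFunc κ) f)
    {j : Fin (finrank (RatFunc κ) L) → ℕ} (hj : ∀ i, f i ∈ rr (j i • P)) :
    (genus κ L : ℤ) + finrank (RatFunc κ) L ≤ ∑ i, (j i : ℤ) + 1 := by
  -- as in the proof of `gr4_riemann`: the elements `X ^ a * f i` with `a + j i ≤ N` are
  -- independent over `κ`, so `finrank (rr (N • P)) ≥ m (N + 1) - ∑ j` for all large `N`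
  -- (`m = finrank (RatFunc κ) L`); then `clear_poles`, `rr_shift`, `finrank_rr_le` for an arbitrary
  -- divisor. For `D = 0`: `1 ≥ m - ∑ j`.
  have hF : IsFF κ L := isFF_of_ratFunc κ L
  have h0 : divDeg (0 : Place κ L →₀ ℤ) = 0 := by simp [divDeg]
  have h1 := e04_all hP hf hj 0
  have h2 := finrank_rr_le_deg hF (D := 0) (by rw [h0]; norm_num)
  rw [h0] at h1 h2
  have h3 : 0 ≤ ∑ i, (j i : ℤ) + 1 - finrank (RatFunc κ) L := by linarith
  have h4 : genus κ L ≤ (∑ i, (j i : ℤ) + 1 - finrank (RatFunc κ) L).toNat := by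
    unfold genus
    apply Nat.sInf_le
    intro D
    rw [Int.toNat_of_nonneg h3]
    have h5 := e04_all hP hf hj D
    linarith
  have h5 : (genus κ L : ℤ) ≤ ((∑ i, (j i : ℤ) + 1 - finrank (RatFunc κ) L).toNat : ℤ) := by
    exact_mod_cast h4
  rw [Int.toNat_of_nonneg h3] at h5
  linarith

/-- the ramification is bounded by the pole orders of a basis -/
theorem ramDeg_le_basis {P : Place κ L →₀ ℤ} (hP : IsPole P)
    {f : Fin (finrank (RatFunc κ) L) → L} (hf : LinearIndependent (RatFunc κ) f)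
    {j : Fin (finrank (RatFunc κ) L) → ℕ} (hj : ∀ i, f i ∈ rr (j i • P)) :
    (ramDeg κ L (RatFunc κ) : ℤ) ≤ 2 * ∑ i, (j i : ℤ) := by
  have h1 := ramDeg_le κ L
  have h2 := genus_le_basis hP hf hj
  linarith

end

end Pool.Agent.Lib.MP_44a246_ntE
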