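import Mathlib
import Pool.Agent.Lib.MP_44a246_ntR.GR9

/-!
Elements with poles bounded by the poles of the variable: independence over the field of rational
functions; products of subspaces of more than half the dimension.
-/

namespace Pool.Agent.Lib.MP_44a246_ntE

open Pool.Agent.Lib.MP_44a246_nt Pool.Agent.Lib.MP_44a246_ntL
open Pool.Agent.Lib.MP_44a246_ntR
open WithZero Polynomial Module

section

variable {κ L : Type*} [Field κ] [IsAlgClosed κ] [CharZero κ] [Field L] [Algebra κ L]
  [Algebra (RatFunc κ) L] [IsScalarTower κ (RatFunc κ) L] [FiniteDimensional (RatFunc κ) L]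

omit [IsAlgClosed κ] [CharZero κ] [Algebra (RatFunc κ) L] [IsScalarTower κ (RatFunc κ) L]
  [FiniteDimensional (RatFunc κ) L] in
private theorem e05_poly_le (w : Valuation L ℤᵐ⁰)
    (hc : ∀ c : κ, w (algebraMap κ L c) ≤ 1) {t : L} (ht : w t ≤ 1) (q : κ[X]) :
    w (aeval t q) ≤ 1 := by
  rw [aeval_eq_sum_range]
  refine w.map_sum_le fun i _ => ?_
  rw [Algebra.smul_def, map_mul, map_pow]
  exact mul_le_one' (hc _) (pow_le_one' ht _)

/-- Let the poles of the `g i` be bounded by the poles of `X`. If `1, X, g i` are independent over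
`κ`, then `1, g i` are independent over `κ (X)`. -/
theorem indep_over {P : Place κ L →₀ ℤ} (hP : IsPole P) {s : ℕ} {g : Fin s → L}
    (hg : ∀ i, g i ∈ rr P)
    (hind : LinearIndependent κ (Fin.cons 1 (Fin.cons (tL κ L) g) : Fin (s + 2) → L)) :
    LinearIndependent (RatFunc κ) (Fin.cons 1 g : Fin (s + 1) → L) := by
  -- Clear the denominators of a relation: `∑ a i (X) * g' i = 0` with polynomials `a i : κ[X]`,
  -- not all zero, `g' = Fin.cons 1 g`. Choose `c : κ` with `a i (c) ≠ 0` for some `i`. The element
  -- `v = (∑ a i (c) * g' i) / (X - c)` satisfies `w v ≤ 1` for all `w`: if `w X > 1` then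
  -- `w (X - c) = w X` and `w (g' i) ≤ w X`; if `w X ≤ 1`, use
  -- `v = - ∑ ((a i (X) - a i (c)) / (X - c)) * g' i` (polynomials in `X`: `X - C c ∣ a - C (a.eval c)`)
  -- and `w (g' i) ≤ 1`. So `v` is a constant (`const_of_rr_zero`), and
  -- `∑ a i (c) * g' i = v * (X - c)` contradicts `hind`.
  classical
  have hFF := isFF_of_ratFunc κ L
  let _ : Algebra κ[X] L :=
    ((algebraMap (RatFunc κ) L).comp (algebraMap κ[X] (RatFunc κ))).toAlgebra
  have _ : IsScalarTower κ[X] (RatFunc κ) L := IsScalarTower.of_algebraMap_eq' rfl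
  rw [← LinearIndependent.iff_fractionRing κ[X] (RatFunc κ), Fintype.linearIndependent_iff]
  intro a ha
  by_contra hne
  push Not at hne
  obtain ⟨i₀, hi₀⟩ := hne
  obtain ⟨c, hc⟩ : ∃ c : κ, (a i₀).eval c ≠ 0 := by
    by_contra hcon
    push Not at hcon
    exact hi₀ (Polynomial.funext fun r => by rw [hcon r, eval_zero])
  set t : L := tL κ L with ht
  set u : L := t - algebraMap κ L c with hu
  have hu0 : u ≠ 0 := by
    intro h
    refine transcendental_tL (κ := κ) (L := L) ⟨X - C c, X_sub_C_ne_zero c, ?_⟩
    rw [map_sub, aeval_X, aeval_C]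
    exact h
  have hdvd : ∀ i, ∃ q : κ[X], a i - C ((a i).eval c) = (X - C c) * q := fun i =>
    X_sub_C_dvd_sub_C_eval
  choose q hq using hdvd
  set g' : Fin (s + 1) → L := Fin.cons 1 g with hg'
  set S : L := ∑ i, algebraMap κ L ((a i).eval c) * g' i with hS
  have hsmul : ∀ i, a i • g' i = aeval t (a i) * g' i := by
    intro i
    rw [ht, aeval_tL, Algebra.smul_def]
    rfl
  have hai : ∀ i, aeval t (a i) = algebraMap κ L ((a i).eval c) + u * aeval t (q i) := by
    intro i
    have h := congrArg (aeval t) (hq i)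
    rw [map_sub, map_mul, map_sub, aeval_X, aeval_C, aeval_C] at h
    rw [hu]
    linear_combination h
  have hSQ : S = -(u * ∑ i, aeval t (q i) * g' i) := by
    have h : ∑ i, a i • g' i = S + u * ∑ i, aeval t (q i) * g' i := by
      rw [hS, Finset.mul_sum, ← Finset.sum_add_distrib]
      refine Finset.sum_congr rfl fun i _ => ?_
      rw [hsmul, hai]
      ring
    rw [ha] at h
    linear_combination -h
  have hcl : ∀ (w : Place κ L) (e : κ), w.1 (algebraMap κ L e) ≤ 1 := by
    intro w e
    by_cases he : e = 0
    · rw [he, map_zero, map_zero]; exact zero_le_one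
    · rw [w.2.2 e he]
  have hval : ∀ w : Place κ L, w.1 (S / u) ≤ 1 := by
    intro w
    have ht0 : w.1 t ≠ 0 := (w.1.ne_zero_iff).2 (by
      rw [ht]
      intro h
      exact transcendental_tL (κ := κ) (L := L) (h ▸ isAlgebraic_zero))
    rcases le_or_gt (w.1 t) 1 with hw | hw
    · have hP0 : P w = 0 := by
        rw [hP w]
        refine max_eq_left ?_
        rw [log_le_iff_le_exp ht0, exp_zero]
        exact hw
      have hg'1 : ∀ i, w.1 (g' i) ≤ 1 := by
        intro i
        refine Fin.cases ?_ (fun j => ?_) i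
        · rw [hg', Fin.cons_zero, map_one]
        · rw [hg', Fin.cons_succ]
          have h := hg j w
          rwa [hP0, exp_zero] at h
      have e1 : S / u = -(∑ i, aeval t (q i) * g' i) := by
        rw [hSQ]
        field_simp
      rw [e1, Valuation.map_neg]
      refine w.1.map_sum_le fun i _ => ?_
      rw [map_mul]
      exact mul_le_one' (e05_poly_le w.1 (hcl w) hw _) (hg'1 i)
    · have hPt : exp (P w) = w.1 t := by
        rw [hP w, max_eq_right, exp_log ht0]
        rw [le_log_iff_exp_le ht0, exp_zero]
        exact hw.le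
      have hg'1 : ∀ i, w.1 (g' i) ≤ w.1 t := by
        intro i
        refine Fin.cases ?_ (fun j => ?_) i
        · rw [hg', Fin.cons_zero, map_one]
          exact hw.le
        · rw [hg', Fin.cons_succ, ← hPt]
          exact hg j w
      have hwu : w.1 u = w.1 t := by
        rw [hu]
        exact Valuation.map_sub_eq_of_lt_left _ ((hcl w c).trans_lt hw)
      rw [map_div₀, hwu]
      refine div_le_one_of_le₀ ?_ zero_le
      rw [hS]
      refine w.1.map_sum_le fun i _ => ?_
      rw [map_mul]
      exact (mul_le_mul' (hcl w _) (hg'1 i)).trans (one_mul _).le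
  obtain ⟨e, he⟩ := const_of_rr_zero hFF hval
  have hrel : ∑ i, (Fin.cons ((a 0).eval c + e * c) (Fin.cons (-e)
      fun j : Fin s => (a j.succ).eval c) : Fin (s + 2) → κ) i •
      (Fin.cons 1 (Fin.cons (tL κ L) g) : Fin (s + 2) → L) i = 0 := by
    rw [Fin.sum_univ_succ, Fin.sum_univ_succ]
    simp only [Fin.cons_zero, Fin.cons_succ, Algebra.smul_def]
    have h1 : S = algebraMap κ L e * u := by
      rw [he]
      field_simp
    rw [hS, Fin.sum_univ_succ] at h1
    simp only [hg', Fin.cons_zero, Fin.cons_succ] at h1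
    rw [map_add, map_mul, map_neg]
    rw [hu] at h1
    linear_combination h1
  have hz := Fintype.linearIndependent_iff.1 hind _ hrel
  have he0 : e = 0 := by
    have h := hz 1
    rw [show (1 : Fin (s + 2)) = Fin.succ 0 from rfl, Fin.cons_succ, Fin.cons_zero] at h
    exact neg_eq_zero.1 h
  apply hc
  revert i₀
  intro i₀ hi₀ hc
  refine Fin.cases ?_ (fun j => ?_) i₀
  · have h := hz 0
    rw [Fin.cons_zero, he0, zero_mul, add_zero] at h
    exact h
  · have h := hz j.succ.succ
    rw [Fin.cons_succ, Fin.cons_succ] at h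
    exact h

end

/-- A subspace of dimension more than `m / 2` of an extension of degree `m`: the products of its
elements span the field. -/
theorem mul_self_top {K L : Type*} [Field K] [CharZero K] [Field L] [Algebra K L]
    [FiniteDimensional K L] {V : Submodule K L} (hV : finrank K L < 2 * finrank K V) :
    V * V = ⊤ := by
  -- Otherwise there is a functional `φ ≠ 0` with `φ = 0` on `V * V`
  -- (`Submodule.exists_dual_map_eq_bot_of_lt_top` or similar); `φ = trace (u * ·)`, `u ≠ 0`
  -- (`traceForm_nondegenerate`, `LinearMap.BilinForm.toDual`). The map `V → Dual V`... :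
  -- `u * V` is contained in the orthogonal space of `V` for the trace form, whose dimension is
  -- `m - finrank V` (`LinearMap.BilinForm.finrank_orthogonal`).
  classical
  by_contra htop
  obtain ⟨φ, hφ, hmap⟩ := Submodule.exists_dual_map_eq_bot_of_lt_top (lt_top_iff_ne_top.2 htop)
    inferInstance
  have hzero : ∀ x ∈ V, ∀ y ∈ V, φ (x * y) = 0 := by
    intro x hx y hy
    have h : φ (x * y) ∈ (V * V).map φ := Submodule.mem_map_of_mem (Submodule.mul_mem_mul hx hy)
    rw [hmap, Submodule.mem_bot] at h
    exact h
  let B : LinearMap.BilinForm K L := (LinearMap.mul K L).compr₂ φ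
  have hB : ∀ x y, B x y = φ (x * y) := fun x y => rfl
  obtain ⟨z, hz⟩ : ∃ z, φ z ≠ 0 := by
    by_contra hcon
    push Not at hcon
    exact hφ (LinearMap.ext hcon)
  have hnd : B.Nondegenerate := by
    constructor
    · intro x hx
      by_contra hx0
      apply hz
      have h := hx (x⁻¹ * z)
      rw [hB, ← mul_assoc, mul_inv_cancel₀ hx0, one_mul] at h
      exact h
    · intro x hx
      by_contra hx0
      apply hz
      have h := hx (z * x⁻¹)
      rw [hB, mul_assoc, inv_mul_cancel₀ hx0, mul_one] at h
      exact h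
  have hle : V ≤ B.orthogonal V := by
    intro x hx y hy
    exact hzero y hy x hx
  have h1 := Submodule.finrank_mono hle
  rw [LinearMap.BilinForm.finrank_orthogonal hnd] at h1
  omega

end Pool.Agent.Lib.MP_44a246_ntE
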