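import Mathlib
import Pool.Agent.Lib.MP_44a246_ntE.E05

/-!
A basis of the function field of a curve, adapted to a linear system.
-/

namespace Pool.Agent.Lib.MP_44a246_ntE

open Pool.Agent.Lib.MP_44a246_nt Pool.Agent.Lib.MP_44a246_ntL
open Pool.Agent.Lib.MP_44a246_ntR
open WithZero Polynomial Module

variable {κ L : Type*} [Field κ] [IsAlgClosed κ] [CharZero κ] [Field L] [Algebra κ L]
  [Algebra (RatFunc κ) L] [IsScalarTower κ (RatFunc κ) L] [FiniteDimensional (RatFunc κ) L]

open scoped Pointwise in
/-- extension of `1` to a basis in a set, and then by products -/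
private theorem e06_adapt {K L : Type*} [Field K] [Field L] [Algebra K L] [FiniteDimensional K L]
    {T : Set L} (h1 : (1 : L) ∈ T) (htop : Submodule.span K T * Submodule.span K T = ⊤)
    (hm : finrank K L < 2 * finrank K (Submodule.span K T)) :
    ∃ (f : Fin (finrank K L) → L) (j : Fin (finrank K L) → ℕ), LinearIndependent K f ∧
      (∀ i, (j i = 0 ∧ f i = 1) ∨ (j i = 1 ∧ f i ∈ T) ∨
        (j i = 2 ∧ ∃ a ∈ T, ∃ b ∈ T, f i = a * b)) ∧
      (∀ i, j i < finrank K L) ∧
      ∑ i, j i + finrank K (Submodule.span K T) + 1 = 2 * finrank K L := by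
  classical
  have hs0 : LinearIndepOn K id ({1} : Set L) := by
    rw [linearIndepOn_singleton_iff]
    exact one_ne_zero
  obtain ⟨b, hbT, h1b, hTb, hb⟩ := exists_linearIndepOn_id_extension hs0
    (Set.singleton_subset_iff.2 h1)
  rw [Set.singleton_subset_iff] at h1b
  have hbsp : Submodule.span K b = Submodule.span K T :=
    le_antisymm (Submodule.span_mono hbT) (Submodule.span_le.2 hTb)
  obtain ⟨c, hcT, hbc, hTc, hc⟩ := exists_linearIndepOn_id_extension (t := T * T) hb (by
    intro x hx
    exact ⟨1, h1, x, hbT hx, one_mul x⟩)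
  have hcsp : Submodule.span K c = ⊤ := by
    rw [eq_top_iff, ← htop, Submodule.span_mul_span]
    exact Submodule.span_le.2 hTc
  have hcf : c.Finite := LinearIndependent.set_finite_of_isNoetherian hc
  have hbf : b.Finite := hcf.subset hbc
  haveI : Fintype c := hcf.fintype
  haveI : Fintype b := hbf.fintype
  have hcardc : c.toFinset.card = finrank K L := by
    rw [← finrank_span_set_eq_card hc, hcsp, finrank_top]
  have hcardb : b.toFinset.card = finrank K (Submodule.span K T) := by
    rw [← finrank_span_set_eq_card hb, hbsp]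
  have hcard' : Fintype.card c = finrank K L := by
    rw [← hcardc, Set.toFinset_card]
  obtain ⟨e⟩ : Nonempty (Fin (finrank K L) ≃ c) :=
    ⟨(Fintype.equivFinOfCardEq hcard').symm⟩
  obtain ⟨w, hw⟩ : ∃ w : L → ℕ, ∀ x, w x = if x = 1 then 0 else if x ∈ b then 1 else 2 :=
    ⟨_, fun _ => rfl⟩
  have hbcard : 1 ≤ b.toFinset.card := Finset.card_pos.2 ⟨1, by rw [Set.mem_toFinset]; exact h1b⟩
  have hsub : b.toFinset ⊆ c.toFinset := by
    intro x hx
    rw [Set.mem_toFinset] at hx ⊢
    exact hbc hx
  refine ⟨fun i => (e i : L), fun i => w (e i), ?_, ?_, ?_, ?_⟩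
  · exact hc.comp e e.injective
  · intro i
    simp only [hw]
    by_cases hx1 : (e i : L) = 1
    · rw [if_pos hx1]
      exact Or.inl ⟨rfl, hx1⟩
    · rw [if_neg hx1]
      by_cases hxb : (e i : L) ∈ b
      · rw [if_pos hxb]
        exact Or.inr (Or.inl ⟨rfl, hbT hxb⟩)
      · rw [if_neg hxb]
        obtain ⟨a, ha, a', ha', hx⟩ := hcT (e i).2
        exact Or.inr (Or.inr ⟨rfl, a, ha, a', ha', hx.symm⟩)
  · intro i
    simp only [hw]
    by_cases hx1 : (e i : L) = 1
    · rw [if_pos hx1]
      exact Module.finrank_pos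
    · rw [if_neg hx1]
      by_cases hxb : (e i : L) ∈ b
      · rw [if_pos hxb]
        have h2 : ({1, (e i : L)} : Finset L) ⊆ c.toFinset := by
          intro x hx
          rw [Set.mem_toFinset]
          rcases Finset.mem_insert.1 hx with rfl | hx
          · exact hbc h1b
          · rw [Finset.mem_singleton.1 hx]
            exact (e i).2
        have h3 := Finset.card_le_card h2
        rw [Finset.card_pair (Ne.symm hx1), hcardc] at h3
        omega
      · rw [if_neg hxb]
        have h2 : b.toFinset ⊂ c.toFinset := by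
          refine Finset.ssubset_iff_subset_ne.2 ⟨hsub, fun h => ?_⟩
          apply hxb
          rw [← Set.mem_toFinset, h, Set.mem_toFinset]
          exact (e i).2
        have h3 := Finset.card_lt_card h2
        rw [hcardb, hcardc] at h3
        omega
  · have h2 : ∑ i, w (e i : L) = ∑ x ∈ c.toFinset, w x := by
      rw [e.sum_comp (fun x : c => w (x : L))]
      exact (Finset.sum_subtype c.toFinset (fun x => Set.mem_toFinset) w).symm
    have h3 : ∀ x ∈ c.toFinset, w x + ((if x ∈ b.toFinset then 1 else 0) +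
        (if x = 1 then 1 else 0)) = 2 := by
      intro x _
      rw [hw]
      by_cases hx1 : x = 1
      · subst hx1
        rw [if_pos rfl, if_pos (by rw [Set.mem_toFinset]; exact h1b), if_pos rfl]
      · rw [if_neg hx1, if_neg hx1]
        by_cases hxb : x ∈ b
        · rw [if_pos hxb, if_pos (by rw [Set.mem_toFinset]; exact hxb)]
        · rw [if_neg hxb, if_neg (by rw [Set.mem_toFinset]; exact hxb)]
    have h4 := Finset.sum_congr rfl h3
    rw [Finset.sum_add_distrib, Finset.sum_add_distrib, Finset.sum_const, smul_eq_mul, hcardc,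
      Finset.sum_ite_mem, Finset.inter_eq_right.2 hsub, Finset.sum_const, smul_eq_mul, mul_one,
      hcardb, Finset.sum_ite_eq' c.toFinset (1 : L),
      if_pos (by rw [Set.mem_toFinset]; exact hbc h1b)] at h4
    rw [h2]
    omega

/-- the number of elements in a set of generators -/
private theorem e06_extend {κ L : Type*} [Field κ] [Field L] [Algebra κ L] {W : Submodule κ L}
    [FiniteDimensional κ W] (h1 : (1 : L) ∈ W) {x : L} (hx : x ∈ W)
    (hx1 : (1 : L) ∉ Submodule.span κ {x}) (hx0 : x ≠ 0) {s : ℕ} (hs : finrank κ W = s + 2) :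
    ∃ g : Fin s → L, (∀ i, g i ∈ W) ∧
      LinearIndependent κ (Fin.cons 1 (Fin.cons x g) : Fin (s + 2) → L) := by
  classical
  have hs0 : LinearIndepOn κ id ({1, x} : Set L) := by
    refine LinearIndepOn.id_insert ?_ hx1
    rw [linearIndepOn_singleton_iff]
    exact hx0
  obtain ⟨B, hBW, hsB, hWB, hB⟩ := exists_linearIndepOn_id_extension (t := (W : Set L)) hs0 (by
    intro y hy
    rcases hy with rfl | hy
    · exact h1
    · rw [Set.mem_singleton_iff.1 hy]
      exact hx)
  have h1B : (1 : L) ∈ B := hsB (Set.mem_insert _ _)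
  have hxB : x ∈ B := hsB (Set.mem_insert_of_mem _ (Set.mem_singleton _))
  have hne : (1 : L) ≠ x := by
    rintro rfl
    exact hx1 (Submodule.mem_span_singleton_self _)
  have hspB : Submodule.span κ B = W :=
    le_antisymm (Submodule.span_le.2 hBW) hWB
  have hBf : B.Finite := by
    have h2 : LinearIndependent κ (fun y : B => (⟨(y : L), hBW y.2⟩ : W)) := by
      apply LinearIndependent.of_comp W.subtype
      exact hB
    exact Set.finite_coe_iff.1 h2.finite
  haveI : Fintype B := hBf.fintype
  have hcard : B.toFinset.card = s + 2 := by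
    rw [← finrank_span_set_eq_card hB, hspB, hs]
  have hcard2 : ((B.toFinset.erase 1).erase x).card = s := by
    rw [Finset.card_erase_of_mem, Finset.card_erase_of_mem, hcard]
    · rfl
    · rw [Set.mem_toFinset]
      exact h1B
    · rw [Finset.mem_erase, Set.mem_toFinset]
      exact ⟨Ne.symm hne, hxB⟩
  let e := (((B.toFinset.erase 1).erase x).equivFinOfCardEq hcard2).symm
  have he : ∀ i, ((e i : L) ∈ B ∧ (e i : L) ≠ 1) ∧ (e i : L) ≠ x := by
    intro i
    have h2 := (e i).2
    rw [Finset.mem_erase, Finset.mem_erase, Set.mem_toFinset] at h2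
    exact ⟨⟨h2.2.2, h2.2.1⟩, h2.1⟩
  refine ⟨fun i => (e i : L), fun i => hBW (he i).1.1, ?_⟩
  obtain ⟨σ, hσ⟩ : ∃ σ : Fin (s + 2) → B, σ =
      Fin.cons ⟨1, h1B⟩ (Fin.cons ⟨x, hxB⟩ (fun i => ⟨(e i : L), (he i).1.1⟩)) := ⟨_, rfl⟩
  have hσi : Function.Injective σ := by
    rw [hσ, Fin.cons_injective_iff, Fin.cons_injective_iff]
    refine ⟨?_, ?_, ?_⟩
    · rintro ⟨i, hi⟩
      revert hi
      refine Fin.cases ?_ (fun i => ?_) i
      · intro hi
        exact hne (congrArg (fun y : B => (y : L)) hi).symm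
      · intro hi
        exact (he i).1.2 (congrArg (fun y : B => (y : L)) hi)
    · rintro ⟨i, hi⟩
      exact (he i).2 (congrArg (fun y : B => (y : L)) hi)
    · intro i i' hii
      apply e.injective
      exact Subtype.ext (congrArg (fun y : B => (y : L)) hii)
  have h3 := hB.comp σ hσi
  have h4 : (Subtype.val ∘ σ : Fin (s + 2) → L) = Fin.cons 1 (Fin.cons x fun i => (e i : L)) := by
    funext i
    rw [hσ]
    refine Fin.cases rfl (fun i => ?_) i
    exact Fin.cases rfl (fun i => rfl) i
  rw [← h4]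
  exact h3

/-- **An adapted basis.** Let `W` be a finite dimensional space of functions with poles bounded by
those of `X`, which contains `1`, `X` and a generator `Y` of `L` over `κ (X)`; `m = [L : κ (X)]`,
`finrank W = s + 1`. There are a basis `f i` of `L` over `κ (X)` and `j i`, with `f i` in the span
of the products of `j i` elements of `W`, such that either `2 s ≤ m`, `2 ∑ j i = m (m - 1)`, or
`m < 2 s`, `s ≤ m` and `∑ j i + s + 1 ≤ 2 m`. In both cases `j i < m`. -/
theorem exists_adapted {P : Place κ L →₀ ℤ} (hP : IsPole P) {W : Submodule κ L}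
    [FiniteDimensional κ W] (h1 : (1 : L) ∈ W) (hX : tL κ L ∈ W) {Y : L} (hY : Y ∈ W)
    (hW : W ≤ rr P) (hgen : IntermediateField.adjoin (RatFunc κ) {Y} = ⊤) {s : ℕ}
    (hs : finrank κ W = s + 1) :
    ∃ (f : Fin (finrank (RatFunc κ) L) → L) (j : Fin (finrank (RatFunc κ) L) → ℕ),
      LinearIndependent (RatFunc κ) f ∧ (∀ i, f i ∈ W ^ j i) ∧
      (∀ i, j i < finrank (RatFunc κ) L) ∧
      ((2 * s ≤ finrank (RatFunc κ) L ∧
          2 * ∑ i, j i = finrank (RatFunc κ) L * (finrank (RatFunc κ) L - 1)) ∨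
        (finrank (RatFunc κ) L < 2 * s ∧ s ≤ finrank (RatFunc κ) L ∧
          ∑ i, j i + s + 1 ≤ 2 * finrank (RatFunc κ) L)) := by
  -- `2 s ≤ m`: `f i = Y ^ i`, `j i = i`. `m < 2 s`: extend `1, X` to a basis `1, X, g i` of `W`
  -- (`i < s - 1`); `1, g i` are independent over `κ (X)` (`indep_over`), so `s ≤ m`;
  -- let `V` be the `κ (X)`-span of `W`, `r₁ = finrank V ≥ s`, `V * V = ⊤` (`mul_self_top`).
  -- Take a basis of `V` of the form `1, ...` of elements of `W` (the number of elements different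
  -- from `1` is `r₁ - 1`, `j = 1`; `j = 0` for `1`) and extend it by products of two elements of
  -- `W` (which span `L` over `κ (X)`), `j = 2`: `∑ j = (r₁ - 1) + 2 (m - r₁) = 2 m - 1 - r₁`.
  -- (`j i < m`: if `m = 1` then `s = 1`, `f = 1`, `j = 0`; if some `j i = 2` then `r₁ < m`,
  -- `m < 2 r₁`, so `m ≥ 3`; if some `j i = 1` then `r₁ ≥ 2`, `m ≥ 2`.)
  classical
  have hm0 : 0 < finrank (RatFunc κ) L := Module.finrank_pos
  by_cases hcase : 2 * s ≤ finrank (RatFunc κ) L
  · -- powers of `Y`
    have hint : IsIntegral (RatFunc κ) Y := Algebra.IsIntegral.isIntegral Y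
    have hdeg : (minpoly (RatFunc κ) Y).natDegree = finrank (RatFunc κ) L := by
      rw [← IntermediateField.adjoin.finrank hint, hgen, IntermediateField.finrank_top']
    have hli := linearIndependent_pow (K := RatFunc κ) Y
    rw [hdeg] at hli
    refine ⟨fun i => Y ^ (i : ℕ), fun i => i, hli, fun i => Submodule.pow_mem_pow W hY _,
      fun i => i.2, Or.inl ⟨hcase, ?_⟩⟩
    rw [Fin.sum_univ_eq_sum_range (fun i => i), mul_comm, Finset.sum_range_id_mul_two]
  · push Not at hcase
    obtain ⟨s', rfl⟩ : ∃ s', s = s' + 1 := ⟨s - 1, by omega⟩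
    have htr : Transcendental κ (tL κ L) := transcendental_tL
    have ht0 : tL κ L ≠ 0 := by
      intro h
      exact htr (h ▸ isAlgebraic_zero)
    have ht1 : (1 : L) ∉ Submodule.span κ {tL κ L} := by
      intro h
      obtain ⟨c, hc⟩ := Submodule.mem_span_singleton.1 h
      have hc0 : c ≠ 0 := by
        rintro rfl
        rw [zero_smul] at hc
        exact zero_ne_one hc
      apply htr
      have h2 : tL κ L = algebraMap κ L c⁻¹ := by
        rw [Algebra.smul_def] at hc
        rw [map_inv₀]
        exact eq_inv_of_mul_eq_one_right hc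
      rw [h2]
      exact isAlgebraic_algebraMap _
    obtain ⟨g, hg, hgi⟩ := e06_extend h1 hX ht1 ht0 (s := s') hs
    have hind := indep_over hP (fun i => hW (hg i)) hgi
    have hT : (1 : L) ∈ (W : Set L) := h1
    have hr : s' + 1 ≤ finrank (RatFunc κ) (Submodule.span (RatFunc κ) (W : Set L)) := by
      have h2 : LinearIndependent (RatFunc κ) (fun i : Fin (s' + 1) =>
          (⟨(Fin.cons 1 g : Fin (s' + 1) → L) i, by
            refine Submodule.subset_span ?_
            refine Fin.cases ?_ (fun i => ?_) i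
            · exact h1
            · exact hg i⟩ : Submodule.span (RatFunc κ) (W : Set L))) := by
        apply LinearIndependent.of_comp (Submodule.subtype _)
        exact hind
      have h3 := h2.fintype_card_le_finrank
      rwa [Fintype.card_fin] at h3
    have hsm : s' + 1 ≤ finrank (RatFunc κ) L := hr.trans (Submodule.finrank_le _)
    have hm2 : finrank (RatFunc κ) L <
        2 * finrank (RatFunc κ) (Submodule.span (RatFunc κ) (W : Set L)) := by omega
    haveI : CharZero (RatFunc κ) := charZero_of_injective_algebraMap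
      (algebraMap κ (RatFunc κ)).injective
    obtain ⟨f, j, hf, hfj, hjm, hsum⟩ := e06_adapt hT (mul_self_top hm2) hm2
    refine ⟨f, j, hf, ?_, hjm, Or.inr ⟨hcase, hsm, by omega⟩⟩
    intro i
    rcases hfj i with ⟨h2, h3⟩ | ⟨h2, h3⟩ | ⟨h2, a, ha, b, hb, h3⟩
    · rw [h2, h3, pow_zero]
      exact Submodule.one_le.1 le_rfl
    · rw [h2, pow_one]
      exact h3
    · rw [h2, h3, pow_two]
      exact Submodule.mul_mem_mul ha hb

/-- the dimension of the span of the products of `d` elements -/
theorem finrank_pow_ge {P : Place κ L →₀ ℤ} (hP : IsPole P) {W : Submodule κ L}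
    [FiniteDimensional κ W] (h1 : (1 : L) ∈ W) (hX : tL κ L ∈ W)
    {f : Fin (finrank (RatFunc κ) L) → L} {j : Fin (finrank (RatFunc κ) L) → ℕ}
    (hf : LinearIndependent (RatFunc κ) f) (hfj : ∀ i, f i ∈ W ^ j i) {d : ℕ}
    (hd : ∀ i, j i ≤ d) :
    finrank (RatFunc κ) L * (d + 1) ≤ finrank κ ↥(W ^ d) + ∑ i, j i := by
  -- the elements `X ^ a * f i`, `a ≤ d - j i`, are independent over `κ` (`gr4_pow_indep`,
  -- `linearIndependent_smul`, as in `gr4_lower`) and are in `W ^ d`
  classical
  have hW1 : ∀ k, (1 : L) ∈ W ^ k := by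
    intro k
    have h2 := Submodule.pow_mem_pow W h1 k
    rwa [one_pow] at h2
  have hmono : ∀ {a b : ℕ}, a ≤ b → W ^ a ≤ W ^ b := by
    intro a b hab x hx
    obtain ⟨c, rfl⟩ := Nat.exists_eq_add_of_le hab
    rw [pow_add, ← mul_one x]
    exact Submodule.mul_mem_mul hx (hW1 c)
  have hfd : FiniteDimensional κ ↥(W ^ d) := by
    have h2 : W.FG := Module.Finite.iff_fg.1 inferInstance
    exact Module.Finite.iff_fg.2 (h2.pow d)
  have hli : LinearIndependent κ fun p : ℕ × Fin (finrank (RatFunc κ) L) =>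
      (RatFunc.X : RatFunc κ) ^ p.1 • f p.2 := linearIndependent_smul gr4_pow_indep hf
  obtain ⟨τ, hτ⟩ : ∃ τ : (Σ i : Fin (finrank (RatFunc κ) L), Fin (d + 1 - j i)) →
      ℕ × Fin (finrank (RatFunc κ) L), ∀ q, τ q = ((q.2 : ℕ), q.1) := ⟨_, fun _ => rfl⟩
  have hτi : Function.Injective τ := by
    rintro ⟨i, a⟩ ⟨i', a'⟩ h
    rw [hτ, hτ, Prod.mk.injEq] at h
    obtain ⟨h2, h3⟩ := h
    simp only at h2 h3
    subst h3
    rw [Fin.ext h2]
  have hli2 := hli.comp τ hτi
  have hmem : ∀ q : (Σ i : Fin (finrank (RatFunc κ) L), Fin (d + 1 - j i)),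
      ((fun p : ℕ × Fin (finrank (RatFunc κ) L) =>
        (RatFunc.X : RatFunc κ) ^ p.1 • f p.2) ∘ τ) q ∈ W ^ d := by
    intro q
    rw [Function.comp_apply, hτ]
    have h2 : (q.2 : ℕ) + j q.1 ≤ d := by
      have h3 := q.2.2
      have h4 := hd q.1
      omega
    refine hmono h2 ?_
    have h3 : (RatFunc.X : RatFunc κ) ^ (q.2 : ℕ) • f q.1 = tL κ L ^ (q.2 : ℕ) * f q.1 := by
      rw [Algebra.smul_def, map_pow]
      rfl
    simp only
    rw [h3, pow_add]
    exact Submodule.mul_mem_mul (Submodule.pow_mem_pow W hX _) (hfj _)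
  have hli3 : LinearIndependent κ fun q => (⟨_, hmem q⟩ : ↥(W ^ d)) := by
    apply LinearIndependent.of_comp (Submodule.subtype _)
    exact hli2
  have h2 := hli3.fintype_card_le_finrank
  rw [Fintype.card_sigma] at h2
  simp only [Fintype.card_fin] at h2
  have h3 : ∑ i, (d + 1 - j i) + ∑ i, j i = finrank (RatFunc κ) L * (d + 1) := by
    rw [← Finset.sum_add_distrib]
    have h4 : ∀ i ∈ (Finset.univ : Finset (Fin (finrank (RatFunc κ) L))),
        d + 1 - j i + j i = d + 1 := by
      intro i _
      have := hd i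
      omega
    rw [Finset.sum_congr rfl h4, Finset.sum_const, Finset.card_univ, Fintype.card_fin,
      smul_eq_mul]
  omega

end Pool.Agent.Lib.MP_44a246_ntE
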