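import Mathlib
import Pool.Agent.Lib.MP_44a246_ntE.E02
import Pool.Agent.Lib.MP_44a246_ntE.E03
import Pool.Agent.Lib.MP_44a246_ntS.SP1b
import Pool.Agent.Lib.MP_44a246_ntR.GR5
import Pool.Agent.Lib.MP_44a246_ntR.GR9

/-!
The equation of a function field generated by two elements, and derivations which kill these
elements.
-/

namespace Pool.Agent.Lib.MP_44a246_ntE

open Pool.Agent.Lib.MP_e52354_nt
open Pool.Agent.Lib.MP_44a246_nt
open Pool.Agent.Lib.MP_44a246_ntL
open Pool.Agent.Lib.MP_44a246_ntR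
open Pool.Agent.Lib.MP_44a246_ntS
open WithZero Polynomial

section

variable {κ M : Type*} [Field κ] [Field M] [Algebra κ M]
  [Algebra κ[X] M] [IsScalarTower κ κ[X] M]
  [Algebra (RatFunc κ) M] [IsScalarTower κ[X] (RatFunc κ) M]

/-- the two notations for the separating element -/
theorem tL_eq : tL κ M = algebraMap κ[X] M X := by
  unfold tL
  rw [IsScalarTower.algebraMap_apply κ[X] (RatFunc κ) M, RatFunc.algebraMap_X]

/-- the three structures are compatible -/
theorem tower_ratFunc : IsScalarTower κ (RatFunc κ) M := by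
  refine IsScalarTower.of_algebraMap_eq fun c => ?_
  rw [IsScalarTower.algebraMap_apply κ κ[X] M, IsScalarTower.algebraMap_apply κ[X] (RatFunc κ) M,
    ← IsScalarTower.algebraMap_apply κ κ[X] (RatFunc κ)]

variable [FiniteDimensional (RatFunc κ) M]

/-- the equation of the curve -/
theorem exists_eq {Y : M} (hgen : IntermediateField.adjoin (RatFunc κ) {Y} = ⊤) :
    ∃ A : κ[X][X], Irreducible A ∧ A.natDegree = Module.finrank (RatFunc κ) M ∧
      (∀ G : κ[X][X], aeval Y G = 0 ↔ A ∣ G) ∧ ∃ i k, (A.coeff i).coeff k = 1 := by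
  classical
  have hinj : Function.Injective (algebraMap κ[X] M) := by
    rw [IsScalarTower.algebraMap_eq κ[X] (RatFunc κ) M]
    exact (algebraMap (RatFunc κ) M).injective.comp (IsFractionRing.injective κ[X] (RatFunc κ))
  let φ : κ[X][X] →+* M := (aeval Y : κ[X][X] →ₐ[κ[X]] M).toRingHom
  have hI : (RingHom.ker φ).IsPrime := RingHom.ker_isPrime φ
  have hint : IsAlgebraic (RatFunc κ) Y := Algebra.IsAlgebraic.isAlgebraic Y
  have hne : RingHom.ker φ ≠ ⊥ := by
    have h2 : IsAlgebraic κ[X] Y := (IsFractionRing.isAlgebraic_iff κ[X] (RatFunc κ) _).mpr hint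
    obtain ⟨Q, hQ0, hQ⟩ := h2
    intro h
    have h3 : Q ∈ RingHom.ker φ := RingHom.mem_ker.2 hQ
    rw [h] at h3
    exact hQ0 ((Submodule.mem_bot _).1 h3)
  obtain ⟨A, hAm, hAp⟩ := hI.exists_mem_prime_of_ne_bot hne
  have hA0 : aeval Y A = 0 := RingHom.mem_ker.1 hAm
  have hdeg : A.natDegree ≠ 0 := by
    intro h
    rw [eq_C_of_natDegree_eq_zero h, aeval_C] at hA0
    have h1 : A.coeff 0 = 0 := hinj (hA0.trans (map_zero _).symm)
    apply hAp.ne_zero
    rw [eq_C_of_natDegree_eq_zero h, h1, C_0]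
  have hprim : A.IsPrimitive := hAp.irreducible.isPrimitive hdeg
  set g : (RatFunc κ)[X] := A.map (algebraMap κ[X] (RatFunc κ)) with hg
  have hgirr : Irreducible g :=
    (hprim.irreducible_iff_irreducible_map_fraction_map (K := RatFunc κ)).mp hAp.irreducible
  have hnd : g.natDegree = A.natDegree :=
    natDegree_map_eq_of_injective (IsFractionRing.injective κ[X] (RatFunc κ)) A
  have hg0 : aeval Y g = 0 := by rw [hg, aeval_map_algebraMap, hA0]
  have hmin := minpoly.eq_of_irreducible hgirr hg0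
  have hlc : (C g.leadingCoeff⁻¹ : (RatFunc κ)[X]) ≠ 0 := by
    rw [Ne, C_eq_zero]
    exact inv_ne_zero (leadingCoeff_ne_zero.2 hgirr.ne_zero)
  have hfin : Module.finrank (RatFunc κ) M = A.natDegree := by
    have h1 := IntermediateField.adjoin.finrank (K := RatFunc κ) (x := Y) hint.isIntegral
    rw [hgen, IntermediateField.finrank_top', ← hmin,
      natDegree_mul hgirr.ne_zero hlc, natDegree_C, add_zero, hnd] at h1
    exact h1
  have hdvd : ∀ G : κ[X][X], aeval Y G = 0 ↔ A ∣ G := by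
    intro G
    constructor
    · intro h
      have h1 : minpoly (RatFunc κ) Y ∣ G.map (algebraMap κ[X] (RatFunc κ)) := by
        apply minpoly.dvd
        rw [aeval_map_algebraMap, h]
      have h2 : g ∣ G.map (algebraMap κ[X] (RatFunc κ)) :=
        (Dvd.intro _ hmin).trans h1
      exact (hprim.dvd_iff_fraction_map_dvd_fraction_map (RatFunc κ)).2 h2
    · rintro ⟨Q, rfl⟩
      rw [map_mul, hA0, zero_mul]
  obtain ⟨i, hi⟩ : ∃ i, A.coeff i ≠ 0 := by
    by_contra hcon
    push Not at hcon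
    exact hAp.ne_zero (Polynomial.ext fun n => by rw [hcon n, coeff_zero])
  obtain ⟨k, hk⟩ : ∃ k, (A.coeff i).coeff k ≠ 0 := by
    by_contra hcon
    push Not at hcon
    exact hi (Polynomial.ext fun n => by rw [hcon n, coeff_zero])
  set c := (A.coeff i).coeff k with hc
  have hu1 : IsUnit (C c⁻¹ : κ[X]) := isUnit_C.2 (IsUnit.mk0 _ (inv_ne_zero hk))
  have hu : IsUnit (C (C c⁻¹) : κ[X][X]) := isUnit_C.2 hu1
  have hass : Associated A (C (C c⁻¹) * A) := by
    obtain ⟨u, hu⟩ := hu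
    exact ⟨u, by rw [hu, mul_comm]⟩
  refine ⟨C (C c⁻¹) * A, hass.irreducible hAp.irreducible, ?_, ?_, i, k, ?_⟩
  · rw [natDegree_C_mul hu1.ne_zero, hfin]
  · intro G
    rw [hdvd G, hass.dvd_iff_dvd_left]
  · rw [coeff_C_mul, coeff_C_mul, ← hc]
    exact inv_mul_cancel₀ hk

/-- a derivation which kills `X` and `Y` kills the coefficients of the normalised equation -/
theorem cE_eq_zero {A : κ[X][X]} (hA : A.natDegree ≠ 0) {Y : M}
    (hY : ∀ G : κ[X][X], aeval Y G = 0 ↔ A ∣ G) (h1 : ∃ i k, (A.coeff i).coeff k = 1)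
    {D₀ : Derivation ℤ κ κ} (D : Derivation ℤ M M)
    (hD : ∀ u : κ, D (algebraMap κ M u) = algebraMap κ M (D₀ u))
    (hDX : D (algebraMap κ[X] M X) = 0) (hDY : D Y = 0) : cE D₀ A = 0 := by
  have h2 := ev_chain (algebraMap κ M) D₀ D hD (algebraMap κ[X] M X) Y A
  rw [ev_aeval, ev_aeval, hDX, hDY, mul_zero, mul_zero, add_zero, add_zero, (hY A).2 dvd_rfl,
    map_zero] at h2
  obtain ⟨Q, hQ⟩ := (hY _).1 h2.symm
  have hcoef : ∀ n, (cE D₀ A).coeff n = mc D₀ (A.coeff n) := fun n => rfl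
  have hA0 : A ≠ 0 := by
    rintro rfl
    exact hA natDegree_zero
  have hd1 : (cE D₀ A).natDegree ≤ A.natDegree := by
    refine natDegree_le_iff_coeff_eq_zero.2 fun n hn => ?_
    rw [hcoef, coeff_eq_zero_of_natDegree_lt hn, map_zero]
  by_cases hQ0 : Q = 0
  · rw [hQ, hQ0, mul_zero]
  · exfalso
    rw [hQ, natDegree_mul hA0 hQ0] at hd1
    have hQd : Q.natDegree = 0 := by omega
    obtain ⟨q, rfl⟩ : ∃ q : κ[X], Q = C q := ⟨_, eq_C_of_natDegree_eq_zero hQd⟩
    have hq0 : q ≠ 0 := by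
      rintro rfl
      exact hQ0 C_0
    have hcoef2 : ∀ n, mc D₀ (A.coeff n) = A.coeff n * q := by
      intro n
      rw [← hcoef, hQ, coeff_mul_C]
    obtain ⟨i, k, hik⟩ := h1
    have hi : A.coeff i ≠ 0 := by
      intro h
      rw [h, coeff_zero] at hik
      exact zero_ne_one hik
    have hd2 : (mc D₀ (A.coeff i)).natDegree ≤ (A.coeff i).natDegree := by
      refine natDegree_le_iff_coeff_eq_zero.2 fun n hn => ?_
      rw [mc_coeff, coeff_eq_zero_of_natDegree_lt hn, map_zero]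
    rw [hcoef2, natDegree_mul hi hq0] at hd2
    have hqd : q.natDegree = 0 := by omega
    obtain ⟨r, rfl⟩ : ∃ r : κ, q = C r := ⟨_, eq_C_of_natDegree_eq_zero hqd⟩
    have h5 := congrArg (fun p : κ[X] => p.coeff k) (hcoef2 i)
    simp only [mc_coeff, coeff_mul_C] at h5
    rw [hik, Derivation.map_one_eq_zero, one_mul] at h5
    exact hq0 (by rw [← h5, C_0])

end

section

variable {κ M : Type*} [Field κ] [IsAlgClosed κ] [CharZero κ] [Field M] [Algebra κ M]
  [Algebra κ[X] M] [IsScalarTower κ κ[X] M]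
  [Algebra (RatFunc κ) M] [IsScalarTower κ[X] (RatFunc κ) M]
  [Algebra (Rinf κ) M] [IsScalarTower (Rinf κ) (RatFunc κ) M]
  [FiniteDimensional (RatFunc κ) M]

omit [IsAlgClosed κ] [CharZero κ] [Algebra (Rinf κ) M] [IsScalarTower (Rinf κ) (RatFunc κ) M]
  [FiniteDimensional (RatFunc κ) M] in
/-- the variable has no pole -/
theorem isPole_eq_zero {P : Place κ M →₀ ℤ} (hP : IsPole P) {w : Place κ M}
    (hw : w.1 (algebraMap κ[X] M X) ≤ 1) : P w = 0 := by
  rw [hP w, tL_eq, max_eq_left]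
  by_cases h : w.1 (algebraMap κ[X] M X) = 0
  · rw [h, log_zero]
  · rw [log_le_iff_le_exp h, exp_zero]
    exact hw

/-- **A derivation which kills `X` and `Y` preserves the functions with poles bounded by those of
`X`.** -/
theorem rr_of_kill {P : Place κ M →₀ ℤ} (hP : IsPole P) {Y : M}
    (hgen : IntermediateField.adjoin (RatFunc κ) {Y} = ⊤) {D₀ : Derivation ℤ κ κ}
    (D : Derivation ℤ M M) (hD : ∀ u : κ, D (algebraMap κ M u) = algebraMap κ M (D₀ u))
    (hDX : D (algebraMap κ[X] M X) = 0) (hDY : D Y = 0) {g : M} (hg : g ∈ rr P) :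
    D g ∈ rr P := by
  obtain ⟨A, hA1, hA2, hA3, hA4⟩ := exists_eq hgen
  have hdeg : A.natDegree ≠ 0 := by
    rw [hA2]
    exact Module.finrank_pos.ne'
  have hcE := cE_eq_zero hdeg hA3 hA4 D hD hDX hDY
  intro w
  have hgw : w.1 g ≤ exp (P w) := hg w
  rcases der_dich w hA1 hdeg hcE ((hA3 A).2 dvd_rfl) hgen D hD hDX with h | ⟨h1, -, h3⟩
  · exact (h g).trans hgw
  · rw [isPole_eq_zero hP h1, exp_zero] at hgw ⊢
    exact h3 g hgw

/-- **A derivation which kills `X` maps the functions with poles bounded by those of `X` to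
functions with poles bounded by `P + R`**, `R` the ramification divisor. -/
theorem rr_ram {P R : Place κ M →₀ ℤ} (hP : IsPole P)
    (hR : ∀ w : Place κ M, R w = ((ramIdx (RatFunc κ) w.1 - 1 : ℕ) : ℤ)) {D₀ : Derivation ℤ κ κ}
    (D : Derivation ℤ M M) (hD : ∀ u : κ, D (algebraMap κ M u) = algebraMap κ M (D₀ u))
    (hDX : D (algebraMap κ[X] M X) = 0) {g : M} (hg : g ∈ rr P) : D g ∈ rr (P + R) := by
  have htow : IsScalarTower κ (RatFunc κ) M := tower_ratFunc
  have hFF : Pool.Agent.Lib.MP_44a246_ntL.IsFF κ M := isFF_of_ratFunc κ M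
  have ht : Transcendental κ (algebraMap κ[X] M X) := by
    rw [← tL_eq]
    exact transcendental_tL
  obtain ⟨D', h1, h2⟩ := exists_der_ext ht (alg_over_adjoin hFF ht) 0 1
  intro w
  have hgw : w.1 g ≤ exp (P w) := hg w
  show w.1 (D g) ≤ exp ((P + R) w)
  rw [Finsupp.add_apply, hR w]
  rcases le_or_gt (w.1 (algebraMap κ[X] M X)) 1 with h | h
  · rw [isPole_eq_zero hP h, exp_zero] at hgw
    rw [isPole_eq_zero hP h, zero_add]
    exact der_place w D (fun u => ⟨D₀ u, hD u⟩) ⟨0, by rw [hDX, map_zero]⟩ hgw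
  · refine ((der_le_place w D D' hD hDX (fun u => ?_) h2 (Or.inl h) g).trans hgw).trans ?_
    · rw [h1 u]
      exact map_zero _
    · rw [exp_le_exp]
      exact le_add_of_nonneg_right (Int.natCast_nonneg _)

end

end Pool.Agent.Lib.MP_44a246_ntE
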