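import Mathlib
import Pool.Agent.Lib.MP_44a246_ntE.E04
import Pool.Agent.Lib.MP_44a246_ntE.E07

/-!
The number of parameters of a curve of given degree in a projective space.
-/

namespace Pool.Agent.Lib.MP_44a246_ntE

open Pool.Agent.Lib.MP_e52354_nt
open Pool.Agent.Lib.MP_44a246_nt
open Pool.Agent.Lib.MP_44a246_ntL
open Pool.Agent.Lib.MP_44a246_ntR
open Pool.Agent.Lib.MP_44a246_ntS
open WithZero Polynomial Module

/-- the kernel of a linear map on a subspace -/
theorem exists_ker {κ V N : Type*} [Field κ] [AddCommGroup V] [Module κ V] [FiniteDimensional κ V]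
    [AddCommGroup N] [Module κ N] (S : Submodule κ V) (f : V →ₗ[κ] N) {F : Submodule κ N}
    [FiniteDimensional κ F] (hf : ∀ c ∈ S, f c ∈ F) :
    finrank κ S ≤ finrank κ ↥(S ⊓ LinearMap.ker f) + finrank κ F := by
  let g : S →ₗ[κ] F := (f.comp S.subtype).codRestrict F fun c => hf c.1 c.2
  have h1 := LinearMap.finrank_range_add_finrank_ker g
  have h2 : finrank κ (LinearMap.range g) ≤ finrank κ F := Submodule.finrank_le _
  have h4 : (LinearMap.ker g).map S.subtype = S ⊓ LinearMap.ker f := by
    ext x
    constructor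
    · rintro ⟨y, hy, rfl⟩
      refine ⟨y.2, ?_⟩
      have h5 : g y = 0 := hy
      exact LinearMap.mem_ker.2 (congrArg Subtype.val h5)
    · rintro ⟨hx, hx2⟩
      refine ⟨⟨x, hx⟩, ?_, rfl⟩
      exact Subtype.ext (LinearMap.mem_ker.1 hx2)
  have h3 : finrank κ (LinearMap.ker g) = finrank κ ↥(S ⊓ LinearMap.ker f) := by
    rw [← h4]
    exact (Submodule.equivMapOfInjective S.subtype S.injective_subtype _).finrank_eq
  omega

section

variable {κ M : Type*} [Field κ] [IsAlgClosed κ] [CharZero κ] [Field M] [Algebra κ M]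
  [Algebra κ[X] M] [IsScalarTower κ κ[X] M]
  [Algebra (RatFunc κ) M] [IsScalarTower κ[X] (RatFunc κ) M]
  [Algebra (Rinf κ) M] [IsScalarTower (Rinf κ) (RatFunc κ) M]
  [FiniteDimensional (RatFunc κ) M]

/-- the combination of the derivations with the constant coefficients `c` -/
noncomputable def Dc {κ M T : Type*} [Field κ] [Field M] [Algebra κ M] [Fintype T]
    (D : T → Derivation ℤ M M) (c : T → κ) : Derivation ℤ M M :=
  ∑ t, algebraMap κ M (c t) • D t

theorem Dc_apply {κ M T : Type*} [Field κ] [Field M] [Algebra κ M] [Fintype T]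
    (D : T → Derivation ℤ M M) (c : T → κ) (y : M) :
    Dc D c y = ∑ t, algebraMap κ M (c t) * D t y := by
  have h1 : Dc D c y = Derivation.coeFnAddMonoidHom (∑ t, algebraMap κ M (c t) • D t) y := rfl
  rw [h1, map_sum, Finset.sum_apply]
  rfl

/-- evaluation at `y` is linear in the coefficients -/
private noncomputable def ev {κ M T : Type*} [Field κ] [Field M] [Algebra κ M] [Fintype T]
    (D : T → Derivation ℤ M M) (y : M) : (T → κ) →ₗ[κ] M where
  toFun c := Dc D c y
  map_add' a b := by
    rw [Dc_apply, Dc_apply, Dc_apply, ← Finset.sum_add_distrib]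
    refine Finset.sum_congr rfl fun t _ => ?_
    rw [Pi.add_apply, map_add]
    ring
  map_smul' r a := by
    rw [Dc_apply, Dc_apply, RingHom.id_apply, Finset.smul_sum]
    refine Finset.sum_congr rfl fun t _ => ?_
    rw [Pi.smul_apply, smul_eq_mul, map_mul, Algebra.smul_def, mul_assoc]

private theorem ev_apply {κ M T : Type*} [Field κ] [Field M] [Algebra κ M] [Fintype T]
    (D : T → Derivation ℤ M M) (y : M) (c : T → κ) : ev D y c = Dc D c y := rfl

/-- the combination of the derivations of the constants -/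
private noncomputable def Dz {κ T : Type*} [Field κ] [Fintype T]
    (D₀ : T → Derivation ℤ κ κ) (c : T → κ) : Derivation ℤ κ κ :=
  ∑ t, c t • D₀ t

private theorem Dz_apply {κ T : Type*} [Field κ] [Fintype T]
    (D₀ : T → Derivation ℤ κ κ) (c : T → κ) (u : κ) : Dz D₀ c u = ∑ t, c t * D₀ t u := by
  have h1 : Dz D₀ c u = Derivation.coeFnAddMonoidHom (∑ t, c t • D₀ t) u := rfl
  rw [h1, map_sum, Finset.sum_apply]
  rfl

private theorem Dc_algebraMap {κ M T : Type*} [Field κ] [Field M] [Algebra κ M] [Fintype T]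
    {D₀ : T → Derivation ℤ κ κ} {D : T → Derivation ℤ M M}
    (hD : ∀ t, ∀ u : κ, D t (algebraMap κ M u) = algebraMap κ M (D₀ t u)) (c : T → κ) (u : κ) :
    Dc D c (algebraMap κ M u) = algebraMap κ M (Dz D₀ c u) := by
  rw [Dc_apply, Dz_apply, map_sum]
  refine Finset.sum_congr rfl fun t _ => ?_
  rw [hD, map_mul]

/-- killing the elements of a finite family whose images are in a space of dimension at most `q` -/
private theorem kill_step {κ M T ι : Type*} [Field κ] [Field M] [Algebra κ M] [Fintype T]
    (D : T → Derivation ℤ M M) (z : ι → M) (F : Submodule κ M) [FiniteDimensional κ F] {q : ℕ}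
    (hq : finrank κ F ≤ q) (S : Submodule κ (T → κ)) (J : Finset ι)
    (h : ∀ c ∈ S, ∀ i ∈ J, Dc D c (z i) ∈ F) :
    ∃ S' ≤ S, finrank κ S ≤ finrank κ S' + J.card * q ∧ ∀ c ∈ S', ∀ i ∈ J, Dc D c (z i) = 0 := by
  classical
  induction J using Finset.induction_on with
  | empty => exact ⟨S, le_rfl, by simp, fun _ _ i hi => absurd hi (Finset.notMem_empty i)⟩
  | @insert i J hi ih =>
    obtain ⟨S', hS', h1, h2⟩ := ih fun c hc j hj => h c hc j (Finset.mem_insert_of_mem hj)
    have h3 := exists_ker S' (ev D (z i)) (F := F)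
      fun c hc => h c (hS' hc) i (Finset.mem_insert_self i J)
    refine ⟨S' ⊓ LinearMap.ker (ev D (z i)), inf_le_left.trans hS', ?_, ?_⟩
    · rw [Finset.card_insert_of_notMem hi, Nat.add_mul, Nat.one_mul]
      omega
    · intro c hc j hj
      rcases Finset.mem_insert.1 hj with rfl | hj
      · exact LinearMap.mem_ker.1 hc.2
      · exact h2 c hc.1 j hj

/-- an index set of a basis of the span which contains a given independent set -/
private theorem exists_idx {κ V ι : Type*} [Field κ] [AddCommGroup V] [Module κ V] [Fintype ι]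
    (z : ι → V) (J₀ : Finset ι) (h : LinearIndepOn κ z (J₀ : Set ι)) :
    ∃ I : Finset ι, J₀ ⊆ I ∧ (∃ a : ι → ι → κ, ∀ l, z l = ∑ i ∈ I, a l i • z i) ∧
      I.card = finrank κ (Submodule.span κ (Set.range z)) := by
  classical
  obtain ⟨b, -, hsb, hspan, hli⟩ := exists_linearIndepOn_extension h (Set.subset_univ _)
  have hb : b.Finite := Set.toFinite b
  have hbI : (hb.toFinset : Set ι) = b := hb.coe_toFinset
  have hsp : Submodule.span κ (z '' b) = Submodule.span κ (Set.range z) := by
    refine le_antisymm (Submodule.span_mono (Set.image_subset_range _ _)) ?_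
    rw [Submodule.span_le, ← Set.image_univ]
    exact hspan
  refine ⟨hb.toFinset, ?_, ?_, ?_⟩
  · intro i hi
    rw [Set.Finite.mem_toFinset]
    exact hsb (Finset.mem_coe.2 hi)
  · have h1 : ∀ l, ∃ c : ι → κ, ∑ i ∈ hb.toFinset, c i • z i = z l := by
      intro l
      have h2 : z l ∈ Submodule.span κ (z '' (hb.toFinset : Set ι)) := by
        rw [hbI, hsp]
        exact Submodule.subset_span ⟨l, rfl⟩
      exact (Submodule.mem_span_image_finset_iff_exists_fun' κ).1 h2
    choose a ha using h1
    exact ⟨a, fun l => (ha l).symm⟩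
  · have hfb : Fintype b := hb.fintype
    have h1 : LinearIndependent κ fun i : b => z i := hli
    have h2 := finrank_span_eq_card h1
    have h3 : Set.range (fun i : b => z i) = z '' b := by
      ext x
      constructor
      · rintro ⟨i, rfl⟩
        exact ⟨i, i.2, rfl⟩
      · rintro ⟨i, hi, rfl⟩
        exact ⟨⟨i, hi⟩, rfl⟩
    rw [h3, hsp] at h2
    rw [h2]
    exact Set.Finite.card_toFinset hb

variable (κ M) in
/-- the ramification divisor -/
private theorem exists_ramDiv' : ∃ R : Place κ M →₀ ℤ,
    (∀ w : Place κ M, R w = ((ramIdx (RatFunc κ) w.1 - 1 : ℕ) : ℤ)) ∧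
      divDeg R = ramDeg κ M (RatFunc κ) := by
  classical
  have htower : IsScalarTower κ (RatFunc κ) M := tower_ratFunc
  have hFF := isFF_of_ratFunc κ M
  have hfin : {v : Place κ M | ramIdx (RatFunc κ) v.1 ≠ 1}.Finite := hFF.ramIdx_finite
  have hs : ∀ v : Place κ M, ramIdx (RatFunc κ) v.1 - 1 ≠ 0 → v ∈ hfin.toFinset := by
    intro v hv
    rw [Set.Finite.mem_toFinset]
    intro h
    rw [h] at hv
    exact hv rfl
  refine ⟨Finsupp.onFinset hfin.toFinset (fun w => ((ramIdx (RatFunc κ) w.1 - 1 : ℕ) : ℤ))
    (fun v hv => hs v (by exact_mod_cast hv)), fun w => rfl, ?_⟩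
  unfold divDeg ramDeg
  rw [Finsupp.onFinset_sum _ (fun _ => rfl), finsum_eq_sum_of_support_subset (s := hfin.toFinset)]
  · push_cast
    rfl
  · intro v hv
    exact hs v hv

/-- **The number of parameters.** Let `z = (1, X, Y, ...)` be `r + 1` functions with poles bounded
by those of `X`, which generate `M` over `κ`, `m = [M : κ (X)]`, and `s + 1` the dimension of their
span `W`. For a finite family of derivations `D t` which extend derivations of `κ` and kill `X`,
there is a subspace `S` of the space of the combinations, of codimension at most `p`, whose elements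
kill all the `z l`, with `p = 2 (r - 1)` if `m = 1`, and
`p = (r - s) (s + 1) + (s - 2) (m + 1) + (m + Ram + 1)` otherwise. -/
theorem exists_kill {P : Place κ M →₀ ℤ} (hP : IsPole P) {R : ℕ} {z : Fin (R + 3) → M}
    (h0 : z 0 = 1) (h1 : z 1 = algebraMap κ[X] M X) (hz : ∀ l, z l ∈ rr P)
    (hgen : IntermediateField.adjoin (RatFunc κ) {z 2} = ⊤) {s : ℕ}
    (hs : finrank κ (Submodule.span κ (Set.range z)) = s + 1) {T : Type*} [Fintype T]
    {D₀ : T → Derivation ℤ κ κ} {D : T → Derivation ℤ M M}
    (hD : ∀ t, ∀ u : κ, D t (algebraMap κ M u) = algebraMap κ M (D₀ t u))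
    (hDX : ∀ t, D t (algebraMap κ[X] M X) = 0) :
    ∃ (S : Submodule κ (T → κ)) (p : ℕ), Fintype.card T ≤ finrank κ S + p ∧
      (∀ c ∈ S, ∀ l, Dc D c (z l) = 0) ∧
      ((finrank (RatFunc κ) M = 1 ∧ s = 1 ∧ p = 2 * (R + 1)) ∨
        (2 ≤ finrank (RatFunc κ) M ∧ 2 ≤ s ∧ s ≤ R + 2 ∧
          p = (R + 2 - s) * (s + 1) + (s - 2) * (finrank (RatFunc κ) M + 1) +
            (finrank (RatFunc κ) M + ramDeg κ M (RatFunc κ) + 1))) := by
  classical
  have htower : IsScalarTower κ (RatFunc κ) M := tower_ratFunc
  have hFF : IsFF κ M := isFF_of_ratFunc κ M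
  have hdeg : divDeg P = finrank (RatFunc κ) M := hP.deg
  set m := finrank (RatFunc κ) M with hm
  have hm1 : 1 ≤ m := Module.finrank_pos
  have hfinP : FiniteDimensional κ (rr P) := finite_rr hFF P
  have hrrP : finrank κ (rr P) ≤ m + 1 := by
    have h := finrank_rr_le_deg hFF (D := P) (by rw [hdeg]; omega)
    rw [hdeg] at h
    exact_mod_cast h
  have htL : tL κ M = z 1 := by rw [h1]; exact tL_eq
  have h01 : (0 : Fin (R + 3)) ≠ 1 := by
    intro h
    have := congrArg Fin.val h
    simp at this
  have hv2 : ((2 : Fin (R + 3)) : ℕ) = 2 := by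
    change 2 % (R + 3) = 2
    exact Nat.mod_eq_of_lt (by omega)
  have h02 : (0 : Fin (R + 3)) ≠ 2 := by
    intro h
    have := congrArg Fin.val h
    rw [hv2, Fin.val_zero] at this
    omega
  have h12 : (1 : Fin (R + 3)) ≠ 2 := by
    intro h
    have := congrArg Fin.val h
    rw [hv2, Fin.val_one] at this
    omega
  -- independence of `1`, `X`
  have htr : ∀ a b : κ, a • z 0 + b • z 1 = 0 → a = 0 ∧ b = 0 := by
    intro a b hab
    have h2 := (transcendental_iff.1 (transcendental_tL (κ := κ) (L := M)))
      (C a + C b * X) (by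
        rw [map_add, map_mul, aeval_C, aeval_C, aeval_X, htL, ← hab, h0, Algebra.smul_def,
          Algebra.smul_def, mul_one])
    constructor
    · have h3 := congrArg (fun q => coeff q 0) h2
      simpa using h3
    · have h3 := congrArg (fun q => coeff q 1) h2
      simpa using h3
  have hind2 : LinearIndepOn κ z ({0, 1} : Set (Fin (R + 3))) := by
    rw [linearIndepOn_pair_iff z h01 (by rw [h0]; exact one_ne_zero)]
    intro c hc
    have h3 := (htr c (-1) (by rw [hc, neg_one_smul, add_neg_cancel])).2
    exact one_ne_zero (neg_eq_zero.1 h3)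
  -- the conditions on the coefficients
  have hstepA : ∀ I : Finset (Fin (R + 3)), ∀ a : Fin (R + 3) → Fin (R + 3) → κ,
      (∀ l, z l = ∑ i ∈ I, a l i • z i) →
      ∃ S : Submodule κ (T → κ), Fintype.card T ≤ finrank κ S + (R + 3 - I.card) * I.card ∧
        ∀ c ∈ S, (∀ i ∈ I, Dc D c (z i) = 0) → ∀ l, Dc D c (z l) = 0 := by
    intro I a ha
    let fA : (T → κ) →ₗ[κ] (({l // l ∉ I} × I) → κ) :=
      { toFun := fun c p => Dz D₀ c (a p.1 p.2)
        map_add' := fun c c' => by
          funext p
          rw [Pi.add_apply, Dz_apply, Dz_apply, Dz_apply, ← Finset.sum_add_distrib]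
          refine Finset.sum_congr rfl fun t _ => ?_
          rw [Pi.add_apply]
          ring
        map_smul' := fun r c => by
          funext p
          rw [Pi.smul_apply, RingHom.id_apply, smul_eq_mul, Dz_apply, Dz_apply, Finset.mul_sum]
          refine Finset.sum_congr rfl fun t _ => ?_
          rw [Pi.smul_apply, smul_eq_mul]
          ring }
    have h3 := exists_ker (⊤ : Submodule κ (T → κ)) fA (F := ⊤) fun _ _ => trivial
    refine ⟨⊤ ⊓ LinearMap.ker fA, ?_, ?_⟩
    · rw [finrank_top, finrank_top, Module.finrank_fintype_fun_eq_card,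
        Module.finrank_fintype_fun_eq_card, Fintype.card_prod] at h3
      have h4 : Fintype.card {l // l ∉ I} = R + 3 - I.card := by
        rw [Fintype.card_subtype_compl, Fintype.card_fin, Fintype.card_coe]
      rw [h4, Fintype.card_coe] at h3
      exact h3
    · intro c hc hI l
      by_cases hl : l ∈ I
      · exact hI l hl
      · have hcA : ∀ i ∈ I, Dz D₀ c (a l i) = 0 := by
          intro i hi
          have h5 : fA c = 0 := LinearMap.mem_ker.1 hc.2
          exact congrFun h5 (⟨l, hl⟩, ⟨i, hi⟩)
        rw [ha l, map_sum]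
        refine Finset.sum_eq_zero fun i hi => ?_
        rw [Algebra.smul_def, Derivation.leibniz, hI i hi, smul_zero, zero_add,
          Dc_algebraMap hD, hcA i hi, map_zero, smul_zero]
  have hk0 : ∀ c : T → κ, Dc D c (z 0) = 0 := by
    intro c
    rw [h0, Derivation.map_one_eq_zero]
  have hk1 : ∀ c : T → κ, Dc D c (z 1) = 0 := by
    intro c
    rw [Dc_apply]
    refine Finset.sum_eq_zero fun t _ => ?_
    rw [h1, hDX, mul_zero]
  by_cases hm2 : m = 1
  · -- the rational case
    have hind : LinearIndepOn κ z (({0, 1} : Finset (Fin (R + 3))) : Set (Fin (R + 3))) := by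
      rw [Finset.coe_pair]
      exact hind2
    obtain ⟨I, hI0, ⟨a, ha⟩, hIc⟩ := exists_idx z {0, 1} hind
    have hI2 : 2 ≤ I.card := by
      have := Finset.card_le_card hI0
      rwa [Finset.card_pair h01] at this
    have hle : finrank κ (Submodule.span κ (Set.range z)) ≤ finrank κ (rr P) := by
      refine Submodule.finrank_mono ?_
      rw [Submodule.span_le]
      rintro _ ⟨l, rfl⟩
      exact hz l
    have hcard : I.card = 2 := by omega
    have hI : I = {0, 1} := by
      refine (Finset.eq_of_subset_of_card_le hI0 ?_).symm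
      rw [hcard, Finset.card_pair h01]
    obtain ⟨S, hS1, hS2⟩ := hstepA I a ha
    refine ⟨S, 2 * (R + 1), ?_, ?_, Or.inl ⟨hm2, by omega, rfl⟩⟩
    · rw [hcard] at hS1
      have h5 : (R + 3 - 2) * 2 = 2 * (R + 1) := by
        have : R + 3 - 2 = R + 1 := by omega
        rw [this]; ring
      omega
    · intro c hc
      refine hS2 c hc fun i hi => ?_
      rw [hI, Finset.mem_insert, Finset.mem_singleton] at hi
      rcases hi with rfl | rfl
      · exact hk0 c
      · exact hk1 c
  · -- the general case
    have hm2' : 2 ≤ m := by omega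
    have hind : LinearIndepOn κ z (({0, 1, 2} : Finset (Fin (R + 3))) : Set (Fin (R + 3))) := by
      have e : (({0, 1, 2} : Finset (Fin (R + 3))) : Set (Fin (R + 3))) = insert 2 {0, 1} := by
        ext i
        simp only [Finset.coe_insert, Finset.coe_singleton, Set.mem_insert_iff,
          Set.mem_singleton_iff]
        tauto
      rw [e]
      refine hind2.insert ?_
      rw [Set.image_pair, Submodule.mem_span_pair]
      rintro ⟨x, y, hxy⟩
      have h5 : z 2 ∈ (⊥ : IntermediateField (RatFunc κ) M) := by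
        rw [IntermediateField.mem_bot]
        refine ⟨algebraMap κ (RatFunc κ) x + algebraMap κ (RatFunc κ) y * RatFunc.X, ?_⟩
        rw [map_add, map_mul, ← IsScalarTower.algebraMap_apply,
          ← IsScalarTower.algebraMap_apply, ← hxy, h0, Algebra.smul_def, Algebra.smul_def,
          mul_one, ← htL]
        rfl
      have h6 := IntermediateField.adjoin_simple_eq_bot_iff.2 h5
      rw [hgen] at h6
      exact hm2 (IntermediateField.bot_eq_top_iff_finrank_eq_one.1 h6.symm)
    obtain ⟨I, hI0, ⟨a, ha⟩, hIc⟩ := exists_idx z {0, 1, 2} hind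
    have hc3 : ({0, 1, 2} : Finset (Fin (R + 3))).card = 3 := by
      rw [Finset.card_insert_of_notMem, Finset.card_pair h12]
      rw [Finset.mem_insert, Finset.mem_singleton]
      push Not
      exact ⟨h01, h02⟩
    have hI3 : 3 ≤ I.card := by
      have := Finset.card_le_card hI0
      rwa [hc3] at this
    have hIle : I.card ≤ R + 3 := by
      have := Finset.card_le_univ I
      rwa [Fintype.card_fin] at this
    obtain ⟨S, hS1, hS2⟩ := hstepA I a ha
    obtain ⟨R', hR', hR'deg⟩ := exists_ramDiv' κ M
    have hfinR : FiniteDimensional κ (rr (P + R')) := finite_rr hFF _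
    have hdegR : divDeg (P + R') = m + ramDeg κ M (RatFunc κ) := by
      rw [divDeg_add, hdeg, hR'deg]
    have hrrR : finrank κ (rr (P + R')) ≤ m + ramDeg κ M (RatFunc κ) + 1 := by
      have h := finrank_rr_le_deg hFF (D := P + R') (by rw [hdegR]; omega)
      rw [hdegR] at h
      exact_mod_cast h
    have hkX : ∀ c : T → κ, Dc D c (algebraMap κ[X] M X) = 0 := by
      intro c
      rw [← h1]
      exact hk1 c
    obtain ⟨SB, hSB0, hSB1, hSB2⟩ := kill_step D z (rr (P + R')) hrrR S {2} (by
      intro c _ i hi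
      rw [Finset.mem_singleton.1 hi]
      exact rr_ram hP hR' (Dc D c) (fun u => Dc_algebraMap hD c u) (hkX c) (hz 2))
    obtain ⟨SC, hSC0, hSC1, hSC2⟩ := kill_step D z (rr P) hrrP SB (I \ {0, 1, 2}) (by
      intro c hc i _
      exact rr_of_kill hP hgen (Dc D c) (fun u => Dc_algebraMap hD c u) (hkX c)
        (hSB2 c hc 2 (Finset.mem_singleton_self 2)) (hz i))
    refine ⟨SC, _, ?_, ?_, Or.inr ⟨hm2', by omega, by omega, rfl⟩⟩
    · rw [Finset.card_sdiff_of_subset hI0, hc3] at hSC1
      rw [Finset.card_singleton, one_mul] at hSB1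
      have e1 : I.card = s + 1 := by omega
      have e2 : I.card - 3 = s - 2 := by omega
      have e3 : R + 3 - I.card = R + 2 - s := by omega
      rw [e2] at hSC1
      rw [e3, e1] at hS1
      omega
    · intro c hc
      refine hS2 c (hSB0 (hSC0 hc)) fun i hi => ?_
      by_cases hi3 : i ∈ ({0, 1, 2} : Finset (Fin (R + 3)))
      · rw [Finset.mem_insert, Finset.mem_insert, Finset.mem_singleton] at hi3
        rcases hi3 with rfl | rfl | rfl
        · exact hk0 c
        · exact hk1 c
        · exact hSB2 c (hSC0 hc) 2 (Finset.mem_singleton_self 2)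
      · exact hSC2 c hc i (Finset.mem_sdiff.2 ⟨hi, hi3⟩)

end

end Pool.Agent.Lib.MP_44a246_ntE
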