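import Mathlib
import Pool.Agent.Lib.MP_44a246_nt.Prim
import Pool.Agent.Lib.MP_44a246_ntS.SR1b
import Pool.Agent.Lib.MP_44a246_ntR.GR1
import Pool.Agent.Lib.MP_44a246_ntR.GR5

/-!
Generic linear forms with natural coefficients.
-/

namespace Pool.Agent.Lib.MP_44a246_ntE

open Pool.Agent.Lib.MP_44a246_nt
open Pool.Agent.Lib.MP_44a246_ntL
open Pool.Agent.Lib.MP_44a246_ntS
open WithZero Module

/-- a nonzero vector is orthogonal to `(1, t, t ^ 2, ...)` for finitely many `t` only -/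
theorem finite_pow_zero {M : Type*} [Field M] [CharZero M] {n : ℕ} {v : Fin (n + 1) → M}
    (hv : v ≠ 0) : {t : ℕ | ∑ j : Fin (n + 1), ((t ^ (j : ℕ) : ℕ) : M) * v j = 0}.Finite := by
  -- as in `exists_forms`
  let P : Polynomial M := ∑ j : Fin (n + 1), Polynomial.C (v j) * Polynomial.X ^ (j : ℕ)
  have hP : P ≠ 0 := by
    obtain ⟨i, hi⟩ := Function.ne_iff.mp hv
    intro h0
    have h1 : P.coeff (i : ℕ) = v i := by
      simp only [P, Polynomial.finsetSum_coeff, Polynomial.coeff_C_mul, Polynomial.coeff_X_pow]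
      rw [Finset.sum_eq_single i]
      · simp
      · intro b _ hb
        have : (i : ℕ) ≠ (b : ℕ) := fun hh => hb (Fin.ext hh.symm)
        simp [this]
      · intro hh
        exact absurd (Finset.mem_univ i) hh
    rw [h0, Polynomial.coeff_zero] at h1
    exact hi h1.symm
  have h1 : {t : ℕ | ∑ j : Fin (n + 1), ((t ^ (j : ℕ) : ℕ) : M) * v j = 0} =
      (fun s : ℕ => (s : M)) ⁻¹' {a : M | P.IsRoot a} := by
    ext s
    simp only [Set.mem_preimage, Set.mem_ofPred_eq, Polynomial.IsRoot, P,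
      Polynomial.eval_finsetSum, Polynomial.eval_mul,
      Polynomial.eval_C, Polynomial.eval_pow, Polynomial.eval_X]
    have h2 : ∑ j : Fin (n + 1), ((s ^ (j : ℕ) : ℕ) : M) * v j =
        ∑ j : Fin (n + 1), v j * (s : M) ^ (j : ℕ) :=
      Finset.sum_congr rfl fun j _ => by push_cast; ring
    rw [h2]
  rw [h1]
  exact (Polynomial.finite_setOfPred_isRoot hP).preimage (Nat.cast_injective.injOn)

/-- the values at `(1, t, t ^ 2, ...)` generate the field for almost all `t` -/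
theorem finite_pow_gen {K M : Type*} [Field K] [CharZero K] [Field M] [Algebra K M]
    [FiniteDimensional K M] {n : ℕ} {q : Fin (n + 1) → M}
    (hq : IntermediateField.adjoin K (Set.range q) = ⊤) :
    {t : ℕ | IntermediateField.adjoin K {∑ j : Fin (n + 1), ((t ^ (j : ℕ) : ℕ) : M) * q j} ≠ ⊤}.Finite := by
  classical
  have hM : CharZero M := charZero_of_injective_algebraMap (algebraMap K M).injective
  let A := AlgebraicClosure M
  have hAc : CharZero A := charZero_of_injective_algebraMap (algebraMap M A).injective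
  have hA : ∀ y : M, ((minpoly K y).map (algebraMap K A)).Splits := fun y => IsAlgClosed.splits _
  have hfin : (⋃ r : {r : (M →ₐ[K] A) × (M →ₐ[K] A) // r.1 ≠ r.2},
      {t : ℕ | ∑ j : Fin (n + 1), ((t ^ (j : ℕ) : ℕ) : A) * (r.1.1 (q j) - r.1.2 (q j)) = 0}).Finite := by
    refine Set.finite_iUnion fun r => ?_
    refine finite_pow_zero (v := fun j => r.1.1 (q j) - r.1.2 (q j)) ?_
    intro h0
    apply r.2
    have h1 : ∀ j, r.1.1 (q j) = r.1.2 (q j) := fun j => sub_eq_zero.mp (congrFun h0 j)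
    have h2 : ∀ y ∈ IntermediateField.adjoin K (Set.range q), r.1.1 y = r.1.2 y := by
      intro y hy
      induction hy using IntermediateField.adjoin_induction with
      | mem y hy =>
        obtain ⟨i, rfl⟩ := hy
        exact h1 i
      | algebraMap c => rw [AlgHom.commutes, AlgHom.commutes]
      | add a b _ _ ha hb => rw [map_add, map_add, ha, hb]
      | inv a _ ha => rw [map_inv₀, map_inv₀, ha]
      | mul a b _ _ ha hb => rw [map_mul, map_mul, ha, hb]
    refine AlgHom.ext fun y => h2 y ?_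
    rw [hq]
    trivial
  refine hfin.subset fun t ht => ?_
  by_contra hcon
  apply ht
  rw [Field.primitive_element_iff_algHom_eq_of_eval' K A hA]
  intro φ ψ hφψ
  by_contra hne
  apply hcon
  rw [Set.mem_iUnion]
  refine ⟨⟨(φ, ψ), hne⟩, ?_⟩
  have h1 : φ (∑ j : Fin (n + 1), ((t ^ (j : ℕ) : ℕ) : M) * q j) =
      ψ (∑ j : Fin (n + 1), ((t ^ (j : ℕ) : ℕ) : M) * q j) := hφψ
  rw [map_sum, map_sum, ← sub_eq_zero, ← Finset.sum_sub_distrib] at h1
  show ∑ j : Fin (n + 1), ((t ^ (j : ℕ) : ℕ) : A) * (φ (q j) - ψ (q j)) = 0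
  rw [← h1]
  refine Finset.sum_congr rfl fun j _ => ?_
  rw [map_mul, map_mul, map_natCast, map_natCast]
  ring

/-- the linear form `∑ t ^ j X_j` -/
noncomputable def powForm (M : Type*) [Field M] (n t : ℕ) : (Fin (n + 1) → M) →ₗ[M] M :=
  ∑ j : Fin (n + 1), ((t ^ (j : ℕ) : ℕ) : M) • LinearMap.proj j

theorem powForm_apply {M : Type*} [Field M] {n : ℕ} (t : ℕ) (v : Fin (n + 1) → M) :
    powForm M n t v = ∑ j : Fin (n + 1), ((t ^ (j : ℕ) : ℕ) : M) * v j := by
  simp [powForm, LinearMap.sum_apply]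

theorem finite_not_drop {M : Type*} [Field M] [CharZero M] {n k : ℕ}
    (W : Submodule M (Fin (n + 1) → M)) (hW : finrank M W ≤ k + 1) :
    {t : ℕ | ¬ finrank M (W ⊓ LinearMap.ker (powForm M n t) : Submodule M _) ≤ k}.Finite := by
  rcases eq_or_ne W ⊥ with h0 | h0
  · have : {t : ℕ | ¬ finrank M (W ⊓ LinearMap.ker (powForm M n t) : Submodule M _) ≤ k} = ∅ := by
      ext t
      simp only [Set.mem_ofPred_eq, Set.mem_empty_iff_false, iff_false, not_not]
      rw [h0, bot_inf_eq, finrank_bot]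
      exact Nat.zero_le _
    rw [this]
    exact Set.finite_empty
  · obtain ⟨w, hw, hw0⟩ := Submodule.exists_mem_ne_zero_of_ne_bot h0
    refine (finite_pow_zero hw0).subset fun t ht => ?_
    by_contra hcon
    apply ht
    have h1 : W ⊓ LinearMap.ker (powForm M n t) < W := by
      refine lt_of_le_of_ne inf_le_left fun he => ?_
      have h2 : w ∈ W ⊓ LinearMap.ker (powForm M n t) := by rw [he]; exact hw
      have h3 : powForm M n t w = 0 := h2.2
      rw [powForm_apply] at h3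
      exact hcon h3
    have h2 := Submodule.finrank_lt_finrank_of_lt h1
    omega

theorem exists_rest {M : Type*} [Field M] [CharZero M] {n : ℕ} (R : ℕ) :
    ∀ W : Submodule M (Fin (n + 1) → M), finrank M W ≤ R →
      ∃ t : Fin R → ℕ, ∀ v ∈ W, (∀ l, powForm M n (t l) v = 0) → v = 0 := by
  induction R with
  | zero =>
    intro W hW
    refine ⟨fun l => 0, fun v hv _ => ?_⟩
    have h1 : W = ⊥ := Submodule.finrank_eq_zero.mp (Nat.le_zero.mp hW)
    rw [h1] at hv
    exact (Submodule.mem_bot M).mp hv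
  | succ R ih =>
    intro W hW
    obtain ⟨t₀, ht₀⟩ := (finite_not_drop W hW).exists_notMem
    simp only [Set.mem_ofPred_eq, not_not] at ht₀
    obtain ⟨t, ht⟩ := ih _ ht₀
    refine ⟨Fin.cons t₀ t, fun v hv h => ?_⟩
    refine ht v ⟨hv, ?_⟩ fun l => ?_
    · have := h 0
      rwa [Fin.cons_zero] at this
    · have := h l.succ
      rwa [Fin.cons_succ] at this

section

variable {κ M : Type*} [Field κ] [IsAlgClosed κ] [CharZero κ] [Field M] [Algebra κ M]

/-- **Generic linear forms.** -/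
theorem exists_lin_forms (hM : IsFF κ M) {n R : ℕ} {γ : Fin (n + 1) → M} (hγ : γ ≠ 0)
    (hgen : pointField κ γ = ⊤) {T : Submodule M (Fin (n + 1) → M)} (hT : finrank M T ≤ R + 3) :
    ∃ u : Fin (R + 3) → Fin (n + 1) → ℕ, ∑ j, (u 0 j : M) * γ j ≠ 0 ∧
      (∀ w : Place κ M, vmax w.1 γ ≤
        max (w.1 (∑ j, (u 0 j : M) * γ j)) (w.1 (∑ j, (u 1 j : M) * γ j))) ∧
      Transcendental κ ((∑ j, (u 1 j : M) * γ j) / ∑ j, (u 0 j : M) * γ j) ∧
      IntermediateField.adjoin κ {(∑ j, (u 1 j : M) * γ j) / ∑ j, (u 0 j : M) * γ j,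
        (∑ j, (u 2 j : M) * γ j) / ∑ j, (u 0 j : M) * γ j} = ⊤ ∧
      ∀ v ∈ T, (∀ l, ∑ j, (u l j : M) * v j = 0) → v = 0 := by
  classical
  have hMc : CharZero M := charZero_of_injective_algebraMap (algebraMap κ M).injective
  -- `t 0`
  obtain ⟨t₀, ht₀⟩ := ((finite_pow_zero hγ).union (finite_not_drop T hT)).exists_notMem
  simp only [Set.mem_union, Set.mem_ofPred_eq, not_or, not_not] at ht₀
  obtain ⟨hω₀, hT₀⟩ := ht₀
  set ω₀ : M := ∑ j : Fin (n + 1), ((t₀ ^ (j : ℕ) : ℕ) : M) * γ j with hω₀d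
  -- `t 1`
  have hbad : ({w : Place κ M | w.1 ω₀ ≠ 1} ∪ {w : Place κ M | vmax w.1 γ ≠ 1}).Finite :=
    (hM.place_finite hω₀).union (hM.vmax_finite hγ)
  have hfin2 : (⋃ w ∈ {w : Place κ M | w.1 ω₀ ≠ 1} ∪ {w : Place κ M | vmax w.1 γ ≠ 1},
      {t : ℕ | w.1 (∑ j : Fin (n + 1), ((t ^ (j : ℕ) : ℕ) : M) * γ j) ≠ vmax w.1 γ}).Finite :=
    hbad.biUnion fun w _ => finite_bad hM hγ w
  obtain ⟨t₁, ht₁⟩ := (hfin2.union (finite_not_drop _ hT₀)).exists_notMem
  rw [Set.mem_union, not_or] at ht₁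
  obtain ⟨ht₁, hT₁⟩ := ht₁
  simp only [Set.mem_ofPred_eq, not_not] at hT₁
  set ω₁ : M := ∑ j : Fin (n + 1), ((t₁ ^ (j : ℕ) : ℕ) : M) * γ j with hω₁d
  have hmax : ∀ w : Place κ M, vmax w.1 γ ≤ max (w.1 ω₀) (w.1 ω₁) := by
    intro w
    by_cases hw : w ∈ {w : Place κ M | w.1 ω₀ ≠ 1} ∪ {w : Place κ M | vmax w.1 γ ≠ 1}
    · have h1 : w.1 ω₁ = vmax w.1 γ := by
        by_contra hne
        exact ht₁ (Set.mem_biUnion hw hne)
      rw [← h1]
      exact le_max_right _ _
    · simp only [Set.mem_union, Set.mem_ofPred_eq, not_or, not_not] at hw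
      have h2 : vmax w.1 γ ≤ w.1 ω₀ := by rw [hw.2]; exact hw.1.ge
      exact h2.trans (le_max_left _ _)
  -- transcendence
  have hX : Transcendental κ (ω₁ / ω₀) := by
    intro halg
    obtain ⟨c, hc⟩ : ∃ c : κ, algebraMap κ M c = ω₁ / ω₀ := by
      have h1 : IsIntegral κ (ω₁ / ω₀) := halg.isIntegral
      have h2 := IsAlgClosed.degree_eq_one_of_irreducible κ (minpoly.irreducible h1)
      exact minpoly.mem_range_of_degree_eq_one κ _ h2
    have hle : ∀ w : Place κ M, vmax w.1 γ ≤ w.1 ω₀ := by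
      intro w
      refine (hmax w).trans (max_le le_rfl ?_)
      have h1 : ω₁ = algebraMap κ M c * ω₀ := by rw [hc, div_mul_cancel₀ _ hω₀]
      rw [h1, map_mul]
      rcases eq_or_ne c 0 with h0 | h0
      · rw [h0, map_zero, map_zero, zero_mul]
        exact zero_le
      · rw [w.2.2 c h0, one_mul]
    have hconst : ∀ j, ∃ a : κ, algebraMap κ M a = γ j / ω₀ := by
      intro j
      refine Pool.Agent.Lib.MP_44a246_ntR.const_of_rr_zero hM fun w => ?_
      rw [map_div₀]
      exact div_le_one_of_le₀ ((le_vmax w.1 γ j).trans (hle w)) zero_le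
    have hbot : pointField κ γ ≤ ⊥ := by
      unfold pointField
      rw [IntermediateField.adjoin_le_iff]
      rintro z ⟨i, j, rfl⟩
      obtain ⟨a, ha⟩ := hconst i
      obtain ⟨b, hb⟩ := hconst j
      have h1 : γ i / γ j = (γ i / ω₀) / (γ j / ω₀) := by
        rw [div_div_div_cancel_right₀ hω₀]
      rw [h1, ← ha, ← hb, ← map_div₀]
      exact IntermediateField.algebraMap_mem _ _
    rw [hgen] at hbot
    obtain ⟨s, hs, -⟩ := hM
    have h1 : s ∈ (⊥ : IntermediateField κ M) := hbot trivial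
    rw [IntermediateField.mem_bot] at h1
    obtain ⟨a, ha⟩ := h1
    exact hs (ha ▸ isAlgebraic_algebraMap a)
  -- `t 2`
  let K := IntermediateField.adjoin κ {ω₁ / ω₀}
  have hfd : FiniteDimensional K M := Pool.Agent.Lib.MP_44a246_ntR.finite_over_adjoin hM hX
  have hKc : CharZero K := charZero_of_injective_algebraMap (algebraMap κ K).injective
  have hq : IntermediateField.adjoin K (Set.range fun j => γ j / ω₀) = ⊤ := by
    rw [eq_top_iff]
    intro z _
    have h1 : z ∈ pointField κ γ := by rw [hgen]; trivial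
    unfold pointField at h1
    have h2 : IntermediateField.adjoin κ {z : M | ∃ i j, z = γ i / γ j} ≤
        (IntermediateField.adjoin K (Set.range fun j => γ j / ω₀)).restrictScalars κ := by
      rw [IntermediateField.adjoin_le_iff]
      rintro z ⟨i, j, rfl⟩
      have h3 : γ i / γ j = (γ i / ω₀) / (γ j / ω₀) := by
        rw [div_div_div_cancel_right₀ hω₀]
      rw [h3]
      refine div_mem ?_ ?_
      · exact IntermediateField.subset_adjoin K _ ⟨i, rfl⟩
      · exact IntermediateField.subset_adjoin K _ ⟨j, rfl⟩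
    exact h2 h1
  obtain ⟨t₂, ht₂⟩ := ((finite_pow_gen hq).union (finite_not_drop _ hT₁)).exists_notMem
  simp only [Set.mem_union, Set.mem_ofPred_eq, not_or, not_not] at ht₂
  obtain ⟨hY, hT₂⟩ := ht₂
  obtain ⟨t', ht'⟩ := exists_rest R _ hT₂
  let t : Fin (R + 3) → ℕ := Fin.cons t₀ (Fin.cons t₁ (Fin.cons t₂ t'))
  refine ⟨fun l j => t l ^ (j : ℕ), ?_, ?_, ?_, ?_, ?_⟩
  · exact hω₀
  · exact hmax
  · exact hX
  · have h1 : (∑ j : Fin (n + 1), ((t₂ ^ (j : ℕ) : ℕ) : M) * γ j) / ω₀ =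
        ∑ j : Fin (n + 1), ((t₂ ^ (j : ℕ) : ℕ) : M) * (γ j / ω₀) := by
      rw [Finset.sum_div]
      exact Finset.sum_congr rfl fun j _ => by rw [mul_div_assoc]
    show IntermediateField.adjoin κ {ω₁ / ω₀,
      (∑ j : Fin (n + 1), ((t₂ ^ (j : ℕ) : ℕ) : M) * γ j) / ω₀} = ⊤
    rw [h1]
    have h2 := IntermediateField.adjoin_adjoin_left κ {ω₁ / ω₀}
      {∑ j : Fin (n + 1), ((t₂ ^ (j : ℕ) : ℕ) : M) * (γ j / ω₀)}
    rw [Set.singleton_union] at h2
    rw [← h2, hY]
    rfl
  · intro v hv h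
    refine ht' v ⟨⟨⟨hv, ?_⟩, ?_⟩, ?_⟩ fun l => ?_
    · show powForm M n t₀ v = 0
      rw [powForm_apply]
      exact h 0
    · show powForm M n t₁ v = 0
      rw [powForm_apply]
      exact h 1
    · show powForm M n t₂ v = 0
      rw [powForm_apply]
      exact h 2
    · rw [powForm_apply]
      exact h l.succ.succ.succ

end

end Pool.Agent.Lib.MP_44a246_ntE
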