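import Mathlib
import Pool.Agent.Lib.MP_44a246_ntE.E06
import Pool.Agent.Lib.MP_44a246_ntE.E08
import Pool.Agent.Lib.MP_44a246_ntR.GR5

/-!
Parameters and conditions for a curve in projective space: the statement without a chosen structure
of an extension of the field of rational functions.
-/

namespace Pool.Agent.Lib.MP_44a246_ntE

open Pool.Agent.Lib.MP_e52354_nt
open Pool.Agent.Lib.MP_44a246_nt
open Pool.Agent.Lib.MP_44a246_ntL
open Pool.Agent.Lib.MP_44a246_ntR
open Pool.Agent.Lib.MP_44a246_ntS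
open WithZero Polynomial Module

variable {κ M : Type*} [Field κ] [IsAlgClosed κ] [CharZero κ] [Field M] [Algebra κ M]

/-- all the structures for a given separating element -/
theorem with_sep (hM : IsFF κ M) {f : M} (hf : Transcendental κ f) {P : Prop}
    (h : ∀ (_ : Algebra κ[X] M) (_ : IsScalarTower κ κ[X] M) (_ : Algebra (RatFunc κ) M)
      (_ : IsScalarTower κ[X] (RatFunc κ) M) (_ : Algebra (Rinf κ) M)
      (_ : IsScalarTower (Rinf κ) (RatFunc κ) M) (_ : FiniteDimensional (RatFunc κ) M),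
      algebraMap κ[X] M X = f → P) : P := by
  -- `with_ratFunc` (GR5), compositions with `algebraMap (RatFunc κ) M`
  refine with_ratFunc hM hf ?_
  intro i1 i2 i3 hXf
  let a1 : Algebra κ[X] M :=
    ((algebraMap (RatFunc κ) M).comp (algebraMap κ[X] (RatFunc κ))).toAlgebra
  have t1 : IsScalarTower κ[X] (RatFunc κ) M := IsScalarTower.of_algebraMap_eq fun _ => rfl
  have t2 : IsScalarTower κ κ[X] M := IsScalarTower.of_algebraMap_eq fun u => by
    rw [IsScalarTower.algebraMap_apply κ (RatFunc κ) M u,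
      IsScalarTower.algebraMap_apply κ κ[X] (RatFunc κ) u]
    rfl
  let a2 : Algebra (Rinf κ) M :=
    ((algebraMap (RatFunc κ) M).comp (algebraMap (Rinf κ) (RatFunc κ))).toAlgebra
  have t3 : IsScalarTower (Rinf κ) (RatFunc κ) M := IsScalarTower.of_algebraMap_eq fun _ => rfl
  refine h a1 t2 i1 t1 a2 t3 i3 ?_
  rw [← hXf]
  change algebraMap (RatFunc κ) M (algebraMap κ[X] (RatFunc κ) X) = _
  rw [RatFunc.algebraMap_X]

omit [IsAlgClosed κ] [CharZero κ] in
/-- the field generated by `X, Y` over `κ` is generated by `Y` over `κ (X)` -/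
private theorem e10_gen [Algebra (RatFunc κ) M] [IsScalarTower κ (RatFunc κ) M] {X Y : M}
    (hX : tL κ M = X) (hgen : IntermediateField.adjoin κ {X, Y} = ⊤) :
    IntermediateField.adjoin (RatFunc κ) {Y} = ⊤ := by
  rw [eq_top_iff]
  intro x _
  have h1 : x ∈ IntermediateField.adjoin κ {X, Y} := by
    rw [hgen]
    exact IntermediateField.mem_top
  have h2 : IntermediateField.adjoin κ {X, Y} ≤
      (IntermediateField.adjoin (RatFunc κ) {Y}).restrictScalars κ := by
    rw [IntermediateField.adjoin_le_iff]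
    rintro y (rfl | hy)
    · change _ ∈ IntermediateField.adjoin (RatFunc κ) {Y}
      rw [← hX]
      exact (IntermediateField.adjoin (RatFunc κ) {Y}).algebraMap_mem _
    · change y ∈ IntermediateField.adjoin (RatFunc κ) {Y}
      exact IntermediateField.subset_adjoin (RatFunc κ) {Y} hy
  exact h2 h1

/-- the dehomogenised form -/
private noncomputable def e10_G {κ : Type*} [Field κ] (P : MvPolynomial (Fin 3) κ) : κ[X][X] :=
  ∑ I ∈ P.support, monomial (I 2) (monomial (I 1) (P.coeff I))

private theorem e10_G_eval {κ M : Type*} [Field κ] [Field M] [Algebra κ M] [Algebra κ[X] M]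
    [IsScalarTower κ κ[X] M] (P : MvPolynomial (Fin 3) κ) {X' Y : M}
    (hX : algebraMap κ[X] M X = X') :
    aeval Y (e10_G P) = MvPolynomial.aeval ![1, X', Y] P := by
  conv_rhs => rw [P.as_sum]
  unfold e10_G
  rw [map_sum, map_sum]
  refine Finset.sum_congr rfl fun I _ => ?_
  rw [aeval_monomial, MvPolynomial.aeval_monomial, Finsupp.prod_fintype _ _ (fun i => pow_zero _),
    Fin.prod_univ_three]
  have h1 : algebraMap κ[X] M (monomial (I 1) (P.coeff I)) =
      algebraMap κ M (P.coeff I) * X' ^ (I 1) := by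
    rw [← C_mul_X_pow_eq_monomial, map_mul, map_pow, hX, IsScalarTower.algebraMap_apply κ κ[X] M]
    rfl
  rw [h1]
  simp [mul_assoc]

private theorem e10_G_ne {κ : Type*} [Field κ] {P : MvPolynomial (Fin 3) κ} {D : ℕ} (hP0 : P ≠ 0)
    (hP : P.IsHomogeneous D) : e10_G P ≠ 0 := by
  obtain ⟨I, hI⟩ := MvPolynomial.support_nonempty.2 hP0
  have hdeg : ∀ K ∈ P.support, K 0 + K 1 + K 2 = D := by
    intro K hK
    have h1 := hP (MvPolynomial.mem_support_iff.1 hK)
    rw [Finsupp.weight_apply, Finsupp.sum_fintype _ _ (fun i => by simp), Fin.sum_univ_three] at h1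
    simpa using h1
  intro h
  have h1 : ((e10_G P).coeff (I 2)).coeff (I 1) = P.coeff I := by
    unfold e10_G
    rw [finsetSum_coeff, finsetSum_coeff, Finset.sum_eq_single I]
    · rw [coeff_monomial, if_pos rfl, coeff_monomial, if_pos rfl]
    · intro K hK hKI
      rw [coeff_monomial]
      split_ifs with h2
      · rw [coeff_monomial]
        split_ifs with h3
        · exfalso
          apply hKI
          have h4 := hdeg K hK
          have h5 := hdeg I hI
          ext i
          fin_cases i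
          · change K 0 = I 0
            omega
          · exact h3
          · exact h2
        · rfl
      · rw [coeff_zero]
    · intro h2
      exact absurd hI h2
  rw [h, coeff_zero, coeff_zero] at h1
  exact MvPolynomial.mem_support_iff.1 hI h1.symm

private theorem e10_G_deg {κ : Type*} [Field κ] {P : MvPolynomial (Fin 3) κ} {D : ℕ}
    (hP : P.IsHomogeneous D) : (e10_G P).natDegree ≤ D := by
  unfold e10_G
  refine natDegree_sum_le_of_forall_le _ _ fun K hK => ?_
  refine (natDegree_monomial_le _).trans ?_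
  have h1 := hP (MvPolynomial.mem_support_iff.1 hK)
  rw [Finsupp.weight_apply, Finsupp.sum_fintype _ _ (fun i => by simp), Fin.sum_univ_three] at h1
  simp at h1
  omega

/-- the degree of the field of functions of a plane curve -/
theorem degree_le_form (hM : IsFF κ M) {X Y : M} (hX : Transcendental κ X)
    (hgen : IntermediateField.adjoin κ {X, Y} = ⊤) {D : ℕ} {P : MvPolynomial (Fin 3) κ}
    (hP0 : P ≠ 0) (hP : P.IsHomogeneous D) (h0 : MvPolynomial.aeval ![1, X, Y] P = 0) :
    height κ ![1, X] ≤ D := by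
  -- `with_sep` for `X`, `finrank_eq_height` (GR3): `[M : κ (X)] = height κ ![1, X]`;
  -- `P (1, X, T)` is a nonzero polynomial in `T` over `κ (X)` of degree at most `D` with the
  -- root `Y`, and `M = κ (X) (Y)`
  refine with_sep hM hX ?_
  intro iA t1 iR t2 iI t3 fd hXf
  have htower : IsScalarTower κ (RatFunc κ) M := tower_ratFunc
  have htL : tL κ M = X := by rw [tL_eq, hXf]
  have h1 := finrank_eq_height κ M
  rw [htL] at h1
  rw [← h1]
  obtain ⟨A, hAirr, hAdeg, hA, _⟩ := exists_eq (e10_gen htL hgen)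
  have h2 : aeval Y (e10_G P) = 0 := by rw [e10_G_eval P hXf, h0]
  have h3 := natDegree_le_of_dvd ((hA _).1 h2) (e10_G_ne hP0 hP)
  rw [hAdeg] at h3
  exact_mod_cast h3.trans (e10_G_deg hP)

omit [IsAlgClosed κ] [CharZero κ] in
/-- the value of an element of the span -/
private theorem e10_vmax (v : Place κ M) {n : ℕ} {γ : Fin (n + 1) → M} {x : M}
    (hx : x ∈ Submodule.span κ (Set.range γ)) : v.1 x ≤ vmax v.1 γ := by
  induction hx using Submodule.span_induction with
  | mem x h =>
    obtain ⟨i, rfl⟩ := h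
    exact Finset.le_sup (f := fun i => v.1 (γ i)) (Finset.mem_univ i)
  | zero =>
    rw [map_zero]
    exact zero_le
  | add x y _ _ hx hy => exact (v.1.map_add x y).trans (max_le hx hy)
  | smul c x _ hx =>
    rw [Algebra.smul_def, map_mul]
    rcases eq_or_ne c 0 with h | h
    · rw [h, map_zero, map_zero, zero_mul]
      exact zero_le
    · rw [v.2.2 c h, one_mul]
      exact hx

omit [IsAlgClosed κ] [CharZero κ] in
/-- products of elements of a Riemann-Roch space -/
private theorem e10_pow_le {P : Place κ M →₀ ℤ} {W : Submodule κ M} (hW : W ≤ rr P) (k : ℕ) :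
    W ^ k ≤ rr (k • P) := by
  induction k with
  | zero =>
    rw [pow_zero, Submodule.one_le]
    intro v
    rw [map_one, zero_nsmul, Finsupp.zero_apply, exp_zero]
  | succ k ih =>
    rw [pow_succ, Submodule.mul_le]
    intro a ha b hb v
    have h1 := ih ha v
    have h2 := hW hb v
    rw [map_mul, succ_nsmul, Finsupp.add_apply, exp_add]
    exact mul_le_mul' h1 h2

/-- **Parameters and conditions.** Let `z = (1, X, Y, ...)` be `R + 3` elements of the span `W` of
the `γ j` which generate `M`, and let `X` have the poles of `γ`; `m = [M : κ (X)]`. -/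
theorem count_ff (hM : IsFF κ M) {n R : ℕ} {γ : Fin (n + 1) → M} {z : Fin (R + 3) → M}
    (hz : ∀ l, z l ∈ Submodule.span κ (Set.range γ)) (h0 : z 0 = 1)
    (hX : Transcendental κ (z 1))
    (hmax : ∀ w : Place κ M, vmax w.1 γ ≤ max 1 (w.1 (z 1)))
    (hgen : IntermediateField.adjoin κ {z 1, z 2} = ⊤) {T : Type*} [Fintype T]
    {D₀ : T → Derivation ℤ κ κ} {D : T → Derivation ℤ M M}
    (hD : ∀ t, ∀ u : κ, D t (algebraMap κ M u) = algebraMap κ M (D₀ t u))
    (hDX : ∀ t, D t (z 1) = 0) :
    ∃ (S : Submodule κ (T → κ)) (m p J s : ℕ), height κ ![1, z 1] = m ∧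
      Fintype.card T ≤ finrank κ S + p ∧ (∀ c ∈ S, ∀ l, Dc D c (z l) = 0) ∧
      (∀ d, m ≤ d →
        m * (d + 1) ≤ finrank κ ↥(Submodule.span κ (Set.range γ) ^ d) + J) ∧
      ((m = 1 ∧ J = 0 ∧ p = 2 * (R + 1)) ∨
        (2 ≤ m ∧ 2 ≤ s ∧ s ≤ R + 2 ∧
          p ≤ (R + 2 - s) * (s + 1) + (s - 2) * (m + 1) + (m + 2 * J + 1) ∧
          ((2 * s ≤ m ∧ 2 * J = m * (m - 1)) ∨ (m < 2 * s ∧ s ≤ m ∧ J + s + 1 ≤ 2 * m)))) := by
  -- `with_sep` for `z 1`; `P` from `exists_pole`; `z l ∈ rr P` because
  -- `w (z l) ≤ vmax w γ ≤ max 1 (w X)`; `exists_adapted` and `finrank_pow_ge` for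
  -- `W' = span (range z) ≤ span (range γ)` (`Submodule.pow_le_pow_left`, monotonicity of
  -- `finrank`), `exists_kill`, `ramDeg_le_basis` (`W' ^ j ≤ rr (j • P)`)
  classical
  refine with_sep hM hX ?_
  intro iA t1 iR t2 iI t3 fd hXf
  have htower : IsScalarTower κ (RatFunc κ) M := tower_ratFunc
  have htL : tL κ M = z 1 := by rw [tL_eq, hXf]
  obtain ⟨P, hP⟩ := exists_pole κ M
  have hzP : ∀ l, z l ∈ rr P := by
    intro l v
    have h1 : v.1 (z l) ≤ vmax v.1 γ := e10_vmax v (hz l)
    refine (h1.trans (hmax v)).trans (max_le ?_ ?_)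
    · rw [← exp_zero, exp_le_exp]
      exact hP.nonneg v
    · refine le_exp_log.trans ?_
      rw [exp_le_exp, hP v, htL]
      exact le_max_right _ _
  have hgen' := e10_gen htL hgen
  obtain ⟨W, hW⟩ : ∃ W : Submodule κ M, W = Submodule.span κ (Set.range z) := ⟨_, rfl⟩
  have hzW : ∀ l, z l ∈ W := fun l => by
    rw [hW]
    exact Submodule.subset_span ⟨l, rfl⟩
  have hWP : W ≤ rr P := by
    rw [hW, Submodule.span_le]
    rintro _ ⟨l, rfl⟩
    exact hzP l
  have hWγ : W ≤ Submodule.span κ (Set.range γ) := by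
    rw [hW, Submodule.span_le]
    rintro _ ⟨l, rfl⟩
    exact hz l
  have hWf : FiniteDimensional κ W := by
    rw [hW]
    exact FiniteDimensional.span_of_finite _ (Set.finite_range z)
  have h1W : (1 : M) ∈ W := h0 ▸ hzW 0
  have htW : tL κ M ∈ W := by
    rw [htL]
    exact hzW 1
  obtain ⟨s, hs⟩ : ∃ s, finrank κ W = s + 1 := by
    refine ⟨finrank κ W - 1, ?_⟩
    have h2 : 0 < finrank κ W := by
      rw [Module.finrank_pos_iff_exists_ne_zero]
      refine ⟨⟨1, h1W⟩, fun h => ?_⟩
      exact one_ne_zero (congrArg Subtype.val h)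
    omega
  obtain ⟨f, j, hf, hfj, hjm, hcase⟩ := exists_adapted hP h1W htW (hzW 2) hWP hgen' hs
  obtain ⟨S, p, hp1, hp2, hp3⟩ := exists_kill hP h0 hXf.symm hzP hgen' (by rw [← hW, hs]) hD
    (fun t => by rw [hXf]; exact hDX t)
  have hram := ramDeg_le_basis hP hf (fun i => e10_pow_le hWP (j i) (hfj i))
  have hram' : ramDeg κ M (RatFunc κ) ≤ 2 * ∑ i, j i := by exact_mod_cast hram
  refine ⟨S, finrank (RatFunc κ) M, p, ∑ i, j i, s, ?_, hp1, hp2, ?_, ?_⟩
  · rw [finrank_eq_height κ M, htL]
  · intro d hd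
    have h2 := finrank_pow_ge hP h1W htW hf hfj (d := d) fun i => (hjm i).le.trans hd
    have h3 : FiniteDimensional κ ↥(Submodule.span κ (Set.range γ) ^ d) := by
      have h4 : (Submodule.span κ (Set.range γ)).FG :=
        Submodule.fg_span (Set.finite_range γ)
      exact Module.Finite.iff_fg.2 (h4.pow d)
    have h5 : finrank κ ↥(W ^ d) ≤ finrank κ ↥(Submodule.span κ (Set.range γ) ^ d) :=
      Submodule.finrank_mono (pow_le_pow_left' hWγ d)
    omega
  · rcases hp3 with ⟨hm, hs1, hp⟩ | ⟨hm, hs1, hs2, hp⟩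
    · left
      refine ⟨hm, ?_, hp⟩
      rcases hcase with ⟨h2, h3⟩ | ⟨h2, h3, h4⟩
      · omega
      · omega
    · right
      refine ⟨hm, hs1, hs2, ?_, hcase⟩
      rw [hp]
      omega

end Pool.Agent.Lib.MP_44a246_ntE
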