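import Mathlib
import Pool.Agent.Lib.MP_44a246_ntS.SP8

/-!
A derivation which does not move the curve moves its point only along the curve.
-/

namespace Pool.Agent.Lib.MP_44a246_ntE

open Pool.Agent.Lib.MP_44a246_ntS
open Polynomial Module

variable {κ : Type*} [Field κ]

/-- If the vectors `B`, `∂ B / ∂ X`, `δ B` (tangent vector fields of the curve) are dependent at the
point, then `δ x` is a combination of `x` and of the tangent vector `v`. -/
theorem der_x_mem {n : ℕ} {A : κ[X][X]} {Bv : Fin n → κ[X][X]} {ξ₀ ξ₁ x : Fin n → κ}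
    {y₁ y β : κ} (hA : A.evalEval y₁ y = 0) (hAY : (derivative A).evalEval y₁ y ≠ 0)
    (hβ : β ≠ 0) (hB : ∀ j, β * x j = (Bv j).evalEval y₁ y)
    (h0 : A ∣ ∑ j, C (C (ξ₀ j)) * Bv j - derivative A)
    (h1 : A ∣ ∑ j, C (C (ξ₁ j)) * Bv j - C X * derivative A)
    (δ : Derivation ℤ κ κ)
    (hdep : ¬ LinearIndependent κ (![fun j => (Bv j).evalEval y₁ y,
      fun j => (vf A (cX κ) (Bv j)).evalEval y₁ y,
      fun j => (vf A (cE δ) (Bv j)).evalEval y₁ y] : Fin 3 → Fin n → κ)) :
    (fun j => δ (x j)) ∈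
      Submodule.span κ {x, fun j => (vf A (cX κ) (Bv j)).evalEval y₁ y} := by
  -- As in `indep_at` (SP8): `v₀ = β x`, `v₁` are independent because of `h0`, `h1` (the minor is a
  -- power of `α = A_Y (p)`), so the third vector `w` is a combination of them; and
  -- `α * δ (v₀ j) = w j + δ y₁ * v₁ j` (`ev_vf`, `ev_id`), `δ (v₀ j) = β δ (x j) + δ β x j`.
  classical
  set α := (derivative A).evalEval y₁ y with hα
  set v₀ : Fin n → κ := fun j => (Bv j).evalEval y₁ y with hv₀
  set v₁ : Fin n → κ := fun j => (vf A (cX κ) (Bv j)).evalEval y₁ y with hv₁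
  set w : Fin n → κ := fun j => (vf A (cE δ) (Bv j)).evalEval y₁ y with hw
  have hv₀x : ∀ j, v₀ j = β * x j := fun j => (hB j).symm
  have hA' : ev (RingHom.id κ) y₁ y A = 0 := by rw [ev_id]; exact hA
  have hder : ∀ j, α * δ (v₀ j) = w j + δ y₁ * v₁ j := by
    intro j
    have h2 := ev_vf (RingHom.id κ) δ δ (fun c => rfl) hA' (Bv j)
    simp only [ev_id] at h2
    exact h2
  -- independence of the two first vectors
  have hpair : ∀ s t : κ, s • v₀ + t • v₁ = 0 → s = 0 ∧ t = 0 := by
    have key : ∀ ξ : Fin n → κ, ∀ V : Derivation ℤ κ[X][X] κ[X][X],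
        V (∑ j, C (C (ξ j)) * Bv j) = ∑ j, (C (C (ξ j)) * V (Bv j) + Bv j * V (C (C (ξ j)))) := by
      intro ξ V
      rw [map_sum]
      refine Finset.sum_congr rfl fun j _ => ?_
      rw [Derivation.leibniz, smul_eq_mul, smul_eq_mul]
    have hVC : ∀ c : κ, vf A (cX κ) (C (C c)) = 0 := by
      intro c
      rw [vf_apply, cX_C_C, derivative_C]
      ring
    have hev : ∀ ξ : Fin n → κ,
        (vf A (cX κ) (∑ j, C (C (ξ j)) * Bv j)).evalEval y₁ y = ∑ j, ξ j * v₁ j := by
      intro ξ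
      rw [key, evalEval_finsetSum]
      refine Finset.sum_congr rfl fun j _ => ?_
      rw [hVC, mul_zero, add_zero, evalEval_mul, evalEval_C, eval_C]
    have hev0 : ∀ ξ : Fin n → κ,
        (∑ j, C (C (ξ j)) * Bv j).evalEval y₁ y = ∑ j, ξ j * v₀ j := by
      intro ξ
      rw [evalEval_finsetSum]
      refine Finset.sum_congr rfl fun j _ => ?_
      rw [evalEval_mul, evalEval_C, eval_C]
    obtain ⟨q₀, hq₀⟩ := h0
    obtain ⟨q₁, hq₁⟩ := h1
    have hq₀' : ∑ j, C (C (ξ₀ j)) * Bv j = derivative A + A * q₀ := by rw [← hq₀]; ring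
    have hq₁' : ∑ j, C (C (ξ₁ j)) * Bv j = C X * derivative A + A * q₁ := by rw [← hq₁]; ring
    set c₀ := (vf A (cX κ) (derivative A)).evalEval y₁ y with hc₀
    have e00 : ∑ j, ξ₀ j * v₀ j = α := by
      rw [← hev0, hq₀', evalEval_add, evalEval_mul, hA, zero_mul, add_zero]
    have e10 : ∑ j, ξ₁ j * v₀ j = y₁ * α := by
      rw [← hev0, hq₁', evalEval_add, evalEval_mul, evalEval_mul, hA, zero_mul, add_zero,
        evalEval_C, eval_X]
    have e01 : ∑ j, ξ₀ j * v₁ j = c₀ := by
      rw [← hev, hq₀', map_add, vf_mul, evalEval_add, evalEval_mul, hA, zero_mul, add_zero]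
    have e11 : ∑ j, ξ₁ j * v₁ j = y₁ * c₀ + α * α := by
      rw [← hev, hq₁', map_add, vf_mul, evalEval_add, evalEval_mul, hA, zero_mul, add_zero,
        Derivation.leibniz, smul_eq_mul, smul_eq_mul, evalEval_add, evalEval_mul, evalEval_mul,
        evalEval_C, eval_X]
      have h3 : vf A (cX κ) (C X) = derivative A := by
        rw [vf_apply, cX_C_X, derivative_C]
        ring
      rw [h3]
    intro s t hst
    have f0 : s * α + t * c₀ = 0 := by
      have := congrArg (fun u : Fin n → κ => ∑ j, ξ₀ j * u j) hst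
      simp only [Pi.add_apply, Pi.smul_apply, smul_eq_mul, Pi.zero_apply, mul_zero,
        Finset.sum_const_zero, mul_add, Finset.sum_add_distrib] at this
      rw [← e00, ← e01, Finset.mul_sum, Finset.mul_sum, ← this]
      congr 1 <;> exact Finset.sum_congr rfl fun j _ => by ring
    have f1 : s * (y₁ * α) + t * (y₁ * c₀ + α * α) = 0 := by
      have := congrArg (fun u : Fin n → κ => ∑ j, ξ₁ j * u j) hst
      simp only [Pi.add_apply, Pi.smul_apply, smul_eq_mul, Pi.zero_apply, mul_zero,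
        Finset.sum_const_zero, mul_add, Finset.sum_add_distrib] at this
      rw [← e10, ← e11, Finset.mul_sum, Finset.mul_sum, ← this]
      congr 1 <;> exact Finset.sum_congr rfl fun j _ => by ring
    have ht : t * (α * α) = 0 := by linear_combination f1 - y₁ * f0
    have ht0 : t = 0 := (mul_eq_zero.mp ht).resolve_right (mul_ne_zero hAY hAY)
    refine ⟨?_, ht0⟩
    rw [ht0, zero_mul, add_zero] at f0
    exact (mul_eq_zero.mp f0).resolve_right hAY
  -- the third vector is a combination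
  obtain ⟨g, hg, i, hi⟩ := Fintype.not_linearIndependent_iff.mp hdep
  rw [Fin.sum_univ_three] at hg
  simp only [Matrix.cons_val_zero, Matrix.cons_val_one, Matrix.cons_val_two, Matrix.head_cons,
    Matrix.tail_cons] at hg
  have hg2 : g 2 ≠ 0 := by
    intro h2
    rw [h2, zero_smul, add_zero] at hg
    obtain ⟨h3, h4⟩ := hpair _ _ hg
    apply hi
    fin_cases i
    · exact h3
    · exact h4
    · exact h2
  have hwj : ∀ j, g 0 * v₀ j + g 1 * v₁ j + g 2 * w j = 0 := by
    intro j
    have := congrFun hg j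
    simpa using this
  rw [Submodule.mem_span_pair]
  refine ⟨(α * β)⁻¹ * (-(g 0 / g 2) * β - α * δ β), (α * β)⁻¹ * (-(g 1 / g 2) + δ y₁), ?_⟩
  funext j
  have h6 := hder j
  rw [hv₀x, Derivation.leibniz, smul_eq_mul, smul_eq_mul] at h6
  have h7 := hwj j
  rw [hv₀x] at h7
  have h8 : w j = -(g 0 / g 2) * (β * x j) - (g 1 / g 2) * v₁ j := by
    field_simp
    linear_combination h7
  simp only [Pi.add_apply, Pi.smul_apply, smul_eq_mul]
  rw [h8] at h6
  have hαβ : α * β ≠ 0 := mul_ne_zero hAY hβ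
  have h9 : α * β * δ (x j) = (-(g 0 / g 2) * β - α * δ β) * x j + (-(g 1 / g 2) + δ y₁) * v₁ j := by
    linear_combination h6
  rw [mul_assoc, mul_assoc, ← mul_add, ← h9, ← mul_assoc, inv_mul_cancel₀ hαβ, one_mul]

end Pool.Agent.Lib.MP_44a246_ntE
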