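import Mathlib
import Pool.Agent.Lib.MP_44a246_ntE.E08
import Pool.Agent.Lib.MP_44a246_ntC.C16
import Pool.Agent.Lib.MP_44a246_ntK.K10

/-!
The conditions on the parameters which come from the equations of the variety.
-/

namespace Pool.Agent.Lib.MP_44a246_ntE

open Pool.Agent.Lib.MP_e52354_nt
open Pool.Agent.Lib.MP_44a246_nt
open Pool.Agent.Lib.MP_44a246_ntK
open Pool.Agent.Lib.MP_44a246_ntL
open Pool.Agent.Lib.MP_44a246_ntR
open Pool.Agent.Lib.MP_44a246_ntS
open Polynomial Module

variable {κ M : Type*} [Field κ] [Field M] [Algebra κ M]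

open scoped Pointwise in
/-- the products of `d` of the elements `γ l` are the monomials of degree `d` -/
private theorem range_pow {n : ℕ} (γ : Fin (n + 1) → M) (d : ℕ) :
    Set.range γ ^ d = Set.range (fun I : ↥(expo (Fin (n + 1)) d) => mon γ I.1) := by
  classical
  induction d with
  | zero =>
    ext y
    rw [pow_zero, Set.mem_one, Set.mem_range]
    constructor
    · rintro rfl
      exact ⟨⟨0, mem_expo.2 (by simp)⟩, mon_zero γ⟩
    · rintro ⟨I, rfl⟩
      have h1 : I.1 = 0 := by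
        have h2 := mem_expo.1 I.2
        rwa [Finsupp.degree_eq_zero_iff] at h2
      show mon γ I.1 = 1
      rw [h1, mon_zero]
  | succ d ih =>
    rw [pow_succ, ih]
    ext y
    rw [Set.mem_mul, Set.mem_range]
    constructor
    · rintro ⟨_, ⟨I, rfl⟩, _, ⟨l, rfl⟩, rfl⟩
      refine ⟨⟨I.1 + Finsupp.single l 1, ?_⟩, ?_⟩
      · rw [mem_expo, map_add, mem_expo.1 I.2, Finsupp.degree_single]
      · show mon γ (I.1 + Finsupp.single l 1) = _
        rw [mon_add, mon_single, pow_one]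
    · rintro ⟨I, rfl⟩
      have hne : ∃ l, I.1 l ≠ 0 := by
        by_contra hcon
        push Not at hcon
        have h1 : I.1 = 0 := Finsupp.ext hcon
        have h2 := mem_expo.1 I.2
        rw [h1] at h2
        simp at h2
      obtain ⟨l, hl⟩ := hne
      have h1 := sub_add_single hl
      refine ⟨mon γ (I.1 - Finsupp.single l 1), ⟨⟨I.1 - Finsupp.single l 1, ?_⟩, rfl⟩, γ l,
        ⟨l, rfl⟩, ?_⟩
      · rw [mem_expo]
        have h2 := mem_expo.1 I.2
        rw [← h1, map_add, Finsupp.degree_single] at h2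
        omega
      · show _ = mon γ I.1
        conv_rhs => rw [← h1, mon_add, mon_single, pow_one]

/-- the forms of degree `d` with coefficients in `κ` which vanish at `γ` -/
theorem finrank_vanish {n : ℕ} (γ : Fin (n + 1) → M) (d : ℕ) :
    ∃ F : Submodule κ (↥(expo (Fin (n + 1)) d) → κ),
      (∀ v : ↥(expo (Fin (n + 1)) d) → κ,
        v ∈ F ↔ ∑ I, algebraMap κ M (v I) * mon γ I.1 = 0) ∧
      finrank κ F + finrank κ ↥(Submodule.span κ (Set.range γ) ^ d) =
        (expo (Fin (n + 1)) d).card := by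
  classical
  let f : (↥(expo (Fin (n + 1)) d) → κ) →ₗ[κ] M :=
    Fintype.linearCombination κ (fun I : ↥(expo (Fin (n + 1)) d) => mon γ I.1)
  refine ⟨LinearMap.ker f, ?_, ?_⟩
  · intro v
    rw [LinearMap.mem_ker]
    have h1 : f v = ∑ I, algebraMap κ M (v I) * mon γ I.1 := by
      rw [Fintype.linearCombination_apply]
      exact Finset.sum_congr rfl fun I _ => Algebra.smul_def _ _
    rw [h1]
  · have h1 := LinearMap.finrank_range_add_finrank_ker f
    have h2 : LinearMap.range f = Submodule.span κ (Set.range γ) ^ d := by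
      rw [Submodule.span_pow, range_pow]
      exact Fintype.range_linearCombination κ _
    rw [h2, Module.finrank_fintype_fun_eq_card, Fintype.card_coe] at h1
    omega

/-- the vanishing of the forms `∑ F₀ (a_I) x ^ I` at a point which is fixed by `F` up to scaling -/
theorem forms_vanish {n p ρ : ℕ} {d : Fin p → ℕ} {a : Fin p → (Fin (n + 1) →₀ ℕ) → κ}
    {γ : Fin (n + 1) → M} {jj : Fin ρ → Fin p} {Λ : Fin ρ → Fin p → M}
    {cr : Fin ρ → Fin (n + 1) → M} (hΛ : ∀ b b', Λ b (jj b') = if b = b' then 1 else 0)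
    (hg0 : ∀ b, ∑ l, cr b l * γ l = 0) {F : Derivation ℤ M M} {F₀ : Derivation ℤ κ κ}
    (hF : ∀ u : κ, F (algebraMap κ M u) = algebraMap κ M (F₀ u))
    (hder : ∀ b, ∑ l, cr b l * F (γ l) =
      - ∑ j, Λ b j * ∑ I ∈ expo (Fin (n + 1)) (d j), F (algebraMap κ M (a j I)) * mon γ I)
    {ω₀ : M} (hω : ω₀ ≠ 0) (hFγ : ∀ l, F (γ l / ω₀) = 0)
    (h0 : ∀ j, j ∉ Set.range jj → ∀ I ∈ expo (Fin (n + 1)) (d j), F₀ (a j I) = 0) (b : Fin ρ) :
    ∑ I ∈ expo (Fin (n + 1)) (d (jj b)),
      algebraMap κ M (F₀ (a (jj b) I)) * mon (fun l => γ l / ω₀) I = 0 := by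
  classical
  -- the derivatives of the coordinates
  have h1 : ∀ l, F (γ l) = F ω₀ / ω₀ * γ l := by
    intro l
    have h2 : γ l = ω₀ * (γ l / ω₀) := by field_simp
    have h3 := congrArg F h2
    rw [Derivation.leibniz, hFγ l, smul_zero, zero_add, smul_eq_mul] at h3
    rw [h3]
    ring
  have h2 : ∑ l, cr b l * F (γ l) = 0 := by
    have h3 : ∑ l, cr b l * F (γ l) = F ω₀ / ω₀ * ∑ l, cr b l * γ l := by
      rw [Finset.mul_sum]
      exact Finset.sum_congr rfl fun l _ => by rw [h1 l]; ring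
    rw [h3, hg0, mul_zero]
  have h3 := hder b
  rw [h2, eq_comm, neg_eq_zero, Finset.sum_eq_single (jj b)] at h3
  · rw [hΛ, if_pos rfl, one_mul] at h3
    have h4 : ∀ I ∈ expo (Fin (n + 1)) (d (jj b)),
        algebraMap κ M (F₀ (a (jj b) I)) * mon (fun l => γ l / ω₀) I =
          (ω₀ ^ d (jj b))⁻¹ * (F (algebraMap κ M (a (jj b) I)) * mon γ I) := by
      intro I hI
      have h5 : mon (fun l => γ l / ω₀) I = mon γ I * (ω₀ ^ d (jj b))⁻¹ := by
        have h6 : I.degree = d (jj b) := mem_expo.1 hI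
        unfold mon
        rw [← h6, Finsupp.degree_eq_sum, ← Finset.prod_pow_eq_pow_sum, ← Finset.prod_inv_distrib,
          ← Finset.prod_mul_distrib]
        exact Finset.prod_congr rfl fun l _ => by rw [div_pow, div_eq_mul_inv]
      rw [h5, hF]
      ring
    rw [Finset.sum_congr rfl h4, ← Finset.mul_sum, h3, mul_zero]
  · intro j _ hj
    by_cases hjr : j ∈ Set.range jj
    · obtain ⟨b', rfl⟩ := hjr
      have hne : b ≠ b' := fun h => hj (by rw [h])
      rw [hΛ, if_neg hne, zero_mul]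
    · rw [Finset.sum_eq_zero, mul_zero]
      intro I hI
      rw [hF, h0 j hjr I hI, map_zero, zero_mul]
  · intro h
    exact absurd (Finset.mem_univ _) h

/-- the index set of the derivations `∂ / ∂ a_{b, I}` with `(b, I)` not exceptional -/
noncomputable def tset {n p ρ : ℕ} (d : Fin p → ℕ) (jj : Fin ρ → Fin p)
    (P : Finset (Fin p × (Fin (n + 1) →₀ ℕ))) : Finset (Fin ρ × (Fin (n + 1) →₀ ℕ)) :=
  open Classical in (jexpo n (fun b => d (jj b))).filter (fun t => (jj t.1, t.2) ∉ P)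

private theorem mem_tset {n p ρ : ℕ} {d : Fin p → ℕ} {jj : Fin ρ → Fin p}
    {P : Finset (Fin p × (Fin (n + 1) →₀ ℕ))} {t : Fin ρ × (Fin (n + 1) →₀ ℕ)} :
    t ∈ tset d jj P ↔ t.2 ∈ expo (Fin (n + 1)) (d (jj t.1)) ∧ (jj t.1, t.2) ∉ P := by
  classical
  unfold tset
  rw [Finset.mem_filter, mem_jexpo]

private theorem card_jexpo {n p : ℕ} (d : Fin p → ℕ) :
    (jexpo n d).card = ∑ j, (expo (Fin (n + 1)) (d j)).card := by
  unfold jexpo
  rw [Finset.card_map, Finset.card_sigma]

/-- the number of the exceptional pairs -/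
private theorem card_tset {n p ρ s : ℕ} {d : Fin p → ℕ} {jj : Fin ρ → Fin p}
    (hjj : Function.Injective jj) {P : Finset (Fin p × (Fin (n + 1) →₀ ℕ))} (hP : P.card ≤ s)
    (E : Finset (Fin p × (Fin (n + 1) →₀ ℕ))) (hEP : E ⊆ P) (hE : ∀ t ∈ E, t.1 ∉ Set.range jj) :
    ∑ b, (expo (Fin (n + 1)) (d (jj b))).card + E.card ≤ (tset d jj P).card + s := by
  classical
  have h1 := Finset.card_filter_add_card_filter_not (s := jexpo n (fun b => d (jj b)))
    (fun t => (jj t.1, t.2) ∈ P)
  rw [card_jexpo] at h1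
  have h2 : (tset d jj P).card =
      ((jexpo n (fun b => d (jj b))).filter (fun t => ¬ (jj t.1, t.2) ∈ P)).card := by
    unfold tset
    congr!
  set Q := (jexpo n (fun b => d (jj b))).filter (fun t => (jj t.1, t.2) ∈ P) with hQ
  have h3 : (Q.image fun t => (jj t.1, t.2)).card = Q.card := by
    refine Finset.card_image_of_injective _ ?_
    rintro ⟨b, I⟩ ⟨b', I'⟩ h
    simp only [Prod.mk.injEq] at h
    rw [hjj h.1, h.2]
  have h4 : (Q.image fun t => (jj t.1, t.2)).card + E.card ≤ P.card := by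
    rw [← Finset.card_union_of_disjoint]
    · refine Finset.card_le_card (Finset.union_subset ?_ hEP)
      intro t ht
      rw [Finset.mem_image] at ht
      obtain ⟨u, hu, rfl⟩ := ht
      rw [hQ, Finset.mem_filter] at hu
      exact hu.2
    · rw [Finset.disjoint_left]
      intro t ht hte
      rw [Finset.mem_image] at ht
      obtain ⟨u, hu, rfl⟩ := ht
      exact hE _ hte ⟨u.1, rfl⟩
  omega

private theorem Dc_add' {κ M T : Type*} [Field κ] [Field M] [Algebra κ M] [Fintype T]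
    (D : T → Derivation ℤ M M) (c c' : T → κ) (y : M) :
    Dc D (c + c') y = Dc D c y + Dc D c' y := by
  rw [Dc_apply, Dc_apply, Dc_apply, ← Finset.sum_add_distrib]
  exact Finset.sum_congr rfl fun t _ => by rw [Pi.add_apply, map_add]; ring

private theorem Dc_smul' {κ T : Type*} [Field κ] [Fintype T]
    (D : T → Derivation ℤ κ κ) (r : κ) (c : T → κ) (y : κ) :
    Dc D (r • c) y = r * Dc D c y := by
  rw [Dc_apply, Dc_apply, Finset.mul_sum]
  refine Finset.sum_congr rfl fun t _ => ?_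
  rw [Pi.smul_apply, smul_eq_mul, map_mul, Algebra.algebraMap_self_apply]
  ring

/-- evaluation at a family is linear in the coefficients -/
private noncomputable def evf {κ T ι : Type*} [Field κ] [Fintype T]
    (D : T → Derivation ℤ κ κ) (y : ι → κ) : (T → κ) →ₗ[κ] (ι → κ) where
  toFun c i := Dc D c (y i)
  map_add' c c' := by
    funext i
    rw [Pi.add_apply, Dc_add']
  map_smul' r c := by
    funext i
    rw [Pi.smul_apply, Dc_smul', RingHom.id_apply, smul_eq_mul]

private theorem evf_apply {κ T ι : Type*} [Field κ] [Fintype T]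
    (D : T → Derivation ℤ κ κ) (y : ι → κ) (c : T → κ) (i : ι) : evf D y c i = Dc D c (y i) := rfl

/-- a subspace of `span {x, v}` which meets `span {x}` in `0` -/
private theorem finrank_le_one {V : Type*} [AddCommGroup V] [Module κ V] [FiniteDimensional κ V]
    {x v : V} (hx : x ≠ 0) (U : Submodule κ V) (hU : U ≤ Submodule.span κ {x, v})
    (hd : ∀ r : κ, r • x ∈ U → r = 0) : finrank κ U ≤ 1 := by
  classical
  have h1 := Submodule.finrank_sup_add_finrank_inf_eq U (Submodule.span κ {x})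
  rw [finrank_span_singleton hx] at h1
  have h2 : U ⊔ Submodule.span κ {x} ≤ Submodule.span κ {x, v} := by
    refine sup_le hU (Submodule.span_mono ?_)
    intro y hy
    rw [Set.mem_singleton_iff] at hy
    rw [hy]
    exact Set.mem_insert _ _
  have h3 := Submodule.finrank_mono h2
  have h4 : finrank κ (Submodule.span κ {x, v}) ≤ 2 := by
    have h5 := finrank_span_finset_le_card (R := κ) ({x, v} : Finset V)
    have h6 : (({x, v} : Finset V) : Set V) = {x, v} := by
      rw [Finset.coe_insert, Finset.coe_singleton]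
    unfold Set.finrank at h5
    rw [h6] at h5
    exact h5.trans Finset.card_le_two
  have h5 : finrank κ ↥(U ⊓ Submodule.span κ {x}) = 0 := by
    have h6 : U ⊓ Submodule.span κ {x} = ⊥ := by
      rw [eq_bot_iff]
      rintro y ⟨hy, hy2⟩
      obtain ⟨r, rfl⟩ := Submodule.mem_span_singleton.1 hy2
      rw [hd r hy, zero_smul]
      exact Submodule.zero_mem _
    rw [h6]
    exact finrank_bot κ V
  omega

/-- **The conditions which come from the equations.** The derivations are `W (jj b) I`, for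
`(b, I)` in `tset`, and `δ i`. -/
theorem count_forms {n p m' ρ s q : ℕ} {d : Fin p → ℕ} {a : Fin p → (Fin (n + 1) →₀ ℕ) → κ}
    (δ : Fin m' → Derivation ℤ κ κ)
    (hδa : ∀ i j, ∀ I ∈ expo (Fin (n + 1)) (d j), δ i (a j I) = 0)
    {P : Finset (Fin p × (Fin (n + 1) →₀ ℕ))} (hP : P.card ≤ s)
    (W : Fin p → (Fin (n + 1) →₀ ℕ) → Derivation ℤ κ κ)
    (hWa : ∀ b, ∀ I ∈ expo (Fin (n + 1)) (d b), ∀ b', ∀ J ∈ expo (Fin (n + 1)) (d b'),
      (b', J) ∉ P → W b I (a b' J) = if (b, I) = (b', J) then 1 else 0)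
    {x v : Fin (n + 1) → κ}
    (hx : LinearIndependent κ
      (Fin.cons x (fun i k => δ i (x k)) : Fin (m' + 1) → Fin (n + 1) → κ))
    {jj : Fin ρ → Fin p} (hjj : Function.Injective jj) {γ : Fin (n + 1) → M}
    {D₀ : ↥(tset d jj P) ⊕ Fin m' → Derivation ℤ κ κ}
    (hDl : ∀ t, D₀ (Sum.inl t) = W (jj t.1.1) t.1.2) (hDr : ∀ i, D₀ (Sum.inr i) = δ i)
    {S : Submodule κ (↥(tset d jj P) ⊕ Fin m' → κ)}
    (hq : Fintype.card (↥(tset d jj P) ⊕ Fin m') ≤ finrank κ S + q)
    (hS : ∀ c ∈ S, (∀ j, j ∉ Set.range jj → ∀ I ∈ expo (Fin (n + 1)) (d j),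
        Dc D₀ c (a j I) = 0) → ∀ b : Fin ρ,
      ∑ I ∈ expo (Fin (n + 1)) (d (jj b)), algebraMap κ M (Dc D₀ c (a (jj b) I)) * mon γ I = 0)
    (hK : ∀ c ∈ S, (∀ t, c (Sum.inl t) = 0) →
      (fun l => Dc δ (fun i => c (Sum.inr i)) (x l)) ∈ Submodule.span κ {x, v}) :
    ∑ b : Fin ρ, finrank κ ↥(Submodule.span κ (Set.range γ) ^ d (jj b)) + m' ≤ q + s + 1 := by
  classical
  -- the value of a combination
  have hval : ∀ (c : ↥(tset d jj P) ⊕ Fin m' → κ) (y : κ), Dc D₀ c y =
      ∑ t, c (Sum.inl t) * W (jj t.1.1) t.1.2 y + ∑ i, c (Sum.inr i) * δ i y := by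
    intro c y
    rw [Dc_apply, Fintype.sum_sum_type]
    congr 1
    · exact Finset.sum_congr rfl fun t _ => by rw [hDl, Algebra.algebraMap_self_apply]
    · exact Finset.sum_congr rfl fun i _ => by rw [hDr, Algebra.algebraMap_self_apply]
  have hval2 : ∀ (c : ↥(tset d jj P) ⊕ Fin m' → κ) (j : Fin p),
      ∀ I ∈ expo (Fin (n + 1)) (d j), (j, I) ∉ P → Dc D₀ c (a j I) =
        ∑ t : ↥(tset d jj P), c (Sum.inl t) * if (jj t.1.1, t.1.2) = (j, I) then 1 else 0 := by
    intro c j I hI hn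
    rw [hval, Finset.sum_eq_zero (s := (Finset.univ : Finset (Fin m')))
      (fun i _ => by rw [hδa i j I hI, mul_zero]), add_zero]
    refine Finset.sum_congr rfl fun t _ => ?_
    rw [hWa _ _ (mem_tset.1 t.2).1 _ _ hI hn]
  -- the exceptional pairs which do not belong to the forms `jj b`
  set E : Finset (Fin p × (Fin (n + 1) →₀ ℕ)) :=
    P.filter (fun t => t.1 ∉ Set.range jj ∧ t.2 ∈ expo (Fin (n + 1)) (d t.1)) with hE
  have hcard := card_tset (d := d) hjj hP E (Finset.filter_subset _ _)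
    (fun t ht => ((Finset.mem_filter.1 ht).2).1)
  -- first step
  let f₁ : (↥(tset d jj P) ⊕ Fin m' → κ) →ₗ[κ] (↥E → κ) := evf D₀ fun t : ↥E => a t.1.1 t.1.2
  have h1 := exists_ker S f₁ (F := ⊤) fun _ _ => trivial
  rw [finrank_top, Module.finrank_fintype_fun_eq_card, Fintype.card_coe] at h1
  set S₁ := S ⊓ LinearMap.ker f₁ with hS₁
  have hS1 : ∀ c ∈ S₁, ∀ j, j ∉ Set.range jj → ∀ I ∈ expo (Fin (n + 1)) (d j),
      Dc D₀ c (a j I) = 0 := by
    intro c hc j hj I hI
    by_cases hn : (j, I) ∈ P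
    · have h2 : f₁ c = 0 := LinearMap.mem_ker.1 hc.2
      exact congrFun h2 ⟨(j, I), Finset.mem_filter.2 ⟨hn, hj, hI⟩⟩
    · rw [hval2 c j I hI hn]
      refine Finset.sum_eq_zero fun t _ => ?_
      rw [if_neg, mul_zero]
      intro h
      rw [Prod.mk.injEq] at h
      exact hj ⟨_, h.1⟩
  -- second step
  choose F hF1 hF2 using fun b : Fin ρ => finrank_vanish (κ := κ) γ (d (jj b))
  have hstep : ∀ J : Finset (Fin ρ), ∃ S' ≤ S₁,
      finrank κ S₁ ≤ finrank κ S' + ∑ b ∈ J, finrank κ (F b) ∧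
      ∀ c ∈ S', ∀ b ∈ J, ∀ I ∈ expo (Fin (n + 1)) (d (jj b)), Dc D₀ c (a (jj b) I) = 0 := by
    intro J
    induction J using Finset.induction_on with
    | empty => exact ⟨S₁, le_rfl, by simp, fun _ _ i hi => absurd hi (Finset.notMem_empty i)⟩
    | @insert b J hb ih =>
      obtain ⟨S', hS', h2, h3⟩ := ih
      let g : (↥(tset d jj P) ⊕ Fin m' → κ) →ₗ[κ] (↥(expo (Fin (n + 1)) (d (jj b))) → κ) :=
        evf D₀ fun I : ↥(expo (Fin (n + 1)) (d (jj b))) => a (jj b) I.1
      have h4 := exists_ker S' g (F := F b) (by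
        intro c hc
        rw [hF1]
        have h5 := hS c (hS' hc).1 (hS1 c (hS' hc)) b
        rw [← Finset.sum_coe_sort] at h5
        exact h5)
      refine ⟨S' ⊓ LinearMap.ker g, inf_le_left.trans hS', ?_, ?_⟩
      · rw [Finset.sum_insert hb]
        omega
      · intro c hc b' hb' I hI
        rcases Finset.mem_insert.1 hb' with rfl | hb'
        · have h5 : g c = 0 := LinearMap.mem_ker.1 hc.2
          exact congrFun h5 ⟨I, hI⟩
        · exact h3 c hc.1 b' hb' I hI
  obtain ⟨S₂, hS₂, h2, h3⟩ := hstep Finset.univ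
  -- the coefficients of the derivations `W` vanish
  have hinl : ∀ c ∈ S₂, ∀ t, c (Sum.inl t) = 0 := by
    intro c hc t
    have h4 := mem_tset.1 t.2
    have h5 := h3 c hc t.1.1 (Finset.mem_univ _) t.1.2 h4.1
    rw [hval2 c _ _ h4.1 h4.2, Finset.sum_eq_single t] at h5
    · rwa [if_pos rfl, mul_one] at h5
    · intro u _ hu
      rw [if_neg, mul_zero]
      intro h
      rw [Prod.mk.injEq] at h
      exact hu (Subtype.ext (Prod.ext (hjj h.1) h.2))
    · intro h
      exact absurd (Finset.mem_univ _) h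
  -- the last step
  let hh : (↥(tset d jj P) ⊕ Fin m' → κ) →ₗ[κ] (Fin (n + 1) → κ) :=
    (evf δ x).comp (LinearMap.funLeft κ κ Sum.inr)
  have hhv : ∀ c, hh c = ∑ i, c (Sum.inr i) • (fun k => δ i (x k)) := by
    intro c
    funext l
    rw [Finset.sum_apply]
    show Dc δ (fun i => c (Sum.inr i)) (x l) = _
    rw [Dc_apply]
    exact Finset.sum_congr rfl fun i _ => rfl
  have hind : ∀ (r : κ) (e : Fin m' → κ), r • x + ∑ i, e i • (fun k => δ i (x k)) = 0 →
      r = 0 ∧ ∀ i, e i = 0 := by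
    intro r e he
    have h4 := Fintype.linearIndependent_iff.1 hx (Fin.cons r e) (by
      rw [Fin.sum_univ_succ]
      simpa using he)
    refine ⟨by simpa using h4 0, fun i => by simpa using h4 i.succ⟩
  have hinj : LinearMap.ker (hh.comp S₂.subtype) = ⊥ := by
    rw [eq_bot_iff]
    rintro ⟨c, hc⟩ h4
    rw [LinearMap.mem_ker] at h4
    have h5 : hh c = 0 := h4
    rw [hhv] at h5
    have h6 := (hind 0 (fun i => c (Sum.inr i)) (by rw [zero_smul, zero_add]; exact h5)).2
    rw [Submodule.mem_bot]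
    refine Subtype.ext (funext fun t => ?_)
    rcases t with t | i
    · exact hinl c hc t
    · exact h6 i
  have hx0 : x ≠ 0 := by
    have h4 := hx.ne_zero 0
    simpa using h4
  have h4 : finrank κ ↥(LinearMap.range (hh.comp S₂.subtype)) ≤ 1 := by
    refine finrank_le_one (v := v) hx0 _ ?_ ?_
    · rintro _ ⟨⟨c, hc⟩, rfl⟩
      exact hK c (hS₂ hc).1 (hinl c hc)
    · rintro r ⟨⟨c, hc⟩, h5⟩
      have h6 : hh c = r • x := h5
      rw [hhv] at h6
      have h7 := (hind (-r) (fun i => c (Sum.inr i)) (by rw [h6, neg_smul, neg_add_cancel])).1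
      exact neg_eq_zero.1 h7
  have h5 := LinearMap.finrank_range_add_finrank_ker (hh.comp S₂.subtype)
  rw [hinj, finrank_bot] at h5
  rw [Fintype.card_sum, Fintype.card_coe, Fintype.card_fin] at hq
  have h6 : ∑ b, finrank κ (F b) +
      ∑ b, finrank κ ↥(Submodule.span κ (Set.range γ) ^ d (jj b)) =
        ∑ b, (expo (Fin (n + 1)) (d (jj b))).card := by
    rw [← Finset.sum_add_distrib]
    exact Finset.sum_congr rfl fun b _ => hF2 b
  omega

end Pool.Agent.Lib.MP_44a246_ntE
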