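import Mathlib

/-!
The numbers of step E.
-/

namespace Pool.Agent.Lib.MP_44a246_ntE

/-- case `2 s ≤ m` -/
private theorem numA {r ρ σ m s : ℤ} (hρ : 0 ≤ ρ) (hr : 2 ≤ r) (h2 : r + ρ + 1 ≤ σ)
    (h3 : (ρ + 3) * m ≤ σ) (hs : 2 ≤ s) (hsm : 2 * s ≤ m) :
    2 * ((r - s) * (s + 1) + (s - 2) * (m + 1) + (m + 1) + 1) + 2 * (m * (m - 1)) +
      ρ * (m * (m - 1)) < 2 * ((m - 1) * σ + 2 * r) := by
  have e1 : 0 ≤ (m - 2 * s) * (2 * r + m + (m - 2 * s)) := by
    apply mul_nonneg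
    · linarith
    · linarith
  have e2 : (m - 1) * (r + ρ + 1) ≤ (m - 1) * σ := mul_le_mul_of_nonneg_left h2 (by linarith)
  have e3 : (m - 1) * ((ρ + 3) * m) ≤ (m - 1) * σ := mul_le_mul_of_nonneg_left h3 (by linarith)
  have e4 : 0 ≤ (m - 1) * ρ := mul_nonneg (by linarith) hρ
  nlinarith [mul_self_nonneg m, mul_self_nonneg (m - 2 * s)]

/-- case `m < 2 s` -/
private theorem numB {r ρ σ m s J : ℤ} (hρ : 0 ≤ ρ) (h2 : r + ρ + 1 ≤ σ)
    (h3 : (ρ + 3) * m ≤ σ) (hm : 2 ≤ m) (hs : 2 ≤ s) (hsr : s ≤ r) (hsm : m < 2 * s) (hms : s ≤ m)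
    (hJ : J + s + 1 ≤ 2 * m) :
    (r - s) * (s + 1) + (s - 2) * (m + 1) + (m + 2 * J + 1) + ρ * J + 1 < (m - 1) * σ + 2 * r := by
  obtain ⟨j, rfl⟩ : ∃ j, s = m - j := ⟨m - s, by ring⟩
  obtain ⟨k, rfl⟩ : ∃ k, σ = r + ρ + 1 + k := ⟨σ - (r + ρ + 1), by ring⟩
  have hj : 0 ≤ j := by linarith
  have hk : 0 ≤ k := by linarith
  have hJ' : J ≤ m - 1 + j := by linarith
  have hj2 : 2 * j < m := by linarith
  have e1 : (2 + ρ) * J ≤ (2 + ρ) * (m - 1 + j) := mul_le_mul_of_nonneg_left hJ' (by linarith)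
  have key : 0 < j * (r - m + j - 2 - ρ) + 1 + (m - 1) * k := by
    rcases le_or_gt 0 (r - m + j - 2 - ρ) with h | h
    · have := mul_nonneg hj h
      have := mul_nonneg (show (0 : ℤ) ≤ m - 1 by linarith) hk
      linarith
    · rcases eq_or_lt_of_le hj with h0 | h0
      · have := mul_nonneg (show (0 : ℤ) ≤ m - 1 by linarith) hk
        rw [← h0]
        linarith
      · have hm3 : 3 ≤ m := by linarith
        have hk2 : (ρ + 2) * m + j - 2 * ρ - 2 ≤ k := by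
          have : r - m + j - 2 - ρ ≤ -1 := by linarith
          nlinarith
        have hk3 : ρ + 2 ≤ k := by
          nlinarith [mul_nonneg (show (0 : ℤ) ≤ ρ + 2 by linarith) (show (0 : ℤ) ≤ m - 3 by linarith)]
        have h5 : (m - 1) * (ρ + 2) ≤ (m - 1) * k :=
          mul_le_mul_of_nonneg_left hk3 (by linarith)
        have h6 : 0 ≤ j * (r - m + j) := mul_nonneg hj (by linarith)
        have h7 : j * (ρ + 2) ≤ (m - 1) * (ρ + 2) :=
          mul_le_mul_of_nonneg_right (by linarith) (by linarith)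
        nlinarith
  nlinarith

/-- the computation of step E: `r = R + 2`, `σ` the sum of the degrees plus `ρ` -/
theorem numE {R ρ σ τ c m p J s : ℕ} (h1 : 2 * (R + 2) + c ≤ σ + τ) (h2 : R + 2 + ρ + 1 ≤ σ)
    (h3 : (ρ + 3) * m ≤ σ)
    (h : (m = 1 ∧ J = 0 ∧ p = 2 * (R + 1)) ∨
        (2 ≤ m ∧ 2 ≤ s ∧ s ≤ R + 2 ∧
          p ≤ (R + 2 - s) * (s + 1) + (s - 2) * (m + 1) + (m + 2 * J + 1) ∧
          ((2 * s ≤ m ∧ 2 * J = m * (m - 1)) ∨ (m < 2 * s ∧ s ≤ m ∧ J + s + 1 ≤ 2 * m)))) :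
    p + ρ * J + c + 1 < m * σ + τ := by
  rcases h with ⟨rfl, rfl, rfl⟩ | ⟨hm, hs, hsr, hp, h⟩
  · omega
  · have hp' : (p : ℤ) ≤ ((R + 2 : ℤ) - s) * (s + 1) + ((s : ℤ) - 2) * (m + 1) + (m + 2 * J + 1) := by
      have h4 : (((R + 2 - s : ℕ) : ℤ)) = (R + 2 : ℤ) - s := by
        rw [Nat.cast_sub hsr]
        push_cast
        ring
      have h5 : (((s - 2 : ℕ) : ℤ)) = (s : ℤ) - 2 := by
        rw [Nat.cast_sub hs]
        push_cast
        ring
      rw [← h4, ← h5]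
      exact_mod_cast hp
    have h1' : 2 * ((R : ℤ) + 2) + c ≤ σ + τ := by exact_mod_cast h1
    have h2' : (R + 2 : ℤ) + ρ + 1 ≤ σ := by exact_mod_cast h2
    have h3' : ((ρ : ℤ) + 3) * m ≤ σ := by exact_mod_cast h3
    have hm' : (2 : ℤ) ≤ m := by exact_mod_cast hm
    have hs' : (2 : ℤ) ≤ s := by exact_mod_cast hs
    have hsr' : (s : ℤ) ≤ R + 2 := by exact_mod_cast hsr
    have hρ : (0 : ℤ) ≤ ρ := Int.natCast_nonneg ρ
    have hR : (2 : ℤ) ≤ R + 2 := by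
      have := Int.natCast_nonneg R
      linarith
    have goal : (p : ℤ) + ρ * J + c + 1 < m * σ + τ := by
      rcases h with ⟨h6, h7⟩ | ⟨h6, h7, h8⟩
      · have h7' : 2 * (J : ℤ) = m * (m - 1) := by
          have h9 : (((m - 1 : ℕ) : ℤ)) = (m : ℤ) - 1 := by
            rw [Nat.cast_sub (by omega)]
            push_cast
            ring
          rw [← h9]
          exact_mod_cast h7
        have h6' : 2 * (s : ℤ) ≤ m := by exact_mod_cast h6
        have := numA hρ hR h2' h3' hs' h6'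
        have h10 : (ρ : ℤ) * (m * (m - 1)) = 2 * (ρ * J) := by
          rw [← h7']
          ring
        rw [h10, ← h7'] at this
        linarith
      · have h6' : (m : ℤ) < 2 * s := by exact_mod_cast h6
        have h7' : (s : ℤ) ≤ m := by exact_mod_cast h7
        have h8' : (J : ℤ) + s + 1 ≤ 2 * m := by exact_mod_cast h8
        have := numB hρ h2' h3' hm' hs' hsr' h6' h7' h8'
        linarith
    exact_mod_cast goal

end Pool.Agent.Lib.MP_44a246_ntE
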