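import Mathlib
import Pool.Agent.Lib.MP_44a246_ntG.G0
import Pool.Agent.Lib.MP_44a246_ntU.U14

/-!
Certificates for points of varieties with a bound for the degrees of the plane projections.
-/

namespace Pool.Agent.Lib.MP_44a246_ntE

open Pool.Agent.Lib.MP_e52354_nt
open Pool.Agent.Lib.MP_44a246_ntS
open Pool.Agent.Lib.MP_44a246_ntG
open Pool.Agent.Lib.MP_44a246_ntU
open Polynomial

/-- A certificate, see `CertV`, such that moreover the projections of the image of the curve to the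
plane given by three linear forms with natural coefficients have degree at most `2 b`. -/
def CertW {L : Type*} [Field L] {n : ℕ} {ι : Type*} (e : ι → ℕ)
    (a : ι → (Fin (n + 1) →₀ ℕ) → L) (b : ℕ) (x : Fin (n + 1) → L) : Prop :=
  ∃ (A : L[X][X]) (B : Fin (n + 1) → L[X][X]) (ξ₀ ξ₁ ξ₂ : Fin (n + 1) → L) (c y₁ y : L),
    Box b A ∧ (∀ j, Box b (B j)) ∧ c ≠ 0 ∧
    ∑ j, ξ₀ j * (c * x j) = 1 ∧ ∑ j, ξ₁ j * (c * x j) = y₁ ∧ ∑ j, ξ₂ j * (c * x j) = y ∧
    A.evalEval y₁ y = 0 ∧ (derivative A).evalEval y₁ y ≠ 0 ∧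
    (∀ j, (derivative A).evalEval y₁ y * (c * x j) = (B j).evalEval y₁ y) ∧
    (∀ i, A ∣ FB (e i) (a i) B) ∧ A ∣ ∑ j, C (C (ξ₀ j)) * B j - derivative A ∧
    A ∣ ∑ j, C (C (ξ₁ j)) * B j - C X * derivative A ∧
    A ∣ ∑ j, C (C (ξ₂ j)) * B j - X * derivative A ∧
    ∀ u : Fin 3 → Fin (n + 1) → ℕ, ∃ P : MvPolynomial (Fin 3) L, P ≠ 0 ∧
      P.IsHomogeneous (2 * b) ∧ A ∣ MvPolynomial.aeval (fun i => ∑ j, C (C (u i j : L)) * B j) P

private theorem aeval_eq_FB {L : Type*} [Field L] {D : ℕ} {P : MvPolynomial (Fin 3) L}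
    (hP : P.IsHomogeneous D) (g : Fin 3 → L[X][X]) :
    MvPolynomial.aeval g P = FB (n := 2) D (fun I => P.coeff I) g := by
  rw [MvPolynomial.aeval_def, MvPolynomial.eval₂_eq']
  unfold FB
  have hsub : P.support ⊆ expo (Fin 3) D := by
    intro I hI
    rw [mem_expo]
    by_contra hne
    exact (MvPolynomial.mem_support_iff.1 hI) (hP.coeff_eq_zero hne)
  rw [← Finset.sum_subset hsub]
  · rfl
  · intro I _ hI
    have h0 : P.coeff I = 0 := MvPolynomial.notMem_support_iff.1 hI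
    simp only [h0, map_zero, zero_mul]

/-- identities over the ring of sequences -/
private theorem seq_FB {L : Type*} [Field L] {n D : ℕ} {A' Q' : (ℕ → L)[X][X]}
    {G' : Fin (n + 1) → (ℕ → L)[X][X]} {A Q : ℕ → L[X][X]} {G : ℕ → Fin (n + 1) → L[X][X]}
    {p : ℕ → (Fin (n + 1) →₀ ℕ) → L}
    (hA : ∀ N, m2 (Pi.evalRingHom (fun _ => L) N) A' = A N)
    (hQ : ∀ N, m2 (Pi.evalRingHom (fun _ => L) N) Q' = Q N)
    (hG : ∀ j N, m2 (Pi.evalRingHom (fun _ => L) N) (G' j) = G N j)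
    (h : ∀ N, FB D (p N) (G N) = A N * Q N) :
    FB D (fun I => germHom (fun N => p N I)) (fun j => m2 germHom (G' j)) =
      m2 germHom A' * m2 germHom Q' := by
  have h1 : ∑ I ∈ expo (Fin (n + 1)) D, C (C (fun N : ℕ => p N I)) * ∏ j, G' j ^ I j
      = A' * Q' := by
    apply seqPoly_ext
    intro N
    rw [map_mul, hA, hQ, ← h N, map_sum]
    unfold FB
    refine Finset.sum_congr rfl fun I _ => ?_
    rw [map_mul, m2_CC, map_prod]
    congr 1
    refine Finset.prod_congr rfl fun j _ => ?_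
    rw [map_pow, hG]
  have h2 := congrArg (m2 germHom) h1
  rw [map_sum, map_mul] at h2
  rw [← h2]
  unfold FB
  refine Finset.sum_congr rfl fun I _ => ?_
  rw [map_mul, m2_CC, map_prod]
  congr 1
  refine Finset.prod_congr rfl fun j _ => ?_
  rw [map_pow]

/-- linear combinations over the ring of sequences -/
private theorem m2_lc {R S : Type*} [CommRing R] [CommRing S] (φ : R →+* S) {n : ℕ}
    (u : Fin (n + 1) → ℕ) (B : Fin (n + 1) → R[X][X]) :
    m2 φ (∑ j, C (C (u j : R)) * B j) = ∑ j, C (C (u j : S)) * m2 φ (B j) := by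
  rw [map_sum]
  refine Finset.sum_congr rfl fun j _ => ?_
  rw [map_mul, m2_CC, map_natCast φ]

private theorem m2_lcg {L : Type*} [Field L] {n : ℕ}
    (u : Fin (n + 1) → ℕ) (B : Fin (n + 1) → (ℕ → L)[X][X]) :
    m2 germHom (∑ j, C (C ((u j : ℕ) : ℕ → L)) * B j) =
      ∑ j, C (C ((u j : ℕ) : UP L)) * m2 germHom (B j) := by
  rw [map_sum]
  refine Finset.sum_congr rfl fun j _ => ?_
  rw [map_mul, m2_CC, map_natCast germHom]

/-- forms over the ultraproduct -/
private theorem exists_form {L : Type*} [Field L] {D : ℕ} {p : ℕ → MvPolynomial (Fin 3) L}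
    (h0 : ∀ N, p N ≠ 0) (hh : ∀ N, (p N).IsHomogeneous D) :
    ∃ P' : MvPolynomial (Fin 3) (UP L), P' ≠ 0 ∧ P'.IsHomogeneous D ∧
      ∀ I ∈ expo (Fin 3) D, P'.coeff I = germHom fun N => (p N).coeff I := by
  classical
  obtain ⟨P', hP'⟩ : ∃ P' : MvPolynomial (Fin 3) (UP L), P' = ∑ I ∈ expo (Fin 3) D,
    MvPolynomial.monomial I (germHom fun N => (p N).coeff I) := ⟨_, rfl⟩
  have hP'c : ∀ I ∈ expo (Fin 3) D, P'.coeff I = germHom fun N => (p N).coeff I := by
    intro I hI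
    rw [hP', MvPolynomial.coeff_sum, Finset.sum_eq_single_of_mem I hI]
    · rw [MvPolynomial.coeff_monomial, if_pos rfl]
    · intro J _ hJ
      rw [MvPolynomial.coeff_monomial, if_neg hJ]
  refine ⟨P', ?_, ?_, hP'c⟩
  · intro hz'
    have hz : ∀ I ∈ expo (Fin 3) D,
        ∀ᶠ N in (Filter.hyperfilter ℕ : Filter ℕ), (p N).coeff I = 0 := by
      intro I hI
      rw [← germHom_eq_zero_iff, ← hP'c I hI, hz', MvPolynomial.coeff_zero]
    obtain ⟨N, hN⟩ := ((Filter.eventually_all_finset (expo (Fin 3) D)).2 hz).exists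
    refine h0 N ?_
    ext I
    rw [MvPolynomial.coeff_zero]
    by_cases hI : I ∈ expo (Fin 3) D
    · exact hN I hI
    · exact (hh N).coeff_eq_zero fun h => hI (mem_expo.2 h)
  · rw [hP']
    refine MvPolynomial.IsHomogeneous.sum _ _ _ fun I hI => ?_
    exact MvPolynomial.isHomogeneous_monomial _ (mem_expo.1 hI)

private theorem FB_congr' {L : Type*} [Field L] {n D : ℕ} {a a' : (Fin (n + 1) →₀ ℕ) → L}
    (h : ∀ I ∈ expo (Fin (n + 1)) D, a I = a' I) {B B' : Fin (n + 1) → L[X][X]}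
    (hB : ∀ i, B i = B' i) : FB D a B = FB D a' B' := by
  unfold FB
  refine Finset.sum_congr rfl fun I hI => ?_
  rw [h I hI]
  congr 1
  refine Finset.prod_congr rfl fun i _ => ?_
  rw [hB i]

private theorem box_lc {L : Type*} [Field L] {n b : ℕ} {B : Fin (n + 1) → L[X][X]}
    (hB : ∀ j, Box b (B j)) (ξ : Fin (n + 1) → L) : Box b (∑ j, C (C (ξ j)) * B j) := by
  constructor
  · refine natDegree_sum_le_of_forall_le _ _ fun j _ => ?_
    refine natDegree_mul_le.trans ?_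
    rw [natDegree_C, zero_add]
    exact (hB j).1
  · intro i
    rw [finsetSum_coeff]
    refine natDegree_sum_le_of_forall_le _ _ fun j _ => ?_
    rw [coeff_C_mul]
    refine natDegree_mul_le.trans ?_
    rw [natDegree_C, zero_add]
    exact (hB j).2 i

theorem CertW.toV {L : Type*} [Field L] {n b : ℕ} {ι : Type*} {e : ι → ℕ}
    {a : ι → (Fin (n + 1) →₀ ℕ) → L} {x : Fin (n + 1) → L} (h : CertW e a b x) :
    CertV e a b x := by
  obtain ⟨A, B, ξ₀, ξ₁, ξ₂, c, y₁, y, hA, hB, hc, h0, h1, h2, he, hd, hj, d1, d2, d3, d4, -⟩ := h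
  exact ⟨A, B, ξ₀, ξ₁, ξ₂, c, y₁, y, hA, hB, hc, h0, h1, h2, he, hd, hj, d1, d2, d3, d4⟩

/-- certificates are mapped to certificates by homomorphisms of fields -/
theorem certW_map {L L' : Type*} [Field L] [Field L'] (φ : L →+* L') {n b : ℕ} {ι : Type*}
    {e : ι → ℕ} {a : ι → (Fin (n + 1) →₀ ℕ) → L} {x : Fin (n + 1) → L} (h : CertW e a b x) :
    CertW e (fun i I => φ (a i I)) b (fun j => φ (x j)) := by
  obtain ⟨A, B, ξ₀, ξ₁, ξ₂, c, y₁, y, hA, hB, hc, h0, h1, h2, he, hd, hj, d1, d2, d3, d4, d5⟩ := h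
  refine ⟨m2 φ A, fun j => m2 φ (B j), fun j => φ (ξ₀ j), fun j => φ (ξ₁ j), fun j => φ (ξ₂ j),
    φ c, φ y₁, φ y, hA.m2 φ, fun j => (hB j).m2 φ, ?_, ?_, ?_, ?_, ?_, ?_, ?_, ?_, ?_, ?_, ?_, ?_⟩
  · exact (map_ne_zero φ).2 hc
  · rw [← map_one φ, ← h0, map_sum]
    simp only [map_mul]
  · rw [← h1, map_sum]
    simp only [map_mul]
  · rw [← h2, map_sum]
    simp only [map_mul]
  · rw [m2_evalEval, he, map_zero]
  · rw [← m2_derivative, m2_evalEval]
    exact (map_ne_zero φ).2 hd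
  · intro j
    rw [← m2_derivative, m2_evalEval, m2_evalEval, ← map_mul, ← map_mul, hj j]
  · intro i
    rw [← m2_FB]
    exact map_dvd (m2 φ) (d1 i)
  · have := map_dvd (m2 φ) d2
    rw [map_sub, map_sum, m2_derivative] at this
    simpa only [map_mul, m2_CC] using this
  · have := map_dvd (m2 φ) d3
    rw [map_sub, map_sum, map_mul, m2_derivative] at this
    have hCX : m2 φ (C X) = C X := by simp [m2]
    rw [hCX] at this
    simpa only [map_mul, m2_CC] using this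
  · have := map_dvd (m2 φ) d4
    rw [map_sub, map_sum, map_mul, m2_derivative] at this
    have hX : m2 φ X = X := by simp [m2]
    rw [hX] at this
    simpa only [map_mul, m2_CC] using this
  · intro u
    obtain ⟨P, hP0, hPh, hPd⟩ := d5 u
    refine ⟨MvPolynomial.map φ P, ?_, hPh.map φ, ?_⟩
    · intro h0
      exact hP0 (MvPolynomial.map_injective φ φ.injective (by rw [h0, map_zero]))
    · rw [aeval_eq_FB hPh] at hPd
      rw [aeval_eq_FB (hPh.map φ)]
      have := map_dvd (m2 φ) hPd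
      rw [m2_FB] at this
      rw [FB_congr' (a' := fun I => φ (MvPolynomial.coeff I P))
        (B' := fun i => m2 φ (∑ j, C (C (u i j : L)) * B j))
        (fun I _ => MvPolynomial.coeff_map φ P I) (fun i => (m2_lc φ (u i) B).symm)]
      exact this

/-- certificates do not depend on the scaling of the point -/
theorem certW_smul {L : Type*} [Field L] {n b : ℕ} {ι : Type*} {e : ι → ℕ}
    {a : ι → (Fin (n + 1) →₀ ℕ) → L} {x : Fin (n + 1) → L} {r : L} (hr : r ≠ 0) :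
    CertW e a b (fun j => r * x j) ↔ CertW e a b x := by
  constructor
  · rintro ⟨A, B, ξ₀, ξ₁, ξ₂, c', y₁, y, h1, h2, h3, h4⟩
    simp only [← mul_assoc c' r] at h4
    exact ⟨A, B, ξ₀, ξ₁, ξ₂, c' * r, y₁, y, h1, h2, mul_ne_zero h3 hr, h4⟩
  · rintro ⟨A, B, ξ₀, ξ₁, ξ₂, c, y₁, y, h1, h2, h3, h4⟩
    have hx : ∀ j, c * x j = (c * r⁻¹) * (r * x j) := by
      intro j
      field_simp
    simp only [hx] at h4
    exact ⟨A, B, ξ₀, ξ₁, ξ₂, c * r⁻¹, y₁, y, h1, h2, mul_ne_zero h3 (inv_ne_zero hr), h4⟩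

/-- congruence -/
theorem certW_congr {L : Type*} [Field L] {n b : ℕ} {ι : Type*} {e : ι → ℕ}
    {a a' : ι → (Fin (n + 1) →₀ ℕ) → L} (h : ∀ i, ∀ I ∈ expo (Fin (n + 1)) (e i), a i I = a' i I)
    {x : Fin (n + 1) → L} (hc : CertW e a b x) : CertW e a' b x := by
  obtain ⟨A, B, ξ₀, ξ₁, ξ₂, c, y₁, y, h1, h2, h3, h4, h5, h6, h7, h8, h9, h10, h11⟩ := hc
  refine ⟨A, B, ξ₀, ξ₁, ξ₂, c, y₁, y, h1, h2, h3, h4, h5, h6, h7, h8, h9, fun i => ?_, h11⟩
  have : FB (e i) (a' i) B = FB (e i) (a i) B := by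
    unfold FB
    refine Finset.sum_congr rfl fun I hI => ?_
    rw [h i I hI]
  rw [this]
  exact h10 i

/-- larger degrees -/
theorem certW_mono {L : Type*} [Field L] {n b b' : ℕ} (hb : b ≤ b') {ι : Type*} {e : ι → ℕ}
    {a : ι → (Fin (n + 1) →₀ ℕ) → L} {x : Fin (n + 1) → L} (h : CertW e a b x) :
    CertW e a b' x := by
  obtain ⟨A, B, ξ₀, ξ₁, ξ₂, c', y₁, y, h1, h2, h3, h4, h5, h6, h7, h8, h9, h10, h11, h12, h13,
    h14⟩ := h
  refine ⟨A, B, ξ₀, ξ₁, ξ₂, c', y₁, y, ⟨h1.1.trans hb, fun i => (h1.2 i).trans hb⟩,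
    fun j => ⟨(h2 j).1.trans hb, fun i => ((h2 j).2 i).trans hb⟩, h3, h4, h5, h6, h7, h8, h9, h10,
    h11, h12, h13, fun u => ?_⟩
  obtain ⟨P, hP0, hPh, hPd⟩ := h14 u
  refine ⟨MvPolynomial.X 0 ^ (2 * b' - 2 * b) * P,
    mul_ne_zero (pow_ne_zero _ (MvPolynomial.X_ne_zero _)) hP0, ?_, ?_⟩
  · have h := (MvPolynomial.isHomogeneous_X_pow (R := L) (0 : Fin 3) (2 * b' - 2 * b)).mul hPh
    have he : 2 * b' - 2 * b + 2 * b = 2 * b' := by omega
    rwa [he] at h
  · rw [map_mul]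
    exact dvd_mul_of_dvd_right hPd _

/-- **Ultraproducts of certificates are certificates.** -/
theorem certW_germ {L : Type*} [Field L] {n b : ℕ} {ι : Type*} {e : ι → ℕ}
    {a : ι → (Fin (n + 1) →₀ ℕ) → L} {x : ℕ → Fin (n + 1) → L} (h : ∀ N, CertW e a b (x N)) :
    CertW e (fun i I => constHom (a i I)) b (fun j => germHom (fun N => x N j)) := by
  classical
  choose A B ξ₀ ξ₁ ξ₂ c y₁ y hA hB hc hξ₀ hξ₁ hξ₂ hAy hdA hval hF hl₀ hl₁ hl₂ hPu using h
  choose P hP0 hPh hPd using hPu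
  have hAne : ∀ N, A N ≠ 0 := by
    intro N h0
    apply hdA N
    rw [h0]
    simp
  have hbox1 : Box 1 (1 : L[X][X]) := by
    refine ⟨by simp, fun i => ?_⟩
    rw [coeff_one]
    split_ifs <;> simp
  have hboxCX : Box 1 (C X : L[X][X]) := by
    refine ⟨by simp, fun i => ?_⟩
    rw [coeff_C]
    split_ifs <;> simp
  have hboxX : Box 1 (X : L[X][X]) := by
    refine ⟨by simp, fun i => ?_⟩
    rw [coeff_X]
    split_ifs <;> simp
  have e0 : ∀ i N, ∃ Q, FB (e i) (a i) (B N) = A N * Q ∧ Box (e i * b) Q := fun i N =>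
    dvd_box (hAne N) (hF N i) (box_FB (e i) (a i) (hB N))
  have e1 : ∀ N, ∃ Q, ∑ j, C (C (ξ₀ N j)) * B N j - 1 * derivative (A N) = A N * Q ∧
      Box (b + 1) Q := fun N =>
    dvd_box (hAne N) (by rw [one_mul]; exact hl₀ N) (box_lin (hB N) (hA N) hbox1 (ξ₀ N))
  have e2 : ∀ N, ∃ Q, ∑ j, C (C (ξ₁ N j)) * B N j - C X * derivative (A N) = A N * Q ∧
      Box (b + 1) Q := fun N =>
    dvd_box (hAne N) (hl₁ N) (box_lin (hB N) (hA N) hboxCX (ξ₁ N))
  have e3 : ∀ N, ∃ Q, ∑ j, C (C (ξ₂ N j)) * B N j - X * derivative (A N) = A N * Q ∧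
      Box (b + 1) Q := fun N =>
    dvd_box (hAne N) (hl₂ N) (box_lin (hB N) (hA N) hboxX (ξ₂ N))
  choose Q0 hQ0 bQ0 using e0
  choose Q1 hQ1 bQ1 using e1
  choose Q2 hQ2 bQ2 using e2
  choose Q3 hQ3 bQ3 using e3
  obtain ⟨A', hA', hA'1, hA'2⟩ := exists_seqPoly A hA
  have eB : ∀ j, ∃ P' : (ℕ → L)[X][X], (∀ N, m2 (Pi.evalRingHom (fun _ => L) N) P' = B N j) ∧
      P'.natDegree ≤ b ∧ ∀ i, (P'.coeff i).natDegree ≤ b := fun j =>
    exists_seqPoly (fun N => B N j) (fun N => hB N j)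
  choose B' hB' hB'1 hB'2 using eB
  have eQ : ∀ i, ∃ P' : (ℕ → L)[X][X],
      (∀ N, m2 (Pi.evalRingHom (fun _ => L) N) P' = Q0 i N) ∧
      P'.natDegree ≤ e i * b ∧ ∀ k, (P'.coeff k).natDegree ≤ e i * b := fun i =>
    exists_seqPoly (Q0 i) (bQ0 i)
  choose Q0' hQ0' _ _ using eQ
  obtain ⟨Q1', hQ1', -, -⟩ := exists_seqPoly Q1 bQ1
  obtain ⟨Q2', hQ2', -, -⟩ := exists_seqPoly Q2 bQ2
  obtain ⟨Q3', hQ3', -, -⟩ := exists_seqPoly Q3 bQ3
  have hev : ∀ (P' : (ℕ → L)[X][X]) (P : ℕ → L[X][X]),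
      (∀ N, m2 (Pi.evalRingHom (fun _ => L) N) P' = P N) →
      P'.evalEval y₁ y = fun N => (P N).evalEval (y₁ N) (y N) := by
    intro P' P hP
    funext N
    have := m2_evalEval (Pi.evalRingHom (fun _ => L) N) P' y₁ y
    rw [hP] at this
    exact this.symm
  have hdA' : ∀ N, m2 (Pi.evalRingHom (fun _ => L) N) (derivative A') = derivative (A N) := by
    intro N
    rw [m2_derivative, hA']
  refine ⟨m2 germHom A', fun j => m2 germHom (B' j), fun j => germHom (fun N => ξ₀ N j),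
    fun j => germHom (fun N => ξ₁ N j), fun j => germHom (fun N => ξ₂ N j), germHom c,
    germHom y₁, germHom y, box_germ hA'1 hA'2, fun j => box_germ (hB'1 j) (hB'2 j),
    germ_ne_zero hc, ?_, seq_scal hξ₁, seq_scal hξ₂, ?_, ?_, ?_, ?_, ?_, ?_, ?_, ?_⟩
  · have := seq_scal (y := fun _ => (1 : L)) hξ₀
    rw [this]
    exact map_one germHom
  · rw [m2_evalEval, hev A' A hA']
    have : (fun N => (A N).evalEval (y₁ N) (y N)) = 0 := funext hAy
    rw [this, map_zero]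
  · rw [← m2_derivative, m2_evalEval, hev (derivative A') (fun N => derivative (A N)) hdA']
    exact germ_ne_zero hdA
  · intro j
    rw [← m2_derivative, m2_evalEval, m2_evalEval,
      hev (derivative A') (fun N => derivative (A N)) hdA', hev (B' j) (fun N => B N j) (hB' j),
      ← map_mul, ← map_mul]
    congr 1
    funext N
    exact hval N j
  · intro i
    refine ⟨m2 germHom (Q0' i), ?_⟩
    have h1 : ∑ I ∈ expo (Fin (n + 1)) (e i), C (C (fun _ : ℕ => a i I)) * ∏ j, B' j ^ I j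
        = A' * Q0' i := by
      apply seqPoly_ext
      intro N
      rw [map_mul, hA', hQ0', ← hQ0 i N, map_sum]
      unfold FB
      refine Finset.sum_congr rfl fun I _ => ?_
      rw [map_mul, m2_CC, map_prod]
      congr 1
      refine Finset.prod_congr rfl fun j _ => ?_
      rw [map_pow, hB']
    have h2 := congrArg (m2 germHom) h1
    rw [map_sum, map_mul] at h2
    rw [← h2]
    unfold FB
    refine Finset.sum_congr rfl fun I _ => ?_
    rw [map_mul, m2_CC, map_prod]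
    congr 1
    refine Finset.prod_congr rfl fun j _ => ?_
    rw [map_pow]
  · refine ⟨m2 germHom Q1', ?_⟩
    have := seq_lin (T := fun _ => 1) (T' := 1) hA' hQ1' (fun N => map_one _) hB' hQ1
    rwa [map_one, one_mul] at this
  · refine ⟨m2 germHom Q2', ?_⟩
    have := seq_lin (T := fun _ => C X) (T' := C X) hA' hQ2' (fun N => m2_CX _) hB' hQ2
    rwa [m2_CX] at this
  · refine ⟨m2 germHom Q3', ?_⟩
    have := seq_lin (T := fun _ => X) (T' := X) hA' hQ3' (fun N => m2_X _) hB' hQ3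
    rwa [m2_X] at this
  · intro u
    have e4 : ∀ N, ∃ Q, FB (n := 2) (2 * b) (fun I => (P N u).coeff I)
        (fun i => ∑ j, C (C (u i j : L)) * B N j) = A N * Q ∧ Box (2 * b * b) Q := by
      intro N
      refine dvd_box (hAne N) ?_ (box_FB (2 * b) _ fun i => box_lc (hB N) fun j => (u i j : L))
      rw [← aeval_eq_FB (hPh N u)]
      exact hPd N u
    choose Q4 hQ4 bQ4 using e4
    obtain ⟨Q4', hQ4', -, -⟩ := exists_seqPoly Q4 bQ4
    have hG : ∀ i N, m2 (Pi.evalRingHom (fun _ => L) N)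
        (∑ j, C (C ((u i j : ℕ) : ℕ → L)) * B' j) = ∑ j, C (C (u i j : L)) * B N j := by
      intro i N
      rw [m2_lc (Pi.evalRingHom (fun _ => L) N) (u i) B']
      refine Finset.sum_congr rfl fun j _ => ?_
      rw [hB']
    obtain ⟨P', hP'0, hP'h, hP'c⟩ := exists_form (fun N => hP0 N u) (fun N => hPh N u)
    refine ⟨P', hP'0, hP'h, m2 germHom Q4', ?_⟩
    rw [aeval_eq_FB hP'h]
    have h3 := seq_FB (n := 2) (D := 2 * b) hA' hQ4' hG hQ4
    exact (FB_congr' hP'c fun i => (m2_lcg (u i) B').symm).trans h3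

end Pool.Agent.Lib.MP_44a246_ntE
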