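import Mathlib
import Pool.Agent.Lib.MP_44a246_ntL.LMain
import Pool.Agent.Lib.MP_44a246_ntU.U12
import Pool.Agent.Lib.MP_44a246_ntD.D19
import Pool.Agent.Lib.MP_44a246_ntD.D20
import Pool.Agent.Lib.MP_44a246_ntK.K10
import Pool.Agent.Lib.MP_44a246_ntK.K12
import Pool.Agent.Lib.MP_44a246_ntK.K22
import Pool.Agent.Lib.MP_44a246_ntC.C16
import Pool.Agent.Lib.MP_44a246_ntK.K23
import Pool.Agent.Lib.MP_44a246_ntE.E09
import Pool.Agent.Lib.MP_44a246_ntE.E10
import Pool.Agent.Lib.MP_44a246_ntE.E11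
import Pool.Agent.Lib.MP_44a246_ntE.E12
import Pool.Agent.Lib.MP_44a246_ntE.E13
import Pool.Agent.Lib.MP_44a246_ntE.E30

/-!
**Step E**: the points of a section `t_j = H_j (x)` of a weighted projective variety on plane
curves of small degree move in few directions. The number of the parameters of the curve is
compared with the number of the conditions. The version for all the variables `t_j`.
-/

namespace Pool.Agent.Lib.MP_44a246_ntE

open Pool.Agent.Lib.MP_44a246_ntK
open Pool.Agent.Lib.MP_44a246_ntR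
open Pool.Agent.Lib.MP_44a246_ntC
open Pool.Agent.Lib.MP_44a246_ntD
open Pool.Agent.Lib.MP_44a246_ntQ
open Pool.Agent.Lib.MP_e52354_nt
open Pool.Agent.Lib.MP_44a246_nt
open Pool.Agent.Lib.MP_44a246_ntL
open Pool.Agent.Lib.MP_44a246_ntS
open Pool.Agent.Lib.MP_44a246_ntG
open Pool.Agent.Lib.MP_44a246_ntU
open WithZero Polynomial Module

universe u

/-- an intermediate field which contains `X` and `Y` -/
private theorem top_of_mem {κ M : Type*} [Field κ] [Field M] [Algebra κ M] [Algebra κ[X] M]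
    [IsScalarTower κ κ[X] M] [Algebra (RatFunc κ) M] [IsScalarTower κ[X] (RatFunc κ) M] {Y : M}
    (hgen : IntermediateField.adjoin (RatFunc κ) {Y} = ⊤) (F : IntermediateField κ M)
    (hX : algebraMap κ[X] M X ∈ F) (hY : Y ∈ F) : F = ⊤ := by
  have h1 : ∀ g : κ[X], algebraMap κ[X] M g ∈ F := by
    intro g
    have h2 : algebraMap κ[X] M g = aeval (algebraMap κ[X] M X) g := by
      rw [aeval_algebraMap_apply, aeval_X_left_apply]
    rw [h2, aeval_eq_sum_range]
    exact sum_mem fun i _ => F.smul_mem (pow_mem hX i)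
  have h2 : ∀ u : RatFunc κ, algebraMap (RatFunc κ) M u ∈ F := by
    intro u
    obtain ⟨a, b, hb, rfl⟩ := IsFractionRing.div_surjective (A := κ[X]) u
    rw [map_div₀, ← IsScalarTower.algebraMap_apply, ← IsScalarTower.algebraMap_apply]
    exact div_mem (h1 a) (h1 b)
  let G : IntermediateField (RatFunc κ) M := { F.toSubfield with algebraMap_mem' := h2 }
  have h3 : G = ⊤ := by
    rw [eq_top_iff, ← hgen, IntermediateField.adjoin_le_iff, Set.singleton_subset_iff]
    exact hY
  rw [eq_top_iff]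
  intro z _
  have h4 : z ∈ G := by
    rw [h3]
    exact IntermediateField.mem_top
  exact h4

/-- **Step E**, for points which need not be generic. -/
theorem no_certWK_der {κ : Type u} [Field κ] [IsAlgClosed κ] [CharZero κ] {k : Type*} [Field k]
    [CharZero k] [Algebra k κ] {n m' p r b s : ℕ} {d : Fin p → ℕ} (hr : 2 ≤ r)
    (hd : 2 * r + s ≤ (∑ j, d j) + m' + p) (hd1 : r + 1 ≤ ∑ j, d j)
    (hd2 : (p + 3) * (2 * b) ≤ (∑ j, d j) + p) (hdb : ∀ j, 2 * b ≤ d j)
    {ι : Type*} {e : ι → ℕ} {f : ι → MvPolynomial (Fin p ⊕ Fin (n + 1)) k}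
    (hf : ∀ i, (f i).IsWeightedHomogeneous (wtP (n + 1) d) (e i))
    (hdim : ringKrullDim (MvPolynomial (Fin p ⊕ Fin (n + 1)) k ⧸ Ideal.span (Set.range f)) ≤
      ((r + 1 : ℕ) : ℕ))
    {a : Fin p → (Fin (n + 1) →₀ ℕ) → κ} (δ : Fin m' → Derivation ℤ κ κ)
    (hδk : ∀ i, ∀ u : k, δ i (algebraMap k κ u) = 0)
    (hδa : ∀ i j, ∀ I ∈ expo (Fin (n + 1)) (d j), δ i (a j I) = 0)
    {P : Finset (Fin p × (Fin (n + 1) →₀ ℕ))} (hP : P.card ≤ s)
    (W : Fin p → (Fin (n + 1) →₀ ℕ) → Derivation ℤ κ κ)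
    (hWk : ∀ b I, ∀ u : k, W b I (algebraMap k κ u) = 0)
    (hWa : ∀ b, ∀ I ∈ expo (Fin (n + 1)) (d b), ∀ b', ∀ J ∈ expo (Fin (n + 1)) (d b'),
      (b', J) ∉ P → W b I (a b' J) = if (b, I) = (b', J) then 1 else 0)
    {x : Fin (n + 1) → κ}
    (hx : LinearIndependent κ
      (Fin.cons x (fun i k => δ i (x k)) : Fin (m' + 1) → Fin (n + 1) → κ))
    (hne : NDegP f x) : ¬ CertW e (aWP d a f) b x := by
  classical
  obtain ⟨R, rfl⟩ : ∃ R, r = R + 2 := ⟨r - 2, by omega⟩
  rintro ⟨A, Bv, ξ₀, ξ₁, ξ₂, c, y₁, y, hboxA, -, hc, hξ₀, hξ₁, hξ₂, hA, hAY, hB, hF, h0, h1, h2,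
    hproj⟩
  set α := (derivative A).evalEval y₁ y with hα
  obtain ⟨g, hirr, hf0, hfdeg, hfA, hfz⟩ := exists_factor hA hAY
  refine with_curve hirr hf0 ?_
  intro M _ _ _ _ _ _ _ _ _ Y hY hgen hfin ht halg
  set φ := algebraMap κ M with hφ
  set X' : M := algebraMap κ[X] M X with hX'
  -- specialisation
  have hspec : ∀ G : κ[X][X], evalEvalRingHom y₁ y G ≠ 0 → ev φ X' Y G ≠ 0 := by
    intro G hG h3
    rw [hX', ev_aeval, hY] at h3
    obtain ⟨q, rfl⟩ := h3
    apply hG
    rw [map_mul]
    have h4 : evalEvalRingHom y₁ y g = 0 := hfz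
    rw [h4, zero_mul]
  have hevA : ∀ G : κ[X][X], A ∣ G → ev φ X' Y G = 0 := by
    intro G hG
    rw [hX', ev_aeval, hY]
    exact hfA.trans hG
  have hAP : ev φ X' Y A = 0 := hevA A dvd_rfl
  have hAYP : ev φ X' Y (derivative A) ≠ 0 := hspec _ hAY
  set ω := ev φ X' Y (derivative A) with hω
  set γ : Fin (n + 1) → M := fun j => ev φ X' Y (Bv j) with hγdef
  -- the relations between `γ` and the projection
  have hsum : ∀ ξ : Fin (n + 1) → κ, ev φ X' Y (∑ j, C (C (ξ j)) * Bv j) = ∑ j, φ (ξ j) * γ j := by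
    intro ξ
    rw [map_sum]
    refine Finset.sum_congr rfl fun j _ => ?_
    rw [map_mul, ev_C_C]
  have r0 : ∑ j, φ (ξ₀ j) * γ j = ω := by
    rw [← hsum, ← sub_eq_zero, hω, ← map_sub]
    exact hevA _ h0
  have r1 : ∑ j, φ (ξ₁ j) * γ j = X' * ω := by
    rw [← hsum, ← sub_eq_zero, hω]
    have h4 : X' * ev φ X' Y (derivative A) = ev φ X' Y (C X * derivative A) := by
      rw [map_mul, ev_C_X]
    rw [h4, ← map_sub]
    exact hevA _ h1
  have r2 : ∑ j, φ (ξ₂ j) * γ j = Y * ω := by
    rw [← hsum, ← sub_eq_zero, hω]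
    have h4 : Y * ev φ X' Y (derivative A) = ev φ X' Y (X * derivative A) := by
      rw [map_mul, ev_X]
    rw [h4, ← map_sub]
    exact hevA _ h2
  have hγ : γ ≠ 0 := by
    intro h3
    apply hAYP
    rw [← r0, h3]
    simp
  -- the structure of an algebra over `k`
  let _ : Algebra k M := ((algebraMap κ M).comp (algebraMap k κ)).toAlgebra
  have hkM : ∀ u : k, algebraMap k M u = algebraMap κ M (algebraMap k κ u) := fun u => rfl
  have tkM : IsScalarTower k κ M := IsScalarTower.of_algebraMap_eq hkM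
  -- `γ` is a zero of all the forms
  have hFo : ∀ o : ι, Fval (e o) (fun I => algebraMap κ M (aWP d a f o I)) γ = 0 := by
    intro o
    have h3 := hevA _ (hF o)
    rw [← h3]
    unfold FB Fval mon
    rw [map_sum]
    refine Finset.sum_congr rfl fun I _ => ?_
    rw [map_mul, ev_C_C, map_prod]
    congr 1
    refine Finset.prod_congr rfl fun j _ => ?_
    rw [map_pow]
  set η : Fin p → M := fun j => Fval (d j) (fun I => algebraMap κ M (a j I)) γ with hη
  have hfγ : ∀ i, MvPolynomial.aeval (Sum.elim η γ : Fin p ⊕ Fin (n + 1) → M) (f i) = 0 := by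
    intro i
    rw [hη, ← Fval_aWP hf a γ i]
    exact hFo i
  -- the relation between the derivatives of the value of the form
  have hne' : NDegP f γ := by
    set β := α * c with hβ
    have hβ0 : β ≠ 0 := mul_ne_zero hAY hc
    have hsm := hne.smul hf hβ0
    intro j
    obtain ⟨i, hi, τ, hτ⟩ := hsm j
    set G : κ[X][X] := MvPolynomial.aeval (Sum.elim (fun _ => C (C τ)) Bv :
      Fin p ⊕ Fin (n + 1) → κ[X][X]) (f i) with hG
    have h3 : ∀ (S : Type u) [Field S] [Algebra k S] (ψ : κ[X][X] →+* S)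
        (_ : ∀ u : k, ψ (algebraMap k κ[X][X] u) = algebraMap k S u),
        ψ G = MvPolynomial.aeval (Sum.elim (fun _ => ψ (C (C τ))) (fun j => ψ (Bv j)) :
          Fin p ⊕ Fin (n + 1) → S) (f i) := by
      intro S _ _ ψ hψ
      rw [hG, MvPolynomial.aeval_def, MvPolynomial.hom_eval₂, MvPolynomial.aeval_def]
      congr 1
      · exact RingHom.ext hψ
      · funext t
        rcases t with t | t <;> rfl
    have h4 : evalEvalRingHom y₁ y G ≠ 0 := by
      rw [h3 κ (evalEvalRingHom y₁ y) (fun u => by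
        rw [IsScalarTower.algebraMap_apply k κ κ[X][X]]
        show evalEval y₁ y (C (C (algebraMap k κ u))) = _
        rw [evalEval_C, eval_C])]
      have h5 : (Sum.elim (fun _ => evalEvalRingHom y₁ y (C (C τ)))
          (fun j => evalEvalRingHom y₁ y (Bv j)) : Fin p ⊕ Fin (n + 1) → κ) =
          Sum.elim (fun _ => τ) fun j => β * x j := by
        funext t
        rcases t with t | t
        · show evalEval y₁ y (C (C τ)) = τ
          rw [evalEval_C, eval_C]
        · show evalEval y₁ y (Bv t) = β * x t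
          rw [← hB t, hβ, mul_assoc]
      rw [h5]
      exact hτ
    have h6 := hspec G h4
    rw [h3 M (ev φ X' Y) (fun u => by
      rw [IsScalarTower.algebraMap_apply k κ κ[X][X], hkM]
      show ev φ X' Y (C (C (algebraMap k κ u))) = _
      rw [ev_C_C])] at h6
    exact ⟨i, hi, _, h6⟩
  choose cr hcr hcrγ using fun j => hne'.rel hf hfγ j
  obtain ⟨l, hl⟩ : ∃ l, γ l ≠ 0 := by
    by_contra hcon
    push Not at hcon
    exact hγ (funext hcon)
  obtain ⟨T, hT, hγT, hDT⟩ := exists_tangent (k := k) (r := R + 2) hl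
    (fun p j hj => card_le_of_dimP hf hdim hfγ hl hj)
  have hMff : IsFF κ M := by
    have t : IsScalarTower κ (RatFunc κ) M := by
      refine IsScalarTower.of_algebraMap_eq fun u => ?_
      rw [IsScalarTower.algebraMap_apply κ κ[X] M,
        IsScalarTower.algebraMap_apply κ κ[X] (RatFunc κ),
        ← IsScalarTower.algebraMap_apply κ[X] (RatFunc κ) M]
    exact (sp5b_isFF κ).of_finite
  -- the field of the point
  have hgen' : pointField κ γ = ⊤ := by
    have hmem : ∀ ξ : Fin (n + 1) → κ, (∑ j, φ (ξ j) * γ j) / γ l ∈ pointField κ γ := by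
      intro ξ
      rw [Finset.sum_div]
      refine sum_mem fun j _ => ?_
      rw [mul_div_assoc]
      exact mul_mem ((pointField κ γ).algebraMap_mem _)
        (IntermediateField.subset_adjoin _ _ ⟨j, l, rfl⟩)
    refine top_of_mem hgen _ ?_ ?_
    · have h6 : X' = ((∑ j, φ (ξ₁ j) * γ j) / γ l) / ((∑ j, φ (ξ₀ j) * γ j) / γ l) := by
        rw [r0, r1]
        field_simp
      rw [← hX', h6]
      exact div_mem (hmem ξ₁) (hmem ξ₀)
    · have h6 : Y = ((∑ j, φ (ξ₂ j) * γ j) / γ l) / ((∑ j, φ (ξ₀ j) * γ j) / γ l) := by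
        rw [r0, r2]
        field_simp
      rw [h6]
      exact div_mem (hmem ξ₂) (hmem ξ₀)
  -- generic linear forms
  obtain ⟨u, hω₀, hmax, htr, hgen₂, hinj⟩ := exists_lin_forms hMff hγ hgen' (R := R) hT
  set ω₀ : M := ∑ j, (u 0 j : M) * γ j with hω₀d
  set z : Fin (R + 3) → M := fun i => (∑ j, (u i j : M) * γ j) / ω₀ with hzd
  set γh : Fin (n + 1) → M := fun j => γ j / ω₀ with hγh
  -- the functionals
  set aM : Fin p → (Fin (n + 1) →₀ ℕ) → M := fun j I => algebraMap κ M (a j I) with haM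
  set cr' : Fin p → Fin (n + 1) → M := fun j k => grad (d j) (aM j) γ k - cr j k with hcr'
  have hsplit : ∀ j, ∀ v : Fin (n + 1) → M, ∑ k, cr' j k * v k =
      ∑ k, grad (d j) (aM j) γ k * v k - ∑ k, cr j k * v k := by
    intro j v
    rw [← Finset.sum_sub_distrib]
    exact Finset.sum_congr rfl fun k _ => sub_mul _ _ _
  have hg0 : ∀ j, ∑ k, cr' j k * γ k = 0 := by
    intro j
    rw [hsplit, grad_euler, hcrγ, hη, sub_self]
  have hgder : ∀ j, ∀ F : Derivation ℤ M M, (∀ u : k, F (algebraMap k M u) = 0) →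
      ∑ k, cr' j k * F (γ k) =
        - ∑ I ∈ expo (Fin (n + 1)) (d j), F (aM j I) * mon γ I := by
    intro j F hFk
    rw [hsplit, ← hcr j F hFk, hη, D_Fval (d j) (aM j) F γ]
    ring
  set Λ : Fin p → Fin p → M := fun b j => if b = j then 1 else 0 with hΛd
  have hgder' : ∀ b, ∀ F : Derivation ℤ M M, (∀ u : k, F (algebraMap k M u) = 0) →
      ∑ k, cr' b k * F (γ k) =
        - ∑ j, Λ b j * ∑ I ∈ expo (Fin (n + 1)) (d j), F (aM j I) * mon γ I := by
    intro b F hFk
    rw [hgder b F hFk, Finset.sum_eq_single b]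
    · rw [show Λ b b = 1 from if_pos rfl, one_mul]
    · intro j _ hj
      rw [show Λ b j = 0 from if_neg (Ne.symm hj), zero_mul]
    · intro h
      exact absurd (Finset.mem_univ _) h
  have hΛ : ∀ b b', Λ b (id b' : Fin p) = if b = b' then 1 else 0 := fun b b' => rfl
  -- the derivations
  set D₀ : ↥(tset d (id : Fin p → Fin p) P) ⊕ Fin m' → Derivation ℤ κ κ :=
    Sum.elim (fun t => W (id t.1.1) t.1.2) δ with hD₀
  have hfd : FiniteDimensional (IntermediateField.adjoin κ {z 1}) M := finite_over_adjoin hMff htr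
  have halg1 : Algebra.IsAlgebraic (IntermediateField.adjoin κ {z 1}) M := inferInstance
  choose Dh hDhκ hDhX using fun t => exists_der_ext htr halg1 (D₀ t) 0
  have hFκ : ∀ (c : ↥(tset d (id : Fin p → Fin p) P) ⊕ Fin m' → κ) (u : κ),
      Dc Dh c (algebraMap κ M u) = algebraMap κ M (Dc D₀ c u) := by
    intro c u
    rw [Dc_apply, Dc_apply, map_sum]
    refine Finset.sum_congr rfl fun t _ => ?_
    rw [hDhκ, map_mul]
    rfl
  have hFk : ∀ (c : ↥(tset d (id : Fin p → Fin p) P) ⊕ Fin m' → κ) (u : k), Dc Dh c (algebraMap k M u) = 0 := by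
    intro c u
    rw [hkM, hFκ, Dc_apply, Finset.sum_eq_zero, map_zero]
    intro t _
    rcases t with t | i
    · rw [hD₀, Sum.elim_inl, hWk, mul_zero]
    · rw [hD₀, Sum.elim_inr, hδk, mul_zero]
  obtain ⟨S, mm, q, J, s', hmm, hq, hSz, hpow, hcase⟩ := count_ff hMff (z := z) (γ := γh)
    (D := Dh) (D₀ := D₀) (by
      intro i
      have h3 : z i = ∑ j, (u i j : κ) • γh j := by
        rw [hzd, hγh]
        simp only
        rw [Finset.sum_div]
        refine Finset.sum_congr rfl fun j _ => ?_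
        rw [Algebra.smul_def, map_natCast, mul_div_assoc]
      rw [h3]
      exact Submodule.sum_mem _ fun j _ => Submodule.smul_mem _ _
        (Submodule.subset_span (Set.mem_range_self j)))
    (by rw [hzd]; exact div_self hω₀) htr (by
      intro w
      have h3 : γh = fun j => ω₀⁻¹ * γ j := by
        funext j
        rw [hγh]
        simp only
        rw [div_eq_mul_inv, mul_comm]
      have hw0 : w.1 ω₀ ≠ 0 := w.1.ne_zero_iff.2 hω₀
      rw [h3, vmax_smul]
      refine (mul_le_mul_right (hmax w) (w.1 ω₀⁻¹)).trans ?_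
      rw [mul_max, ← map_mul, ← map_mul, inv_mul_cancel₀ hω₀, map_one]
      refine max_le_max le_rfl (le_of_eq ?_)
      rw [inv_mul_eq_div]) hgen₂ hDhκ hDhX
  -- the derivations of `S` do not move the point
  have hSγ : ∀ c ∈ S, ∀ j, Dc Dh c (γ j / ω₀) = 0 := by
    intro c hc
    set F := Dc Dh c with hF'
    have h3 : (fun j => F (γ j) - (F ω₀ / ω₀) * γ j) = 0 := by
      refine hinj _ ?_ ?_
      · exact T.sub_mem (hDT F (hFk c)) (T.smul_mem (F ω₀ / ω₀) hγT)
      · intro i
        have h4 : ∑ j, (u i j : M) * γ j = z i * ω₀ := by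
          rw [hzd]
          simp only
          rw [div_mul_cancel₀ _ hω₀]
        have h5 : ∑ j, (u i j : M) * F (γ j) = z i * F ω₀ := by
          have h6 : F (∑ j, (u i j : M) * γ j) = ∑ j, (u i j : M) * F (γ j) := by
            rw [map_sum]
            refine Finset.sum_congr rfl fun j _ => ?_
            rw [Derivation.leibniz, Derivation.map_natCast, smul_zero, add_zero, smul_eq_mul]
          rw [← h6, h4, Derivation.leibniz, hSz c hc i, smul_zero, add_zero, smul_eq_mul]
        have h6 : ∀ j, (u i j : M) * (F (γ j) - (F ω₀ / ω₀) * γ j) =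
            (u i j : M) * F (γ j) - (F ω₀ / ω₀) * ((u i j : M) * γ j) := fun j => by ring
        simp only [h6]
        rw [Finset.sum_sub_distrib, ← Finset.mul_sum, h5, h4]
        field_simp
        ring
    intro j
    have h4 := congrFun h3 j
    have h5 : F (γ j) = (F ω₀ / ω₀) * γ j := sub_eq_zero.1 h4
    have h6 : F (γ j / ω₀ * ω₀) = F (γ j) := by rw [div_mul_cancel₀ _ hω₀]
    rw [Derivation.leibniz, smul_eq_mul, smul_eq_mul, h5] at h6
    have h7 : ω₀ * F (γ j / ω₀) = 0 := by
      have h8 : γ j / ω₀ * F ω₀ = F ω₀ / ω₀ * γ j := by ring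
      rw [h8] at h6
      linear_combination h6
    exact (mul_eq_zero.1 h7).resolve_left hω₀
  -- the count
  have hcount := count_forms (v := fun j => (vf A (cX κ) (Bv j)).evalEval y₁ y) (γ := γh) (q := q)
    δ hδa hP W hWa hx Function.injective_id (fun t => rfl) (fun i => rfl) hq (fun c hc h3 b => by
      refine forms_vanish hΛ hg0 (hFκ c) (fun b => ?_) hω₀ (hSγ c hc) h3 b
      exact hgder' b (Dc Dh c) (hFk c))
    (fun c hcS h3 => by
      set F := Dc Dh c with hF'
      set δ' := Dc δ (fun i => c (Sum.inr i)) with hδ'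
      have hFδ : ∀ u : κ, F (algebraMap κ M u) = algebraMap κ M (δ' u) := by
        intro u
        rw [hF', hFκ, Dc_apply, hδ', Dc_apply, Fintype.sum_sum_type]
        congr 1
        rw [Finset.sum_eq_zero, zero_add]
        · rfl
        · intro t _
          rw [h3, map_zero, zero_mul]
      refine der_x_mem hA hAY (mul_ne_zero hAY hc) (fun j => by rw [mul_assoc]; exact hB j) h0 h1
        δ' ?_
      intro hli
      have h4 := indep_of_spec (evalEvalRingHom y₁ y) (ev φ X' Y) hspec
        (N := (![Bv, fun j => vf A (cX κ) (Bv j), fun j => vf A (cE δ') (Bv j)] :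
          Fin 3 → Fin (n + 1) → κ[X][X])) (by
          convert hli using 1
          funext i
          fin_cases i <;> rfl)
      -- the third vector is a combination of the others
      have hFγ : ∀ j, F (γ j) = (F ω₀ / ω₀) * γ j := by
        intro j
        have h5 : F (γ j / ω₀ * ω₀) = F (γ j) := by rw [div_mul_cancel₀ _ hω₀]
        rw [Derivation.leibniz, hSγ c hcS j, smul_zero, add_zero, smul_eq_mul] at h5
        rw [← h5]
        ring
      have hFe : ∀ j, ω * F (γ j) = ev φ X' Y (vf A (cE δ') (Bv j)) +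
          F X' * ev φ X' Y (vf A (cX κ) (Bv j)) := fun j => ev_vf φ δ' F hFδ hAP (Bv j)
      rw [Fintype.linearIndependent_iff] at h4
      have h5 := h4 ![ω * (F ω₀ / ω₀), - F X', -1] (by
        rw [Fin.sum_univ_three]
        funext j
        simp only [Matrix.cons_val_zero, Matrix.cons_val_one, Matrix.cons_val, Pi.add_apply,
          Pi.smul_apply, smul_eq_mul, Pi.zero_apply]
        have h6 := hFe j
        rw [hFγ j] at h6
        have h7 : ev φ X' Y (Bv j) = γ j := rfl
        rw [h7]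
        linear_combination h6) 2
      simp at h5)
  -- the degree
  have hdeg : mm ≤ 2 * b := by
    obtain ⟨Q, hQ0, hQh, hQ⟩ := hproj (fun i => u (Fin.castLE (by omega) i))
    have h3 := hevA _ hQ
    have h4 : ev φ X' Y (MvPolynomial.aeval (fun i : Fin 3 => ∑ j,
        C (C ((u (Fin.castLE (by omega) i) j : ℕ) : κ)) * Bv j) Q) =
        MvPolynomial.aeval (fun i => ω₀ * (![1, z 1, z 2] : Fin 3 → M) i) Q := by
      rw [MvPolynomial.aeval_def, MvPolynomial.hom_eval₂, MvPolynomial.aeval_def]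
      congr 1
      · ext c
        show ev φ X' Y (C (C c)) = _
        rw [ev_C_C]
      · funext i
        have h5 : ∀ i : Fin (R + 3), ω₀ * z i = ∑ j, (u i j : M) * γ j := by
          intro i
          rw [hzd]
          simp only
          rw [mul_div_cancel₀ _ hω₀]
        have h6 : ∀ i : Fin (R + 3), ev φ X' Y (∑ j, C (C ((u i j : ℕ) : κ)) * Bv j) =
            ω₀ * z i := by
          intro i
          rw [h5, hsum]
          refine Finset.sum_congr rfl fun j _ => ?_
          rw [map_natCast]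
        have h7 : z 0 = 1 := div_self hω₀
        fin_cases i
        · show ev φ X' Y (∑ j, C (C ((u 0 j : ℕ) : κ)) * Bv j) = ω₀ * 1
          rw [h6, h7]
        · exact h6 1
        · exact h6 2
    rw [h4, Pool.Agent.Lib.MP_44a246_ntU.aeval_eq_Fval hQh, Fval_smul,
      ← Pool.Agent.Lib.MP_44a246_ntU.aeval_eq_Fval hQh] at h3
    have h5 : MvPolynomial.aeval (![1, z 1, z 2] : Fin 3 → M) Q = 0 :=
      (mul_eq_zero.1 h3).resolve_left (pow_ne_zero _ hω₀)
    have h6 := degree_le_form hMff htr hgen₂ hQ0 hQh h5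
    rw [hmm] at h6
    exact_mod_cast h6
  -- the inequalities
  have e4 : (p + 3) * mm ≤ (p + 3) * (2 * b) := Nat.mul_le_mul_left _ hdeg
  have h5 := numE (R := R) (ρ := p) (σ := ∑ b, d b + p) (τ := m') (c := s) (by omega)
    (by omega) (by omega) hcase
  have h6 : ∀ b, mm * (d b + 1) ≤
      finrank κ ↥(Submodule.span κ (Set.range γh) ^ d b) + J := fun b =>
    hpow _ (hdeg.trans (hdb _))
  have h7 := Finset.sum_le_sum fun b (_ : b ∈ (Finset.univ : Finset (Fin p))) => h6 b
  rw [Finset.sum_add_distrib, ← Finset.mul_sum, Finset.sum_add_distrib, Finset.sum_const,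
    Finset.sum_const, Finset.card_univ, Fintype.card_fin, smul_eq_mul, smul_eq_mul, mul_one] at h7
  simp only [id] at hcount
  omega

end Pool.Agent.Lib.MP_44a246_ntE
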