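import Mathlib
import Pool.Agent.Lib.MP_44a246_ntD.D20
import Pool.Agent.Lib.MP_44a246_ntE.E16

/-!
Step E for a point of a section `t_j = H_j (x)` with `m` algebraically independent coordinates over
an algebraically closed field, if all but `s` of the coefficients of the forms `H_j` are
algebraically independent.
-/

namespace Pool.Agent.Lib.MP_44a246_ntE

open Pool.Agent.Lib.MP_44a246_ntK
open Pool.Agent.Lib.MP_44a246_ntD
open Pool.Agent.Lib.MP_44a246_ntQ
open Pool.Agent.Lib.MP_e52354_nt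
open Pool.Agent.Lib.MP_44a246_nt
open Pool.Agent.Lib.MP_44a246_ntL
open Pool.Agent.Lib.MP_44a246_ntS
open Pool.Agent.Lib.MP_44a246_ntG
open Pool.Agent.Lib.MP_44a246_ntU
open Module

universe u

/-- **Step E** over an algebraically closed field -/
theorem no_certWK_closed {κ : Type u} [Field κ] [IsAlgClosed κ] [CharZero κ] {k : Type*} [Field k]
    [CharZero k] [Algebra k κ] {n m p r b s : ℕ} {d : Fin p → ℕ} (hr : 2 ≤ r)
    (hd : 2 * r + s ≤ (∑ j, d j) + m + p) (hd1 : r + 1 ≤ ∑ j, d j)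
    (hd2 : (p + 3) * (2 * b) ≤ (∑ j, d j) + p) (hdb : ∀ j, 2 * b ≤ d j)
    {ι : Type*} {e : ι → ℕ}
    {f : ι → MvPolynomial (Fin p ⊕ Fin (n + 1)) k}
    (hf : ∀ i, (f i).IsWeightedHomogeneous (wtP (n + 1) d) (e i))
    (hdim : ringKrullDim (MvPolynomial (Fin p ⊕ Fin (n + 1)) k ⧸ Ideal.span (Set.range f)) ≤
      ((r + 1 : ℕ) : ℕ))
    {a : Fin p → (Fin (n + 1) →₀ ℕ) → κ} {P : Finset (Fin p × (Fin (n + 1) →₀ ℕ))}
    (hP : P.card ≤ s)
    (ha : AlgebraicIndependent k (fun s : {s // s ∈ jexpo n d ∧ s ∉ P} => a s.1.1 s.1.2))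
    {k₂ : Type*} [Field k₂] [CharZero k₂] [Algebra k k₂] [Algebra k₂ κ] [IsScalarTower k k₂ κ]
    {a₂ : Fin p → (Fin (n + 1) →₀ ℕ) → k₂}
    (ha₂ : ∀ j, ∀ I ∈ expo (Fin (n + 1)) (d j), algebraMap k₂ κ (a₂ j I) = a j I)
    {x : Fin (n + 1) → κ} {l : Fin (n + 1)} (hl : x l ≠ 0) {j : Fin m → Fin (n + 1)}
    (hind : AlgebraicIndependent k₂ (fun i : Fin m => x (j i) / x l))
    (hne : NDegP f x) :
    ¬ CertW e (aWP d a f) b x := by
  classical
  choose δ hδ using fun i : Fin m => exists_der_indepV hind (fun i' => if i = i' then 1 else 0)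
  choose W hW using fun I : Fin p × (Fin (n + 1) →₀ ℕ) => exists_der_indepV ha
    (fun J => if I = J.1 then (1 : κ) else 0)
  refine no_certWK_der hr hd hd1 hd2 hdb hf hdim δ (fun i u => ?_) (fun i j' I hI => ?_) hP
    (fun b I => W (b, I)) (fun b I u => (hW (b, I)).1 u)
    (fun b I _ b' J hJ hJP => (hW (b, I)).2 ⟨(b', J), mem_jexpo.2 hJ, hJP⟩)
    (indep_pointE (j := j) hl δ fun i i' => ?_) hne
  · rw [IsScalarTower.algebraMap_apply k k₂ κ]
    exact (hδ i).1 _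
  · rw [← ha₂ j' I hI]
    exact (hδ i).1 _
  · exact (hδ i).2 i'

end Pool.Agent.Lib.MP_44a246_ntE
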