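import Mathlib
import Pool.Agent.Lib.MP_44a246_ntW.W03

/-!
Base change to an algebraic closure: absolute irreducibility of a curve with a smooth rational
point, divisibility and independence.
-/

namespace Pool.Agent.Lib.MP_44a246_ntE

open Pool.Agent.Lib.MP_44a246_ntW
open Polynomial Module

/-- the base change of polynomials in two variables -/
noncomputable def mp (L F : Type*) [Field L] [Field F] [Algebra L F] : L[X][X] →+* F[X][X] :=
  mapRingHom (mapRingHom (algebraMap L F))

section

variable {L F : Type*} [Field L] [Field F] [Algebra L F]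

theorem mp_coeff (P : L[X][X]) (i j : ℕ) :
    ((mp L F P).coeff i).coeff j = algebraMap L F ((P.coeff i).coeff j) := by
  unfold mp
  rw [coe_mapRingHom, coeff_map, coe_mapRingHom, coeff_map]

theorem mp_injective : Function.Injective (mp L F) := by
  intro P Q h
  ext i j
  have h1 := congrArg (fun G : F[X][X] => (G.coeff i).coeff j) h
  simp only [mp_coeff] at h1
  exact (algebraMap L F).injective h1

/-- a functional applied to the coefficients -/
noncomputable def fn (φ : F →ₗ[L] L) (P : F[X][X]) : L[X][X] :=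
  P.sum fun i p => monomial i (p.sum fun j c => monomial j (φ c))

private theorem fn_inner (φ : F →ₗ[L] L) (p : F[X]) (j : ℕ) :
    (p.sum fun j c => (monomial j (φ c) : L[X])).coeff j = φ (p.coeff j) := by
  rw [Polynomial.sum_def, finset_sum_coeff]
  simp only [coeff_monomial]
  rw [Finset.sum_ite_eq']
  split_ifs with h
  · rfl
  · rw [notMem_support_iff.mp h, map_zero]

theorem fn_coeff (φ : F →ₗ[L] L) (P : F[X][X]) (i j : ℕ) :
    ((fn φ P).coeff i).coeff j = φ ((P.coeff i).coeff j) := by
  unfold fn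
  rw [Polynomial.sum_def, finset_sum_coeff]
  simp only [coeff_monomial]
  rw [Finset.sum_ite_eq']
  split_ifs with h
  · exact fn_inner φ _ j
  · rw [notMem_support_iff.mp h, coeff_zero, coeff_zero, map_zero]

/-- a functional commutes with the multiplication with polynomials over `L` -/
theorem fn_mul (φ : F →ₗ[L] L) (P : F[X][X]) (Q : L[X][X]) :
    fn φ (mp L F Q * P) = Q * fn φ P := by
  -- `coeff_mul` twice
  ext i j
  rw [fn_coeff, coeff_mul, coeff_mul, finset_sum_coeff, finset_sum_coeff, map_sum]
  refine Finset.sum_congr rfl fun x _ => ?_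
  rw [coeff_mul, coeff_mul, map_sum]
  refine Finset.sum_congr rfl fun y _ => ?_
  rw [mp_coeff, fn_coeff, ← Algebra.smul_def, map_smul, smul_eq_mul]

/-- descent of divisibility -/
theorem dvd_fn (φ : F →ₗ[L] L) {A : L[X][X]} {P : F[X][X]} (h : mp L F A ∣ P) : A ∣ fn φ P := by
  obtain ⟨Q, rfl⟩ := h
  rw [fn_mul]
  exact dvd_mul_right _ _

/-- independent polynomials remain independent over a larger field -/
theorem indep_mp {ι : Type*} {G : ι → L[X][X]} (hG : LinearIndependent L G) :
    LinearIndependent F fun i => mp L F (G i) := by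
  -- a relation `∑ ω i G i = 0`: apply all the functionals `φ : F → L` (`fn`): `∑ φ (ω i) G i = 0`,
  -- so `φ (ω i) = 0` for all `φ`, `ω i = 0` (`Module.forall_dual_apply_eq_zero_iff`)
  rw [linearIndependent_iff'] at hG ⊢
  intro s g hg i hi
  refine (Module.forall_dual_apply_eq_zero_iff L (g i)).mp fun φ => ?_
  refine hG s (fun k => φ (g k)) ?_ i hi
  ext a b
  have h1 := congrArg (fun G : F[X][X] => φ ((G.coeff a).coeff b)) hg
  simp only [finset_sum_coeff, coeff_smul, smul_eq_mul, mp_coeff, coeff_zero, map_zero,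
    map_sum] at h1 ⊢
  rw [← h1]
  refine Finset.sum_congr rfl fun k _ => ?_
  rw [mul_comm (g k), ← Algebra.smul_def, map_smul, smul_eq_mul, mul_comm]

private theorem fn_mp {φ : F →ₗ[L] L} (hφ : φ 1 = 1) (A : L[X][X]) : fn φ (mp L F A) = A := by
  ext i j
  rw [fn_coeff, mp_coeff, Algebra.algebraMap_eq_smul_one, map_smul, hφ, smul_eq_mul, mul_one]

private theorem exists_fn (L F : Type*) [Field L] [Field F] [Algebra L F] :
    ∃ φ : F →ₗ[L] L, φ 1 = 1 := by
  have h1 : ¬ ∀ φ : Module.Dual L F, φ 1 = 0 := by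
    rw [Module.forall_dual_apply_eq_zero_iff]
    exact one_ne_zero
  push Not at h1
  obtain ⟨φ, hφ⟩ := h1
  refine ⟨(φ 1)⁻¹ • φ, ?_⟩
  rw [LinearMap.smul_apply, smul_eq_mul, inv_mul_cancel₀ hφ]

/-- the action of the automorphisms on the polynomials in two variables -/
private noncomputable def sg (σ : F ≃ₐ[L] F) : F[X][X] ≃+* F[X][X] :=
  mapEquiv (mapEquiv σ.toRingEquiv)

private theorem sg_coeff (σ : F ≃ₐ[L] F) (P : F[X][X]) (i j : ℕ) :
    ((sg σ P).coeff i).coeff j = σ ((P.coeff i).coeff j) := by
  unfold sg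
  rw [mapEquiv_apply, coeff_map]
  change (mapEquiv σ.toRingEquiv (P.coeff i)).coeff j = _
  rw [mapEquiv_apply, coeff_map]
  rfl

private theorem sg_mp (σ : F ≃ₐ[L] F) (P : L[X][X]) : sg σ (mp L F P) = mp L F P := by
  ext i j
  rw [sg_coeff, mp_coeff, AlgEquiv.commutes]

private theorem sg_evalEval (σ : F ≃ₐ[L] F) (P : F[X][X]) (x y : L) :
    (sg σ P).evalEval (algebraMap L F x) (algebraMap L F y) =
      σ (P.evalEval (algebraMap L F x) (algebraMap L F y)) := by
  have h1 := map_mapRingHom_evalEval (σ : F →+* F) P (algebraMap L F x) (algebraMap L F y)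
  have h2 : (σ : F →+* F) (algebraMap L F x) = algebraMap L F x := σ.commutes x
  have h3 : (σ : F →+* F) (algebraMap L F y) = algebraMap L F y := σ.commutes y
  rw [h2, h3] at h1
  have h4 : sg σ P = P.map (mapRingHom (σ : F →+* F)) := by
    ext i j
    rw [sg_coeff, coeff_map, coe_mapRingHom, coeff_map]
    rfl
  rw [h4, h1]
  rfl

private theorem mp_evalEval (P : L[X][X]) (x y : L) :
    (mp L F P).evalEval (algebraMap L F x) (algebraMap L F y) =
      algebraMap L F (P.evalEval x y) :=
  map_mapRingHom_evalEval (algebraMap L F) P x y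

private theorem mp_derivative (P : L[X][X]) :
    derivative (mp L F P) = mp L F (derivative P) := by
  unfold mp
  rw [coe_mapRingHom, derivative_map]

/-- an irreducible factor vanishing at a point -/
private theorem exists_factor' {κ : Type*} [Field κ] {A : κ[X][X]} {y₁ y : κ} (hA0 : A ≠ 0)
    (hA : A.evalEval y₁ y = 0) :
    ∃ f : κ[X][X], Irreducible f ∧ f ∣ A ∧ f.evalEval y₁ y = 0 := by
  classical
  obtain ⟨f, hf, hfz⟩ : ∃ f ∈ UniqueFactorizationMonoid.factors A, f.evalEval y₁ y = 0 := by
    have h1 := UniqueFactorizationMonoid.factors_prod hA0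
    obtain ⟨u, hu⟩ := h1
    have h2 : evalEvalRingHom y₁ y ((UniqueFactorizationMonoid.factors A).prod * u) = 0 := by
      rw [hu]
      exact hA
    rw [map_mul] at h2
    have h3 : evalEvalRingHom y₁ y (u : κ[X][X]) ≠ 0 :=
      (u.isUnit.map (evalEvalRingHom y₁ y)).ne_zero
    have h4 := (mul_eq_zero.mp h2).resolve_right h3
    rw [map_multiset_prod, Multiset.prod_eq_zero_iff, Multiset.mem_map] at h4
    obtain ⟨f, hf, hfz⟩ := h4
    exact ⟨f, hf, hfz⟩
  exact ⟨f, UniqueFactorizationMonoid.irreducible_of_factor f hf,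
    UniqueFactorizationMonoid.dvd_of_mem_factors hf, hfz⟩

/-- two irreducible factors vanishing at a smooth point are associated -/
private theorem assoc_of_smooth {κ : Type*} [Field κ] {A f g : κ[X][X]} {y₁ y : κ}
    (hf : Irreducible f) (hg : Irreducible g) (hfA : f ∣ A) (hgA : g ∣ A)
    (hf0 : f.evalEval y₁ y = 0) (hg0 : g.evalEval y₁ y = 0)
    (hY : (derivative A).evalEval y₁ y ≠ 0) : Associated f g := by
  by_contra hcon
  apply hY
  obtain ⟨Q, hQ⟩ := hfA
  have h1 : g ∣ Q := by
    rw [hQ] at hgA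
    rcases hg.prime.dvd_or_dvd hgA with h | h
    · exact absurd ((hg.associated_of_dvd hf h).symm) hcon
    · exact h
  obtain ⟨R, hR⟩ := h1
  rw [hQ, derivative_mul, evalEval_add, evalEval_mul, evalEval_mul, hf0, zero_mul, add_zero, hR,
    evalEval_mul, hg0, zero_mul, mul_zero]

/-- **A curve over `L` with a smooth rational point is absolutely irreducible.** -/
theorem irreducible_mp [CharZero L] [IsAlgClosed F] [Algebra.IsAlgebraic L F] {A : L[X][X]}
    (hA : Irreducible A) {y₁ y : L} (h0 : A.evalEval y₁ y = 0)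
    (hY : (derivative A).evalEval y₁ y ≠ 0) : Irreducible (mp L F A) := by
  -- Let `f` be an irreducible factor of `mp A` over `F` which vanishes at the point
  -- (`exists_factor` in MP_44a246_ntS/SP9 for `F`), normalised such that one coefficient is `1`.
  -- For `σ : F ≃ₐ[L] F`, `σ f` is an irreducible factor of `mp A` which vanishes at the point
  -- (it is rational over `L`). If `σ f` and `f` are not associated, then `f * σ f ∣ mp A` and
  -- the derivative of `mp A` vanishes at the point, a contradiction. So `σ f = c f` with a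
  -- constant `c = 1` (normalisation). So the coefficients of `f` are fixed by all `σ`, hence in `L`
  -- (`IsGalois.mem_bot_iff_fixed` / `InfiniteGalois`, characteristic zero): `f = mp f₀`, and
  -- `f₀ ∣ A`: `mp A = mp f₀ * Q`, `dvd_fn` with a functional with `φ 1 = 1`
  -- (`fn φ (mp A) = A`). So `f₀` is associated to `A`.
  have hA0 : mp L F A ≠ 0 := by
    intro h
    have : mp L F A = mp L F 0 := by rw [h, map_zero]
    exact hA.ne_zero (mp_injective this)
  have h1 : (mp L F A).evalEval (algebraMap L F y₁) (algebraMap L F y) = 0 := by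
    rw [mp_evalEval, h0, map_zero]
  have h2 : (derivative (mp L F A)).evalEval (algebraMap L F y₁) (algebraMap L F y) ≠ 0 := by
    rw [mp_derivative, mp_evalEval]
    exact fun h => hY ((algebraMap L F).injective (by rw [h, map_zero]))
  obtain ⟨f, hf, hfA, hf0⟩ := exists_factor' hA0 h1
  obtain ⟨i₀, j₀, hij⟩ : ∃ i j, (f.coeff i).coeff j ≠ 0 := by
    by_contra hcon
    push Not at hcon
    apply hf.ne_zero
    ext i j
    rw [hcon, coeff_zero, coeff_zero]
  set c := (f.coeff i₀).coeff j₀ with hc
  have hcu : IsUnit (C (C c⁻¹) : F[X][X]) :=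
    (isUnit_C.mpr (isUnit_C.mpr (isUnit_iff_ne_zero.mpr (inv_ne_zero hij))))
  set g : F[X][X] := C (C c⁻¹) * f with hg
  have hgf : Associated f g := by
    rw [hg]
    exact associated_unit_mul_right f _ hcu
  have hgirr : Irreducible g := hgf.irreducible hf
  have hgA : g ∣ mp L F A := hgf.symm.dvd.trans hfA
  have hg0 : g.evalEval (algebraMap L F y₁) (algebraMap L F y) = 0 := by
    rw [hg, evalEval_mul, hf0, mul_zero]
  have hgc : (g.coeff i₀).coeff j₀ = 1 := by
    rw [hg, coeff_C_mul, coeff_C_mul, ← hc, inv_mul_cancel₀ hij]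
  -- `g` is invariant
  have hinv : ∀ σ : F ≃ₐ[L] F, sg σ g = g := by
    intro σ
    have h3 : Irreducible (sg σ g) := (MulEquiv.irreducible_iff (sg σ)).mpr hgirr
    have h4 : sg σ g ∣ mp L F A := by
      have := map_dvd (sg σ) hgA
      rwa [sg_mp] at this
    have h5 : (sg σ g).evalEval (algebraMap L F y₁) (algebraMap L F y) = 0 := by
      rw [sg_evalEval, hg0, map_zero]
    obtain ⟨u, hu⟩ := assoc_of_smooth hgirr h3 hgA h4 hg0 h5 h2
    obtain ⟨p, hp, hpu⟩ := Polynomial.isUnit_iff.mp u.isUnit
    obtain ⟨e, he, hep⟩ := Polynomial.isUnit_iff.mp hp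
    have h6 : ((sg σ g).coeff i₀).coeff j₀ = 1 := by rw [sg_coeff, hgc, map_one]
    rw [← hu, ← hpu, ← hep, coeff_mul_C, coeff_mul_C, hgc, one_mul] at h6
    rw [← hu, ← hpu, ← hep, h6, C_1, C_1, mul_one]
  have hgal : IsGalois L F := by
    have : Algebra.IsSeparable L F := inferInstance
    have : IsAlgClosure L F := ⟨inferInstance, inferInstance⟩
    exact ⟨⟩
  obtain ⟨φ, hφ⟩ := exists_fn L F
  have h7 : mp L F (fn φ g) = g := by
    ext i j
    rw [mp_coeff, fn_coeff]
    have h8 : (g.coeff i).coeff j ∈ Set.range (algebraMap L F) := by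
      rw [InfiniteGalois.mem_range_algebraMap_iff_fixed]
      intro σ
      rw [← sg_coeff, hinv]
    obtain ⟨l, hl⟩ := h8
    have h13 : φ (algebraMap L F l) = l := by
      rw [Algebra.algebraMap_eq_smul_one, map_smul, hφ, smul_eq_mul, mul_one]
    rw [← hl, h13]
  have h9 : fn φ g ∣ A := by
    have h10 : mp L F (fn φ g) ∣ mp L F A := by rw [h7]; exact hgA
    have := dvd_fn φ h10
    rwa [fn_mp hφ] at this
  have h11 : ¬ IsUnit (fn φ g) := by
    intro h
    have := h.map (mp L F)
    rw [h7] at this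
    exact hgirr.not_isUnit this
  obtain ⟨Q, hQ⟩ := h9
  have h12 : IsUnit Q := (hA.isUnit_or_isUnit hQ).resolve_left h11
  rw [hQ, map_mul, h7]
  exact (associated_mul_unit_right g _ (h12.map (mp L F))).irreducible hgirr

end

end Pool.Agent.Lib.MP_44a246_ntE
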