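import Mathlib
import Pool.Agent.Lib.MP_44a246_ntE.E10
import Pool.Agent.Lib.MP_44a246_ntS.SP6
import Pool.Agent.Lib.MP_44a246_ntS.SP7

/-!
The height of the second coordinate function of a plane curve.
-/

namespace Pool.Agent.Lib.MP_44a246_ntE

open Pool.Agent.Lib.MP_e52354_nt
open Pool.Agent.Lib.MP_44a246_nt
open Pool.Agent.Lib.MP_44a246_ntL
open Pool.Agent.Lib.MP_44a246_ntR
open Pool.Agent.Lib.MP_44a246_ntS
open WithZero Polynomial Module

private theorem ev_swap {κ B : Type*} [CommRing κ] [CommRing B] (φ : κ →+* B) (s t : B)
    (G : κ[X][X]) : ev φ s t (Bivariate.swap G) = ev φ t s G := by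
  induction G using Polynomial.induction_on' with
  | add p q hp hq => rw [map_add, map_add, map_add, hp, hq]
  | monomial n a =>
    induction a using Polynomial.induction_on' with
    | add p q hp hq => rw [map_add, map_add, map_add, map_add, hp, hq]
    | monomial m c =>
      rw [Bivariate.swap_monomial_monomial, ev_apply, ev_apply, eval₂_monomial, eval₂_monomial,
        coe_eval₂RingHom, coe_eval₂RingHom, eval₂_monomial, eval₂_monomial]
      ring

private theorem swap_natDegree {κ : Type*} [CommRing κ] {A : κ[X][X]} {b : ℕ}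
    (hb : ∀ i, (A.coeff i).natDegree ≤ b) : (Bivariate.swap A).natDegree ≤ b := by
  have h1 : Bivariate.swap A = ∑ i ∈ A.support, (A.coeff i).map C * C (X ^ i) := by
    conv_lhs => rw [A.as_sum_support]
    rw [map_sum]
    exact Finset.sum_congr rfl fun i _ => Bivariate.swap_monomial i _
  rw [h1]
  refine natDegree_sum_le_of_forall_le _ _ fun i _ => ?_
  refine natDegree_mul_le.trans ?_
  rw [natDegree_C, add_zero]
  exact natDegree_map_le.trans (hb i)

private theorem logE21 {x : ℤᵐ⁰} : log (max 1 x) = max 0 (log x) := by
  rcases le_or_gt x 1 with h | h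
  · rw [max_eq_left h, log_one]
    rcases eq_or_ne x 0 with h0 | h0
    · rw [h0, log_zero, max_self]
    · have : log x ≤ 0 := by
        rw [log_le_iff_le_exp h0, exp_zero]
        exact h
      rw [max_eq_left this]
  · rw [max_eq_right h.le]
    have : 0 ≤ log x := by
      rw [le_log_iff_exp_le (zero_lt_one.trans h).ne', exp_zero]
      exact h.le
    rw [max_eq_right this]

section

variable {κ M : Type*} [Field κ] [IsAlgClosed κ] [CharZero κ] [Field M] [Algebra κ M]

private theorem core (hM : IsFF κ M) {x Y : M} (hYt : Transcendental κ Y)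
    (hgen : IntermediateField.adjoin κ {x, Y} = ⊤) {A : κ[X][X]} (hA0 : A ≠ 0)
    (hA : ev (algebraMap κ M) x Y A = 0) {b : ℕ} (hb : ∀ i, (A.coeff i).natDegree ≤ b) :
    height κ ![1, Y] ≤ b := by
  refine with_ratFunc hM hYt ?_
  intro i1 i2 i3 hX
  have hfr := finrank_eq_height κ M
  have hY : tL κ M = Y := hX
  rw [hY] at hfr
  rw [← hfr]
  have hψ : (algebraMap (RatFunc κ) M).comp (algebraMap κ[X] (RatFunc κ)) =
      eval₂RingHom (algebraMap κ M) Y := by
    apply Polynomial.ringHom_ext
    · intro c
      have e1 : algebraMap κ[X] (RatFunc κ) (C c) = algebraMap κ (RatFunc κ) c :=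
        (IsScalarTower.algebraMap_apply κ κ[X] (RatFunc κ) c).symm
      rw [coe_eval₂RingHom, eval₂_C, RingHom.comp_apply, e1,
        ← IsScalarTower.algebraMap_apply κ (RatFunc κ) M]
    · rw [coe_eval₂RingHom, eval₂_X, RingHom.comp_apply, RatFunc.algebraMap_X, hX]
  have hadj : IntermediateField.adjoin (RatFunc κ) {x} = ⊤ := by
    rw [eq_top_iff]
    have h1 : IntermediateField.adjoin κ {x, Y} ≤
        (IntermediateField.adjoin (RatFunc κ) {x}).restrictScalars κ := by
      rw [IntermediateField.adjoin_le_iff]
      rintro z (rfl | rfl)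
      · exact (IntermediateField.mem_restrictScalars κ).2
          (IntermediateField.mem_adjoin_simple_self (RatFunc κ) z)
      · rw [← hX]
        exact (IntermediateField.mem_restrictScalars κ).2
          ((IntermediateField.adjoin (RatFunc κ) {x}).algebraMap_mem RatFunc.X)
    rw [hgen] at h1
    intro z _
    have h2 : z ∈ (IntermediateField.adjoin (RatFunc κ) {x}).restrictScalars κ :=
      h1 IntermediateField.mem_top
    exact (IntermediateField.mem_restrictScalars κ).1 h2
  have hint : IsIntegral (RatFunc κ) x := IsIntegral.of_finite _ _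
  have h1 : finrank (RatFunc κ) M = (minpoly (RatFunc κ) x).natDegree := by
    rw [← IntermediateField.adjoin.finrank hint, hadj, IntermediateField.finrank_top']
  set Q : (RatFunc κ)[X] := (Bivariate.swap A).map (algebraMap κ[X] (RatFunc κ)) with hQ
  have hQ0 : Q ≠ 0 := by
    rw [hQ, Polynomial.map_ne_zero_iff (IsFractionRing.injective κ[X] (RatFunc κ))]
    intro h
    apply hA0
    rw [← Bivariate.swap_swap_apply A, h, map_zero]
  have hQx : aeval x Q = 0 := by
    rw [hQ, aeval_def, eval₂_map, hψ, ← ev_apply, ev_swap, hA]
  have h2 : (minpoly (RatFunc κ) x).natDegree ≤ b := by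
    refine (natDegree_le_of_dvd (minpoly.dvd _ _ hQx) hQ0).trans ?_
    exact natDegree_map_le.trans (swap_natDegree hb)
  rw [h1]
  exact_mod_cast h2

omit [IsAlgClosed κ] [CharZero κ] in
private theorem height_const (c : κ) : height κ ![1, algebraMap κ M c] = 0 := by
  unfold height
  have h : ∀ v : Place κ M, log (vmax v.1 ![1, algebraMap κ M c]) = 0 := by
    intro v
    rw [Pool.Agent.Lib.MP_44a246_nt.vmax_pair]
    by_cases hc : c = 0
    · rw [hc, map_zero, map_zero, max_eq_left zero_le_one, log_one]
    · rw [v.2.2 c hc, max_self, log_one]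
  rw [finsum_congr h, finsum_zero]

end

section

variable {κ M : Type*} [Field κ] [IsAlgClosed κ] [CharZero κ] [Field M] [Algebra κ M]
  [Algebra κ[X] M] [IsScalarTower κ κ[X] M]
  [Algebra (RatFunc κ) M] [IsScalarTower κ[X] (RatFunc κ) M]
  [FiniteDimensional (RatFunc κ) M]

/-- the height of `Y` is at most the degree of the equation in `X` -/
theorem height_Y_le {A : κ[X][X]} (hA0 : A ≠ 0) {Y : M} (hY : aeval Y A = 0)
    (hgen : IntermediateField.adjoin (RatFunc κ) {Y} = ⊤) {b : ℕ}
    (hb : ∀ i, (A.coeff i).natDegree ≤ b) : height κ ![1, Y] ≤ b := by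
  -- If `Y` is algebraic over `κ` it is a constant and the height is `0`. Otherwise `with_sep` for
  -- `Y`: `height κ ![1, Y] = [M : κ (Y)]`, `M = κ (Y) (X)` and `X` is a root of the polynomial
  -- obtained from `A` by exchanging the variables (`Polynomial.swap` or by hand), which is not
  -- zero and has degree at most `b`. (The two structures: first derive
  -- `IntermediateField.adjoin κ {X, Y} = ⊤` and `ev (algebraMap κ M) X Y A = 0` (SP7), in which the
  -- structure of an extension of `RatFunc κ` does not occur.)
  by_cases hYt : Transcendental κ Y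
  · have hT : IsScalarTower κ (RatFunc κ) M := by
      refine IsScalarTower.of_algebraMap_eq fun c => ?_
      rw [IsScalarTower.algebraMap_apply κ κ[X] M, IsScalarTower.algebraMap_apply κ κ[X] (RatFunc κ),
        ← IsScalarTower.algebraMap_apply κ[X] (RatFunc κ) M]
    have hM : IsFF κ M := isFF_of_ratFunc κ M
    have h1 : ev (algebraMap κ M) (algebraMap κ[X] M X) Y A = 0 := by
      rw [ev_aeval, hY]
    refine core hM hYt ?_ hA0 h1 hb
    set x : M := algebraMap κ[X] M X with hx
    set F := IntermediateField.adjoin κ {x, Y} with hF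
    have hxF : x ∈ F := IntermediateField.subset_adjoin _ _ (Or.inl rfl)
    have hYF : Y ∈ F := IntermediateField.subset_adjoin _ _ (Or.inr rfl)
    have hp : ∀ p : κ[X], algebraMap κ[X] M p ∈ F := by
      intro p
      induction p using Polynomial.induction_on' with
      | add p q hp hq => rw [map_add]; exact F.add_mem hp hq
      | monomial n a =>
        rw [← C_mul_X_pow_eq_monomial, map_mul, map_pow]
        refine F.mul_mem ?_ (pow_mem hxF n)
        have h2 : algebraMap κ[X] M (C a) = algebraMap κ M a :=
          (IsScalarTower.algebraMap_apply κ κ[X] M a).symm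
        rw [h2]
        exact F.algebraMap_mem a
    have hr : ∀ r : RatFunc κ, algebraMap (RatFunc κ) M r ∈ F.toSubfield := by
      intro r
      obtain ⟨p, q, -, rfl⟩ := IsFractionRing.div_surjective (A := κ[X]) r
      rw [map_div₀, ← IsScalarTower.algebraMap_apply, ← IsScalarTower.algebraMap_apply]
      exact F.div_mem (hp p) (hp q)
    let F' : IntermediateField (RatFunc κ) M := F.toSubfield.toIntermediateField hr
    have h3 : IntermediateField.adjoin (RatFunc κ) {Y} ≤ F' := by
      rw [IntermediateField.adjoin_le_iff]
      rintro z rfl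
      exact hYF
    rw [hgen] at h3
    rw [eq_top_iff]
    intro z _
    have h4 : z ∈ F' := h3 IntermediateField.mem_top
    exact h4
  · have hYa : IsAlgebraic κ Y := by
      rw [Transcendental, not_not] at hYt
      exact hYt
    have h1 : (minpoly κ Y).degree = 1 :=
      IsAlgClosed.degree_eq_one_of_irreducible κ (minpoly.irreducible hYa.isIntegral)
    obtain ⟨c, hc⟩ := minpoly.mem_range_of_degree_eq_one κ Y h1
    rw [← hc, height_const]
    exact Nat.cast_nonneg b

/-- the divisor of the poles of an element -/
theorem exists_poles (hM : IsFF κ M) (Y : M) : ∃ P : Place κ M →₀ ℤ,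
    (∀ w, P w = max 0 (log (w.1 Y))) ∧ divDeg P = height κ ![1, Y] := by
  have hf2 : (Function.support fun v : Place κ M => max 0 (log (v.1 Y))).Finite := by
    by_cases hY : Y = 0
    · have h0 : (Function.support fun v : Place κ M => max 0 (log (v.1 Y))) = ∅ := by
        rw [Function.support_eq_empty_iff]
        funext v
        rw [hY, map_zero, log_zero, max_self]
        rfl
      rw [h0]
      exact Set.finite_empty
    · have hf := hM.place_support hY
      refine hf.subset fun v hv h => hv ?_
      simp only at h ⊢
      rw [h, max_self]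
  refine ⟨Finsupp.ofSupportFinite _ hf2, fun v => rfl, ?_⟩
  set P := Finsupp.ofSupportFinite _ hf2 with hP
  unfold height divDeg Finsupp.sum
  rw [← finsum_eq_sum_of_support_subset (s := P.support) (fun v => P v)
    (fun v hv => Finsupp.mem_support_iff.2 hv)]
  refine finsum_congr fun v => ?_
  rw [Pool.Agent.Lib.MP_44a246_nt.vmax_pair, logE21]
  rfl

end

end Pool.Agent.Lib.MP_44a246_ntE
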