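import Mathlib
import Pool.Agent.Lib.MP_44a246_nt.DerivGen
import Pool.Agent.Lib.MP_44a246_ntE.E02
import Pool.Agent.Lib.MP_44a246_ntE.E20
import Pool.Agent.Lib.MP_44a246_ntE.E21
import Pool.Agent.Lib.MP_44a246_ntS.SL1

/-!
The function field of the curve over an algebraic closure, with the extensions of the derivations.
-/

namespace Pool.Agent.Lib.MP_44a246_ntE

open Pool.Agent.Lib.MP_e52354_nt
open Pool.Agent.Lib.MP_44a246_nt
open Pool.Agent.Lib.MP_44a246_ntL
open Pool.Agent.Lib.MP_44a246_ntR
open Pool.Agent.Lib.MP_44a246_ntS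
open Pool.Agent.Lib.MP_44a246_ntW
open WithZero Polynomial Module

universe u

private theorem e22_evalEval_mp {L F : Type*} [Field L] [Field F] [Algebra L F] (P : L[X][X])
    (s t : L) : (mp L F P).evalEval (algebraMap L F s) (algebraMap L F t) =
      algebraMap L F (P.evalEval s t) := by
  rw [← ev_id, ← ev_id]
  induction P using Polynomial.induction_on' with
  | add p q hp hq => rw [map_add, map_add, hp, hq, map_add, map_add]
  | monomial n a =>
    unfold mp
    rw [coe_mapRingHom, map_monomial, ev_apply, ev_apply, eval₂_monomial, eval₂_monomial, map_mul,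
      map_pow]
    congr 1
    rw [coe_eval₂RingHom, coe_eval₂RingHom, coe_mapRingHom, eval₂_map]
    exact (hom_eval₂ a (RingHom.id L) (algebraMap L F) s).symm

/-- **The function field of the curve.** Let `A` be irreducible over `L` with a smooth rational
point, `E k` derivations of `L` with `A ∣ EE (E k) (E k) A`, `deg_X A ≤ b`. There are a function
field `M` of one variable over an algebraic closure `Ω` of `L`, elements `γ k` of `M` and a divisor
`P` of degree at most `b` with `γ k ∈ rr P`, a ring homomorphism `ev : Ω[X][X] → M` with kernel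
generated by `A`, `γ k * ev (A_Y) = ev (- E k A)`; and for all derivations `D` of `L` which kill
the coefficients of `A` the quotient `ev (D (E k A)) / ev (A_Y)` is in `rr P`. -/
theorem exists_curve_field {L : Type u} [Field L] [CharZero L] {A : L[X][X]} (hA : Irreducible A)
    (hdeg : A.natDegree ≠ 0) {y₁ y : L} (h0 : A.evalEval y₁ y = 0)
    (hY : (derivative A).evalEval y₁ y ≠ 0) {b : ℕ} (hb : ∀ i, (A.coeff i).natDegree ≤ b)
    {N : Type*} (E : N → Derivation ℤ L L) (hE : ∀ k, A ∣ EE (E k) (E k) A) :
    ∃ (M : Type u) (_ : Field M) (_ : Algebra (AlgebraicClosure L) M) (γ : N → M)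
      (P : Place (AlgebraicClosure L) M →₀ ℤ) (ev : (AlgebraicClosure L)[X][X] →+* M),
      IsFF (AlgebraicClosure L) M ∧ (∀ w, 0 ≤ P w) ∧ divDeg P ≤ b ∧
      (∀ c : AlgebraicClosure L, ev (C (C c)) = algebraMap (AlgebraicClosure L) M c) ∧
      (∀ G, ev G = 0 ↔ mp L (AlgebraicClosure L) A ∣ G) ∧
      (∀ k, γ k ∈ rr P) ∧
      (∀ k, γ k * ev (mp L (AlgebraicClosure L) (derivative A)) =
        ev (mp L (AlgebraicClosure L) (-cd (E k) A))) ∧
      ∀ (D : Derivation ℤ L L), cd D A = 0 → ∀ k,
        ev (mp L (AlgebraicClosure L) (cd D (cd (E k) A))) /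
          ev (mp L (AlgebraicClosure L) (derivative A)) ∈ rr P := by
  classical
  set κ := AlgebraicClosure L with hκd
  have hchar : CharZero κ := charZero_of_injective_algebraMap (algebraMap L κ).injective
  set f : κ[X][X] := mp L κ A with hfd
  have hf : Irreducible f := irreducible_mp hA h0 hY
  have hder : ∀ G : L[X][X], mp L κ (derivative G) = derivative (mp L κ G) := by
    intro G
    unfold mp
    rw [coe_mapRingHom, derivative_map]
  have hnd : ∀ G : L[X][X], (mp L κ G).natDegree = G.natDegree := by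
    intro G
    unfold mp
    rw [coe_mapRingHom]
    refine natDegree_map_eq_of_injective ?_ G
    rw [coe_mapRingHom]
    exact map_injective _ (algebraMap L κ).injective
  have hfdeg : f.natDegree ≠ 0 := by rw [hfd, hnd]; exact hdeg
  have hfb : ∀ i, (f.coeff i).natDegree ≤ b := by
    intro i
    rw [natDegree_le_iff_coeff_eq_zero]
    intro j hj
    rw [hfd, mp_coeff, coeff_eq_zero_of_natDegree_lt (lt_of_le_of_lt (hb i) hj), map_zero]
  have hA' : ¬ A ∣ derivative A := by
    intro h
    have h1 : derivative A ≠ 0 := by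
      intro h2
      rw [h2] at hY
      exact hY (by rw [evalEval_zero])
    have h2 := natDegree_le_of_dvd h h1
    have h3 := natDegree_derivative_lt hdeg
    omega
  refine with_curve hf (Nat.pos_of_ne_zero hfdeg) ?_
  intro M i1 i2 i3 i4 i5 i6 i7 i8 i9 Y hker hgen hfr htr halg
  have hfY : aeval Y f = 0 := (hker f).2 dvd_rfl
  have hIs : IsScalarTower κ (RatFunc κ) M := by
    refine IsScalarTower.of_algebraMap_eq fun u => ?_
    rw [IsScalarTower.algebraMap_apply κ κ[X] M, IsScalarTower.algebraMap_apply κ κ[X] (RatFunc κ),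
      ← IsScalarTower.algebraMap_apply κ[X] (RatFunc κ) M]
  have hM : IsFF κ M := isFF_of_ratFunc κ M
  obtain ⟨P, hP1, hP2⟩ := exists_poles hM Y
  have hP0 : ∀ w, 0 ≤ P w := fun w => by rw [hP1]; exact le_max_left _ _
  have hPw : ∀ w : Place κ M, max 1 (w.1 Y) ≤ exp (P w) := by
    intro w
    rw [hP1]
    refine max_le ?_ ?_
    · calc (1 : ℤᵐ⁰) = exp 0 := exp_zero.symm
        _ ≤ _ := exp_le_exp.mpr (le_max_left _ _)
    · rcases eq_or_ne (w.1 Y) 0 with h | h
      · calc w.1 Y = 0 := h
          _ ≤ _ := zero_le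
      · calc w.1 Y = exp (log (w.1 Y)) := (exp_log h).symm
          _ ≤ _ := exp_le_exp.mpr (le_max_right _ _)
  -- the structure over `L[X]`
  let iLX : Algebra L[X] M := ((algebraMap κ[X] M).comp (mapRingHom (algebraMap L κ))).toAlgebra
  have hLX : ∀ p : L[X], algebraMap L[X] M p = algebraMap κ[X] M (p.map (algebraMap L κ)) :=
    fun p => rfl
  have hae : ∀ G : L[X][X], aeval Y G = aeval Y (mp L κ G) := by
    intro G
    unfold mp
    rw [aeval_def, aeval_def, coe_mapRingHom, eval₂_map]
    rfl
  have hmY : aeval Y (derivative A) ≠ 0 := by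
    intro h
    rw [hae, hker, hfd] at h
    apply hA'
    have h1 : Function.Injective (mp L κ) := mp_injective
    -- evaluate at the rational point
    exfalso
    obtain ⟨Q, hQ⟩ := h
    have h2 := congrArg (fun G => G.evalEval (algebraMap L κ y₁) (algebraMap L κ y)) hQ
    simp only [evalEval_mul] at h2
    rw [e22_evalEval_mp, e22_evalEval_mp, h0, map_zero, zero_mul] at h2
    exact hY ((map_eq_zero _).1 h2)
  have hA0 : aeval Y A = 0 := by rw [hae]; exact hfY
  -- extension of derivations
  have hext : ∀ D : Derivation ℤ L L, ∃ (D₀ : Derivation ℤ κ κ) (D' : Derivation ℤ M M),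
      (∀ x, D₀ (algebraMap L κ x) = algebraMap L κ (D x)) ∧
      (∀ u, D' (algebraMap κ M u) = algebraMap κ M (D₀ u)) ∧
      D' (algebraMap κ[X] M X) = 0 ∧
      ∀ p : L[X], D' (algebraMap L[X] M p) = algebraMap L[X] M (MP_44a246_ntW.cp D p) := by
    intro D
    obtain ⟨D₀, hD₀⟩ := exists_extension (L := κ) D
    obtain ⟨D', hD', hX'⟩ := exists_der_ext htr halg D₀ 0
    refine ⟨D₀, D', hD₀, hD', hX', fun p => ?_⟩
    induction p using Polynomial.induction_on' with
    | add p q hp hq => rw [map_add, map_add, hp, hq, MP_44a246_ntW.cp_add, map_add]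
    | monomial n a =>
      have e1 : MP_44a246_ntW.cp D (monomial n a) = monomial n (D a) := by
        ext j
        rw [MP_44a246_ntW.cp_coeff, coeff_monomial, coeff_monomial]
        split_ifs
        · rfl
        · exact map_zero D
      have e2 : ∀ c : L, algebraMap L[X] M (monomial n c) =
          algebraMap κ M (algebraMap L κ c) * algebraMap κ[X] M X ^ n := by
        intro c
        rw [hLX, map_monomial, ← C_mul_X_pow_eq_monomial, map_mul, map_pow,
          IsScalarTower.algebraMap_apply κ κ[X] M, algebraMap_eq]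
      rw [e1, e2, e2, Derivation.leibniz, Derivation.leibniz_pow, hX', hD', hD₀]
      simp only [smul_eq_mul, mul_zero, zero_add, smul_zero]
      ring
  set γ : N → M := fun k => MP_44a246_ntW.yv (E k) A Y with hγd
  have hγ : ∀ k, γ k = aeval Y (mp L κ (-cd (E k) A)) / aeval Y (mp L κ (derivative A)) := by
    intro k
    rw [hγd]
    simp only
    unfold MP_44a246_ntW.yv
    rw [hae, hae]
    rfl
  obtain ⟨D1, hD1a, hD1b⟩ := exists_der_ext htr halg (0 : Derivation ℤ κ κ) 1
  have hγP : ∀ k, γ k ∈ rr P := by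
    intro k w
    obtain ⟨D₀, D', e1, e2, e3, e4⟩ := hext (E k)
    have h1 : D' Y = γ k := MP_44a246_ntW.D_root e4 hA0 hmY
    have h2 : D' (γ k) = 0 := MP_44a246_ntW.D_yv e4 hA0 hmY (hE k)
    have h3 := rigid w D' D1 e2 e3 (fun u => by rw [hD1a]; exact map_zero _) hD1b (Y := Y) (by rw [h1, h2])
    rw [h1] at h3
    exact h3.trans (hPw w)
  refine ⟨M, i1, i2, γ, P, ev (algebraMap κ M) (algebraMap κ[X] M X) Y, hM, hP0, ?_, ?_, ?_, hγP,
    ?_, ?_⟩
  · rw [hP2]
    exact_mod_cast height_Y_le hf.ne_zero hfY hgen hfb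
  · intro c
    exact ev_C_C _ _ _ _
  · intro G
    rw [ev_aeval]
    exact hker G
  · intro k
    rw [ev_aeval, ev_aeval, hγ]
    rw [div_mul_cancel₀]
    rw [← hae]; exact hmY
  · intro D hDA k
    obtain ⟨D₀, D', e1, e2, e3, e4⟩ := hext D
    rw [ev_aeval, ev_aeval]
    have hDY : D' Y = 0 := by
      rw [MP_44a246_ntW.D_root e4 hA0 hmY]
      unfold MP_44a246_ntW.yv
      have : MP_44a246_ntW.cq D A = 0 := hDA
      rw [this, neg_zero, map_zero, zero_div]
    have hDB : ∀ B : L[X][X], D' (aeval Y B) = aeval Y (MP_44a246_ntW.cq D B) := by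
      intro B
      rw [MP_44a246_ntW.chain_root e4, hDY, mul_zero, add_zero]
    have hDder : MP_44a246_ntW.cq D (derivative A) = 0 := by
      ext i j
      rw [MP_44a246_ntW.cq_coeff, MP_44a246_ntW.cp_coeff, coeff_derivative]
      have h1 : D ((A.coeff (i + 1)).coeff j) = 0 := by
        have h2 := congrArg (fun G : L[X][X] => (G.coeff (i + 1)).coeff j) hDA
        simp only [cd_coeff, coeff_zero] at h2
        exact h2
      have h3 : (A.coeff (i + 1) * ((i : L[X]) + 1)).coeff j =
          ((i + 1 : ℕ) : L) * (A.coeff (i + 1)).coeff j := by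
        have h4 : ((i : L[X]) + 1) = C ((i + 1 : ℕ) : L) := by
          rw [map_natCast]; push_cast; rfl
        rw [h4, coeff_mul_C, mul_comm]
      rw [h3, Derivation.leibniz, h1, smul_zero, zero_add, Derivation.map_natCast, smul_zero,
        coeff_zero, coeff_zero]
    have hval : aeval Y (mp L κ (cd D (cd (E k) A))) / aeval Y (mp L κ (derivative A)) =
        - D' (γ k) := by
      have h1 : γ k * aeval Y (derivative A) = aeval Y (-MP_44a246_ntW.cq (E k) A) := by
        rw [hγd]
        simp only
        unfold MP_44a246_ntW.yv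
        rw [div_mul_cancel₀ _ hmY]
      have h2 := congrArg D' h1
      rw [Derivation.leibniz, hDB, hDB, hDder, map_zero, smul_zero, zero_add, smul_eq_mul] at h2
      have h3 : MP_44a246_ntW.cq D (-MP_44a246_ntW.cq (E k) A) = - cd D (cd (E k) A) := by
        ext i j
        rw [MP_44a246_ntW.cq_coeff, MP_44a246_ntW.cp_coeff, coeff_neg, coeff_neg, coeff_neg,
          coeff_neg, map_neg, cd_coeff, cd_coeff, MP_44a246_ntW.cq_coeff, MP_44a246_ntW.cp_coeff]
      rw [h3, map_neg] at h2
      rw [← hae, ← hae, div_eq_iff hmY]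
      linear_combination h2
    rw [hval]
    intro w
    rw [Valuation.map_neg]
    have hcE : cE D₀ f = 0 := by
      ext i j
      have h1 : ((cE D₀ f).coeff i).coeff j = D₀ ((f.coeff i).coeff j) := rfl
      rw [h1, hfd, mp_coeff, e1]
      have h2 := congrArg (fun G : L[X][X] => (G.coeff i).coeff j) hDA
      simp only [cd_coeff, coeff_zero] at h2
      rw [h2, map_zero, coeff_zero, coeff_zero]
    rcases der_dich w hf hfdeg hcE hfY hgen D' e2 e3 with h | ⟨hX1, hY1, h⟩
    · exact (h _).trans (hγP k w)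
    · have h1 : P w = 0 := by
        rw [hP1, max_eq_left]
        rcases eq_or_ne (w.1 Y) 0 with h2 | h2
        · rw [h2, log_zero]
        · rw [log_le_iff_le_exp h2, exp_zero]; exact hY1
      have h2 := hγP k w
      rw [h1, exp_zero] at h2 ⊢
      exact h _ h2

end Pool.Agent.Lib.MP_44a246_ntE
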