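import Mathlib
import Pool.Agent.Lib.MP_44a246_ntE.E04
import Pool.Agent.Lib.MP_44a246_ntE.E22
import Pool.Agent.Lib.MP_44a246_ntS.SD1

/-!
The number of parameters of the coordinate functions; plane projections of the curve.
-/

namespace Pool.Agent.Lib.MP_44a246_ntE

open Pool.Agent.Lib.MP_e52354_nt
open Pool.Agent.Lib.MP_44a246_nt
open Pool.Agent.Lib.MP_44a246_ntL
open Pool.Agent.Lib.MP_44a246_ntR
open Pool.Agent.Lib.MP_44a246_ntS
open Pool.Agent.Lib.MP_44a246_ntW
open WithZero Polynomial Module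

variable {L : Type*} [Field L] [CharZero L]

section Aux

variable {F : Type*} [Field F] [Algebra L F]

omit [CharZero L] in
private theorem e23_natDegree (A : L[X][X]) : (mp L F A).natDegree = A.natDegree :=
  natDegree_map_eq_of_injective (map_injective _ (algebraMap L F).injective) A

omit [CharZero L] in
private theorem e23_der (A : L[X][X]) : mp L F (derivative A) = derivative (mp L F A) :=
  (derivative_map A _).symm

private theorem e23_not_dvd {A : L[X][X]} (hdeg : A.natDegree ≠ 0) :
    ¬ mp L F A ∣ mp L F (derivative A) := by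
  have hc : CharZero F := charZero_of_injective_algebraMap (algebraMap L F).injective
  rw [e23_der]
  have h1 : (mp L F A).natDegree ≠ 0 := by rw [e23_natDegree]; exact hdeg
  have h2 : derivative (mp L F A) ≠ 0 := by
    intro h
    exact h1 (derivative_eq_zero.mp h)
  have h3 : mp L F A ≠ 0 := by
    intro h
    rw [h, natDegree_zero] at h1
    exact h1 rfl
  exact not_dvd_of_degree_lt h2 (degree_derivative_lt h3)

omit [CharZero L] in
/-- the degree argument: a combination of second derivatives which is divisible by the curve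
vanishes -/
private theorem e23_zero {A : L[X][X]} (hlc : A.leadingCoeff.Monic)
    {H : F[X][X]} (hH1 : H.natDegree ≤ A.natDegree)
    (hH2 : ∀ j, A.leadingCoeff.natDegree ≤ j → (H.coeff A.natDegree).coeff j = 0)
    (hdvd : mp L F A ∣ H) : H = 0 := by
  obtain ⟨q, hq⟩ := hdvd
  by_contra hH
  have hA0 : mp L F A ≠ 0 := by
    intro h
    rw [h, zero_mul] at hq
    exact hH hq
  have hq0 : q ≠ 0 := by
    rintro rfl
    rw [mul_zero] at hq
    exact hH hq
  have h1 : H.natDegree = A.natDegree + q.natDegree := by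
    rw [hq, natDegree_mul hA0 hq0, e23_natDegree]
  have h2 : q.natDegree = 0 := by omega
  obtain ⟨r, hr⟩ : ∃ r, q = C r := ⟨q.coeff 0, eq_C_of_natDegree_eq_zero h2⟩
  have hr0 : r ≠ 0 := by
    rintro rfl
    rw [C_0] at hr
    exact hq0 hr
  have h3 : H.coeff A.natDegree = (mp L F A).coeff A.natDegree * r := by
    rw [hq, hr, coeff_mul_C]
  have h4 : (mp L F A).coeff A.natDegree = A.leadingCoeff.map (algebraMap L F) := by
    ext j
    rw [mp_coeff, coeff_map]
    rfl
  have h5 : (A.leadingCoeff.map (algebraMap L F)).Monic := hlc.map _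
  have h6 : (A.leadingCoeff.map (algebraMap L F)).natDegree = A.leadingCoeff.natDegree :=
    natDegree_map _
  have h7 : H.coeff A.natDegree ≠ 0 := by
    rw [h3, h4]
    exact mul_ne_zero h5.ne_zero hr0
  have h8 : (H.coeff A.natDegree).natDegree = A.leadingCoeff.natDegree + r.natDegree := by
    rw [h3, h4, natDegree_mul h5.ne_zero hr0, h6]
  have h9 := hH2 (H.coeff A.natDegree).natDegree (by omega)
  rw [coeff_natDegree, leadingCoeff_eq_zero] at h9
  exact h7 h9

end Aux

private theorem e23_family {K N : Type*} [Field K] [AddCommGroup N] [Module K N]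
    (V : Submodule K N) : ∃ f : Fin (finrank K V) → N, LinearIndependent K f ∧ ∀ i, f i ∈ V := by
  obtain ⟨f, hf⟩ :=
    exists_linearIndependent_of_le_finrank (R := K) (M := V) (n := finrank K V) le_rfl
  exact ⟨fun i => f i, hf.map' V.subtype (Submodule.ker_subtype V), fun i => (f i).2⟩

section Main1

variable {F : Type*} [Field F] [IsAlgClosed F] [CharZero F] [Algebra L F] {M : Type*} [Field M]
  [Algebra F M]

private theorem e23_main1 {A : L[X][X]} (hdeg : A.natDegree ≠ 0)
    (hlc : A.leadingCoeff.Monic) {b : ℕ} {E : Derivation ℤ L L} {V : Submodule L L[X][X]}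
    (hV : ∀ G ∈ V, ∃ D : Derivation ℤ L L, cd D A = 0 ∧ G = cd D (cd E A))
    {P : Place F M →₀ ℤ} (ev : F[X][X] →+* M) (hFF : IsFF F M) (hP0 : ∀ w, 0 ≤ P w)
    (hPb : divDeg P ≤ b) (hevC : ∀ c : F, ev (C (C c)) = algebraMap F M c)
    (hev0 : ∀ G, ev G = 0 ↔ mp L F A ∣ G)
    (hD : ∀ (D : Derivation ℤ L L), cd D A = 0 →
        ev (mp L F (cd D (cd E A))) / ev (mp L F (derivative A)) ∈ rr P) :
    finrank L V ≤ b + 1 := by
  classical
  obtain ⟨f, hG, hfV⟩ := e23_family V
  have hGF := indep_mp (F := F) hG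
  have hY0 : ev (mp L F (derivative A)) ≠ 0 := fun h =>
    e23_not_dvd hdeg ((hev0 _).mp h)
  have hmem : ∀ i, ev (mp L F (f i)) /
      ev (mp L F (derivative A)) ∈ rr P := by
    intro i
    obtain ⟨D, hD1, hD2⟩ := hV _ (hfV i)
    rw [hD2]
    exact hD D hD1
  have hcoef : ∀ i j k, ((f i).coeff j).coeff k ≠ 0 →
      j ≤ A.natDegree ∧ (j = A.natDegree → k < A.leadingCoeff.natDegree) := by
    intro i j k hne
    obtain ⟨D, hD1, hD2⟩ := hV _ (hfV i)
    rw [hD2, cd_coeff, cd_coeff] at hne
    constructor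
    · by_contra hj
      apply hne
      rw [coeff_eq_zero_of_natDegree_lt (not_le.mp hj), coeff_zero, map_zero, map_zero]
    · intro hj
      by_contra hk
      apply hne
      rw [hj]
      change D (E (A.leadingCoeff.coeff k)) = 0
      rcases (not_lt.mp hk).eq_or_lt with h | h
      · rw [← h, hlc.coeff_natDegree, E.map_one_eq_zero, map_zero]
      · rw [coeff_eq_zero_of_natDegree_lt h, map_zero, map_zero]
  have hli : LinearIndependent F fun i =>
      (⟨ev (mp L F (f i)) /
        ev (mp L F (derivative A)), hmem i⟩ : rr P) := by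
    rw [Fintype.linearIndependent_iff]
    intro g hg
    have h1 := congrArg (fun z : rr P => (z : M)) hg
    simp only [Submodule.coe_sum, Submodule.coe_smul, Submodule.coe_zero, Algebra.smul_def] at h1
    have h2 : ev (∑ i, C (C (g i)) * mp L F (f i)) = 0 := by
      rw [map_sum]
      have h3 := congrArg (· * ev (mp L F (derivative A))) h1
      simp only [Finset.sum_mul, zero_mul] at h3
      rw [← h3]
      refine Finset.sum_congr rfl fun i _ => ?_
      rw [map_mul, hevC]
      field_simp
    have h4 : ∑ i, C (C (g i)) * mp L F (f i) = 0 := by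
      refine e23_zero hlc ?_ ?_ ((hev0 _).mp h2)
      · rw [natDegree_le_iff_coeff_eq_zero]
        intro j hj
        rw [finsetSum_coeff]
        refine Finset.sum_eq_zero fun i _ => ?_
        ext k
        rw [coeff_C_mul, coeff_C_mul, mp_coeff, coeff_zero]
        have : ((f i).coeff j).coeff k = 0 := by
          by_contra hne
          have := (hcoef i j k hne).1
          omega
        rw [this, map_zero, mul_zero]
      · intro k hk
        rw [finsetSum_coeff, finsetSum_coeff]
        refine Finset.sum_eq_zero fun i _ => ?_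
        rw [coeff_C_mul, coeff_C_mul, mp_coeff]
        have : ((f i).coeff A.natDegree).coeff k = 0 := by
          by_contra hne
          have := (hcoef i _ k hne).2 rfl
          omega
        rw [this, map_zero, mul_zero]
    have h5 : ∑ i, g i • mp L F (f i) = 0 := by
      rw [← h4]
      refine Finset.sum_congr rfl fun i _ => ?_
      rw [Algebra.smul_def]
      rfl
    exact Fintype.linearIndependent_iff.mp hGF g h5
  have hfd : FiniteDimensional F (rr P) := finite_rr hFF P
  have h6 := hli.fintype_card_le_finrank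
  rw [Fintype.card_fin] at h6
  have hdeg0 : 0 ≤ divDeg P := by
    unfold divDeg
    exact Finset.sum_nonneg fun v _ => hP0 v
  have h7 := finrank_rr_le_deg hFF (D := P) (by linarith)
  have h8 : ((finrank L V : ℕ) : ℤ) ≤ (b : ℤ) + 1 := by
    have : ((finrank L V : ℕ) : ℤ) ≤ (finrank F (rr P) : ℤ) := by
      exact_mod_cast h6
    linarith
  exact_mod_cast h8

end Main1

/-- **The derivatives of a coordinate function** by the derivations which kill the coefficients of
the curve form a space of dimension at most `b + 1`. -/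
theorem finrank_der_le {A : L[X][X]} (hA : Irreducible A) (hdeg : A.natDegree ≠ 0)
    (hlc : A.leadingCoeff.Monic) {y₁ y : L} (h0 : A.evalEval y₁ y = 0)
    (hY : (derivative A).evalEval y₁ y ≠ 0) {b : ℕ} (hb : ∀ i, (A.coeff i).natDegree ≤ b)
    {E : Derivation ℤ L L} (hE : A ∣ EE E E A) {V : Submodule L L[X][X]}
    (hV : ∀ G ∈ V, ∃ D : Derivation ℤ L L, cd D A = 0 ∧ G = cd D (cd E A)) :
    finrank L V ≤ b + 1 := by
  -- `exists_curve_field` with `N = Unit`. `n` independent elements `G i` of `V`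
  -- (`finrank_le_of_...` / `exists_linearIndependent`): `mp (G i)` are independent over `Ω`
  -- (`indep_mp`), and a relation `∑ ω i ev (mp (G i)) = 0` means `mp A ∣ ∑ ω i mp (G i) =: H`.
  -- `H.natDegree ≤ m = A.natDegree`, and the coefficient of `H` with index `m` has degree less
  -- than that of the leading coefficient of `A` (`degree_cp_lt` for the monic polynomial
  -- `A.leadingCoeff`, twice; `natDegree_cp_le`), so `H = q * mp A` is `0` (if `q ≠ 0`, then
  -- `q.natDegree = 0` and the coefficient with index `m` is `q₀ * lc`). So the elements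
  -- `ev (mp (G i)) / ev (A_Y) ∈ rr P` are independent: `n ≤ finrank (rr P) ≤ b + 1`
  -- (`finrank_rr_le_deg`, `finite_rr`; `0 ≤ divDeg P`).
  obtain ⟨M, _, _, γ, P, ev, hFF, hP0, hPb, hevC, hev0, -, -, hD⟩ :=
    exists_curve_field hA hdeg h0 hY hb (N := Unit) (fun _ => E) (fun _ => hE)
  exact e23_main1 hdeg hlc hV ev hFF hP0 hPb hevC hev0 fun D h => hD D h ()

section Aux2

variable {F : Type*} [Field F] [Algebra L F]

omit [CharZero L] in
private theorem e23_fn_add (φ : F →ₗ[L] L) (P Q : F[X][X]) :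
    fn φ (P + Q) = fn φ P + fn φ Q := by
  ext i j
  simp only [fn_coeff, coeff_add, map_add]

omit [CharZero L] in
private theorem e23_fn_sum (φ : F →ₗ[L] L) {ι : Type*} (s : Finset ι) (P : ι → F[X][X]) :
    fn φ (∑ i ∈ s, P i) = ∑ i ∈ s, fn φ (P i) := by
  ext i j
  simp only [fn_coeff, finsetSum_coeff, map_sum]

omit [CharZero L] in
private theorem e23_fn_C (φ : F →ₗ[L] L) (c : F) : fn φ (C (C c)) = C (C (φ c)) := by
  ext i j
  rw [fn_coeff]
  simp only [coeff_C]
  split_ifs with h1
  · simp only [coeff_C]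
    split_ifs with h2
    · rfl
    · rw [map_zero]
  · rw [coeff_zero, map_zero, coeff_zero]

end Aux2

section Main2

variable {F : Type*} [Field F] [IsAlgClosed F] [CharZero F] [Algebra L F] {M : Type*} [Field M]
  [Algebra F M]

omit [CharZero L] in
private theorem e23_main2 {A : L[X][X]} {b : ℕ} (hb1 : 1 ≤ b) {n : ℕ}
    {E : Fin (n + 1) → Derivation ℤ L L} (u : Fin 3 → Fin (n + 1) → ℕ)
    {P : Place F M →₀ ℤ} (ev : F[X][X] →+* M) (hFF : IsFF F M) (hP0 : ∀ w, 0 ≤ P w)
    (hPb : divDeg P ≤ b) (hevC : ∀ c : F, ev (C (C c)) = algebraMap F M c)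
    (hev0 : ∀ G, ev G = 0 ↔ mp L F A ∣ G) (γ : Fin (n + 1) → M) (hγ : ∀ k, γ k ∈ rr P)
    (hγ2 : ∀ k, γ k * ev (mp L F (derivative A)) = ev (mp L F (-cd (E k) A))) :
    ∃ P : MvPolynomial (Fin 3) L, P ≠ 0 ∧ P.IsHomogeneous (2 * b) ∧
      A ∣ MvPolynomial.aeval (fun i => ∑ j, C (C (u i j : L)) * -cd (E j) A) P := by
  classical
  set z : Fin 3 → M := fun i => ∑ j, (u i j : M) * γ j with hz
  set B : Fin 3 → L[X][X] := fun i => ∑ j, C (C (u i j : L)) * -cd (E j) A with hB
  have hzB : ∀ i, z i * ev (mp L F (derivative A)) =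
      ev (mp L F (B i)) := by
    intro i
    rw [hz, hB]
    simp only
    rw [Finset.sum_mul, map_sum, map_sum]
    refine Finset.sum_congr rfl fun j _ => ?_
    rw [map_mul, map_mul, mul_assoc, hγ2]
    congr 1
    have h1 : mp L F (C (C (u i j : L))) = (u i j : F[X][X]) := by
      have : (C (C (u i j : L)) : L[X][X]) = ((u i j : ℕ) : L[X][X]) := by simp
      rw [this, map_natCast]
    rw [h1, map_natCast]
  have hzr : ∀ i, z i ∈ rr P := by
    intro i
    refine Submodule.sum_mem _ fun j _ => ?_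
    have h1 : (u i j : M) * γ j = ((u i j : ℕ) : F) • γ j := by
      rw [Algebra.smul_def, map_natCast]
    rw [h1]
    exact Submodule.smul_mem _ _ (hγ j)
  have hmsum : ∀ m : M3 (2 * b), ∑ i, m.1 i = 2 * b := by
    intro m
    have := mem_expo.mp m.2
    rwa [Finsupp.degree_eq_sum] at this
  have hmem : ∀ m : M3 (2 * b), ∏ i, z i ^ (m.1 i) ∈ rr ((2 * b) • P) := by
    intro m w
    rw [map_prod]
    simp only [map_pow]
    calc ∏ i, w.1 (z i) ^ m.1 i ≤ ∏ i, exp (P w) ^ m.1 i :=
          Finset.prod_le_prod' fun i _ => pow_le_pow_left' (hzr i w) _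
      _ = exp (P w) ^ (∑ i, m.1 i) := Finset.prod_pow_eq_pow_sum _ _ _
      _ = exp (((2 * b) • P) w) := by
          rw [hmsum, ← exp_nsmul, Finsupp.smul_apply]
  have hdeg0 : 0 ≤ divDeg P := by
    unfold divDeg
    exact Finset.sum_nonneg fun v _ => hP0 v
  have hsm : ∀ m : ℕ, divDeg (m • P) = m * divDeg P := by
    intro m
    induction m with
    | zero => simp [divDeg]
    | succ k ih =>
      rw [succ_nsmul, divDeg_add, ih]
      push_cast
      ring
  have hfd : FiniteDimensional F (rr ((2 * b) • P)) := finite_rr hFF _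
  have hdep : ¬ LinearIndependent F fun m : M3 (2 * b) =>
      (⟨∏ i, z i ^ (m.1 i), hmem m⟩ : rr ((2 * b) • P)) := by
    intro hli
    have h1 := hli.fintype_card_le_finrank
    rw [card_M3] at h1
    have h2 := finrank_rr_le_deg hFF (D := (2 * b) • P) (by
      rw [hsm]
      have : 0 ≤ ((2 * b : ℕ) : ℤ) * divDeg P := mul_nonneg (Int.natCast_nonneg _) hdeg0
      linarith)
    rw [hsm] at h2
    have h3 : ((2 * b : ℕ) : ℤ) * divDeg P ≤ ((2 * b : ℕ) : ℤ) * b :=
      mul_le_mul_of_nonneg_left hPb (Int.natCast_nonneg _)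
    have h4 : (2 * b + 1) * (2 * b + 2) / 2 = 2 * b * b + 3 * b + 1 := by
      have : (2 * b + 1) * (2 * b + 2) = 2 * (2 * b * b + 3 * b + 1) := by ring
      rw [this]
      exact Nat.mul_div_cancel_left _ (by norm_num)
    rw [h4] at h1
    have h5 : ((2 * b * b + 3 * b + 1 : ℕ) : ℤ) ≤
        (finrank F (rr ((2 * b) • P)) : ℤ) := by exact_mod_cast h1
    push_cast at h5 h3 h2
    have h6 : (1 : ℤ) ≤ b := by exact_mod_cast hb1
    nlinarith
  obtain ⟨c, hc, m₀, hm₀⟩ := Fintype.not_linearIndependent_iff.mp hdep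
  have hc1 : ∑ m : M3 (2 * b), algebraMap F M (c m) * ∏ i, z i ^ (m.1 i) = 0 := by
    have h1 := congrArg (fun z : rr ((2 * b) • P) => (z : M)) hc
    simpa only [Submodule.coe_sum, Submodule.coe_smul, Submodule.coe_zero,
      Algebra.smul_def] using h1
  have hR : ev (∑ m : M3 (2 * b), mp L F (∏ i, B i ^ (m.1 i)) *
      C (C (c m))) = 0 := by
    rw [map_sum]
    have h1 : ∀ m : M3 (2 * b), ev (mp L F (∏ i, B i ^ (m.1 i)) * C (C (c m))) =
        ev (mp L F (derivative A)) ^ (2 * b) *
          (algebraMap F M (c m) * ∏ i, z i ^ (m.1 i)) := by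
      intro m
      rw [map_mul, hevC, map_prod, map_prod]
      simp only [map_pow, ← hzB, mul_pow]
      rw [Finset.prod_mul_distrib, Finset.prod_pow_eq_pow_sum, hmsum]
      ring
    rw [Finset.sum_congr rfl fun m _ => h1 m, ← Finset.mul_sum, hc1, mul_zero]
  obtain ⟨φ, hφ⟩ : ∃ φ : Module.Dual L F, φ (c m₀) ≠ 0 := by
    by_contra hcon
    push Not at hcon
    exact hm₀ ((Module.forall_dual_apply_eq_zero_iff L (c m₀)).mp hcon)
  refine ⟨∑ m : M3 (2 * b), MvPolynomial.monomial m.1 (φ (c m)), ?_, ?_, ?_⟩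
  · intro h
    have h1 := congrArg (MvPolynomial.coeff m₀.1) h
    rw [MvPolynomial.coeff_sum, MvPolynomial.coeff_zero] at h1
    simp only [MvPolynomial.coeff_monomial] at h1
    rw [Finset.sum_eq_single m₀] at h1
    · rw [if_pos rfl] at h1
      exact hφ h1
    · intro m _ hm
      rw [if_neg]
      intro h2
      exact hm (Subtype.ext h2)
    · intro h2
      exact absurd (Finset.mem_univ _) h2
  · refine MvPolynomial.IsHomogeneous.sum _ _ _ fun m _ => ?_
    exact MvPolynomial.isHomogeneous_monomial _ (mem_expo.mp m.2)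
  · have h1 := dvd_fn φ ((hev0 _).mp hR)
    have h2 : fn φ (∑ m : M3 (2 * b), mp L F (∏ i, B i ^ (m.1 i)) *
        C (C (c m))) = MvPolynomial.aeval B
          (∑ m : M3 (2 * b), MvPolynomial.monomial m.1 (φ (c m))) := by
      rw [e23_fn_sum, map_sum]
      refine Finset.sum_congr rfl fun m _ => ?_
      rw [fn_mul, e23_fn_C, MvPolynomial.aeval_monomial, Finsupp.prod_fintype _ _ (fun i => pow_zero _),
        mul_comm]
      rfl
    rw [h2] at h1
    exact h1

end Main2

/-- **The plane projections of the curve** have degree at most `2 b`. -/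
theorem exists_proj_form {A : L[X][X]} (hA : Irreducible A) (hdeg : A.natDegree ≠ 0)
    {y₁ y : L} (h0 : A.evalEval y₁ y = 0)
    (hY : (derivative A).evalEval y₁ y ≠ 0) {b : ℕ} (hb : ∀ i, (A.coeff i).natDegree ≤ b)
    (hb1 : 1 ≤ b) {n : ℕ} {E : Fin (n + 1) → Derivation ℤ L L} (hE : ∀ k, A ∣ EE (E k) (E k) A)
    (u : Fin 3 → Fin (n + 1) → ℕ) :
    ∃ P : MvPolynomial (Fin 3) L, P ≠ 0 ∧ P.IsHomogeneous (2 * b) ∧
      A ∣ MvPolynomial.aeval (fun i => ∑ j, C (C (u i j : L)) * -cd (E j) A) P := by
  -- `exists_curve_field`. `z i = ∑ u i j * γ j ∈ rr P`; the monomials of degree `2 b` in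
  -- the `z i` are in `rr ((2 b) • P)` of dimension at most `2 b * b + 1` (`finrank_rr_le_deg`),
  -- less than their number `(2 b + 1) (2 b + 2) / 2` (`card_M3`, `two_N3` in MP_44a246_ntS or
  -- count directly), so there is a form `Q ≠ 0` over `Ω` of degree `2 b` with `Q (z) = 0`;
  -- multiply with `ev (A_Y) ^ (2 b)`: `ev (Q (u B)) = 0`, `mp A ∣ Q (u B)`. A functional
  -- `φ : Ω → L` with `φ (c) ≠ 0` for one of the coefficients of `Q`: `P = φ (Q)`, `dvd_fn`
  -- (`fn φ` of `C (C c) * mp G` is `C (C (φ c)) * G`).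
  obtain ⟨M, _, _, γ, P, ev, hFF, hP0, hPb, hevC, hev0, hγ, hγ2, -⟩ :=
    exists_curve_field hA hdeg h0 hY hb E hE
  exact e23_main2 hb1 u ev hFF hP0 hPb hevC hev0 γ hγ hγ2

end Pool.Agent.Lib.MP_44a246_ntE
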