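import Mathlib

/-!
Duality for spaces of rows.
-/

namespace Pool.Agent.Lib.MP_44a246_ntE

open Module

private theorem e24_iSup {L M J : Type*} [Field L] [AddCommGroup M] [Module L M]
    [FiniteDimensional L M] [Fintype J] (X : J → Submodule L M) {N : ℕ}
    (h : ∀ k, finrank L (X k) ≤ N) : finrank L ↥(⨆ k, X k) ≤ Fintype.card J * N := by
  classical
  have key : ∀ S : Finset J, finrank L ↥(S.sup X) ≤ S.card * N := by
    intro S
    induction S using Finset.induction_on with
    | empty =>
      rw [Finset.sup_empty, finrank_bot]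
      exact Nat.zero_le _
    | insert a S ha ih =>
      rw [Finset.sup_insert, Finset.card_insert_of_notMem ha]
      have h1 := Submodule.finrank_add_le_finrank_add_finrank (X a) (S.sup X)
      have h2 := h a
      nlinarith
  have h1 := key Finset.univ
  rw [Finset.sup_univ_eq_iSup, Finset.card_univ] at h1
  exact h1

private theorem e24_quot {L M : Type*} [Field L] [AddCommGroup M] [Module L M]
    [FiniteDimensional L M] (U T : Submodule L M) :
    finrank L ↥(U ⊔ T) ≤ finrank L U + finrank L ↥(T.map U.mkQ) := by
  have h1 := LinearMap.finrank_range_add_finrank_ker (U.mkQ.domRestrict (U ⊔ T))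
  have h2 : LinearMap.range (U.mkQ.domRestrict (U ⊔ T)) = T.map U.mkQ := by
    rw [LinearMap.range_domRestrict, Submodule.map_sup]
    have h3 : U.map U.mkQ = ⊥ := by
      rw [eq_bot_iff, Submodule.map_le_iff_le_comap]
      intro x hx
      rw [Submodule.mem_comap, Submodule.mem_bot, Submodule.mkQ_apply,
        Submodule.Quotient.mk_eq_zero]
      exact hx
    rw [h3, bot_sup_eq]
  have h4 : finrank L ↥(LinearMap.ker (U.mkQ.domRestrict (U ⊔ T))) ≤ finrank L U := by
    have h5 : ∀ x : ↥(LinearMap.ker (U.mkQ.domRestrict (U ⊔ T))),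
        ((x : ↥(U ⊔ T)) : M) ∈ U := by
      intro x
      have h6 := x.2
      rw [LinearMap.mem_ker, LinearMap.domRestrict_apply, Submodule.mkQ_apply,
        Submodule.Quotient.mk_eq_zero] at h6
      exact h6
    let F : ↥(LinearMap.ker (U.mkQ.domRestrict (U ⊔ T))) →ₗ[L] U :=
      { toFun := fun x => ⟨((x : ↥(U ⊔ T)) : M), h5 x⟩
        map_add' := fun x y => rfl
        map_smul' := fun c x => rfl }
    refine LinearMap.finrank_le_finrank_of_injective (f := F) ?_
    intro x y hxy
    apply Subtype.ext
    apply Subtype.ext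
    exact congrArg (fun u : U => (u : M)) hxy
  rw [h2] at h1
  omega

/-- **The dimension of a space of rows.** Let `rA a`, `rB k t` be vectors in `K → L`. For every `k`
let the space of the vectors `(⟨c, rB k t⟩)_t`, for the `c` orthogonal to all the `rA a`, have
dimension at most `N`. Then the vectors `rA a`, `rB k t` span a space of dimension at most
`card α + card J * N`. -/
theorem finrank_rows_le {L : Type*} [Field L] {K α J τ : Type*} [Fintype K] [Fintype α] [Fintype J]
    [Fintype τ] (rA : α → K → L) (rB : J → τ → K → L) {N : ℕ}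
    (h : ∀ k, ∀ V : Submodule L (τ → L), (∀ v ∈ V, ∃ c : K → L, (∀ a, ∑ i, c i * rA a i = 0) ∧
      v = fun t => ∑ i, c i * rB k t i) → finrank L V ≤ N) :
    finrank L ↥(Submodule.span L (Set.range rA) ⊔
      ⨆ k, Submodule.span L (Set.range (rB k))) ≤ Fintype.card α + Fintype.card J * N := by
  -- induction on `J` or `finrank (U ⊔ ⨆ W k) ≤ finrank U + ∑ (finrank (U ⊔ W k) - finrank U)`.
  -- For one `k`: `U = span (range rA)`, `W = span (range (rB k))`. The annihilator of `U`
  -- (`c` with `∑ c i * rA a i = 0`) has dimension `card K - finrank U`; the linear map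
  -- `c ↦ (⟨c, rB k t⟩)_t` on it has the annihilator of `U ⊔ W` as kernel, of dimension
  -- `card K - finrank (U ⊔ W)`, and its range is a space `V` as in `h`. Use
  -- `Matrix.rank`/`LinearMap.ker` or `Subspace.finrank_dualAnnihilator...`
  -- (`dotProduct` gives an isomorphism of `K → L` with its dual).
  classical
  obtain ⟨U, hU⟩ : ∃ U : Submodule L (K → L), U = Submodule.span L (Set.range rA) := ⟨_, rfl⟩
  have hUf : finrank L U ≤ Fintype.card α := by
    rw [hU]
    exact finrank_range_le_card rA
  rw [← hU]
  have hW : ∀ k, finrank L ↥((Submodule.span L (Set.range (rB k))).map U.mkQ) ≤ N := by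
    intro k
    obtain ⟨M, hM⟩ : ∃ M : (τ → L) →ₗ[L] ((K → L) ⧸ U),
        M = Fintype.linearCombination L (fun t => U.mkQ (rB k t)) := ⟨_, rfl⟩
    have hMs : ∀ t, M (Pi.single t 1) = U.mkQ (rB k t) := by
      intro t
      rw [hM, Fintype.linearCombination_apply, Finset.sum_eq_single t]
      · rw [Pi.single_eq_same, one_smul]
      · intro t' _ ht'
        rw [Pi.single_eq_of_ne ht', zero_smul]
      · intro h0
        exact absurd (Finset.mem_univ t) h0
    have hrange : LinearMap.range M = (Submodule.span L (Set.range (rB k))).map U.mkQ := by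
      rw [hM, Fintype.range_linearCombination, Submodule.map_span, ← Set.range_comp]
      rfl
    rw [← hrange, ← LinearMap.finrank_range_dualMap_eq_finrank_range]
    let ev : Module.Dual L (τ → L) →ₗ[L] (τ → L) :=
      { toFun := fun f t => f (Pi.single t 1)
        map_add' := fun f g => rfl
        map_smul' := fun c f => rfl }
    have hev : Function.Injective ev := by
      intro f g hfg
      refine LinearMap.pi_ext' fun t => ?_
      refine LinearMap.ext_ring ?_
      exact congrFun hfg t
    have h1 : finrank L ↥(LinearMap.range M.dualMap) =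
        finrank L ↥((LinearMap.range M.dualMap).map ev) :=
      (LinearEquiv.finrank_eq (Submodule.equivMapOfInjective ev hev _))
    rw [h1]
    refine h k _ fun v hv => ?_
    obtain ⟨_, ⟨φ, rfl⟩, rfl⟩ := hv
    have hc : ∀ x : K → L, ∑ i, φ (U.mkQ (Pi.single i 1)) * x i = φ (U.mkQ x) := by
      intro x
      have h2 : x = ∑ i, x i • (Pi.single i (1 : L) : K → L) := by
        funext j
        rw [Finset.sum_apply, Finset.sum_eq_single j]
        · rw [Pi.smul_apply, Pi.single_eq_same, smul_eq_mul, mul_one]
        · intro i _ hi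
          rw [Pi.smul_apply, Pi.single_eq_of_ne (Ne.symm hi), smul_zero]
        · intro h0
          exact absurd (Finset.mem_univ j) h0
      conv_rhs => rw [h2]
      rw [map_sum, map_sum]
      refine Finset.sum_congr rfl fun i _ => ?_
      rw [map_smul, map_smul, smul_eq_mul, mul_comm]
    refine ⟨fun i => φ (U.mkQ (Pi.single i 1)), fun a => ?_, ?_⟩
    · rw [hc]
      have h3 : U.mkQ (rA a) = 0 := by
        rw [Submodule.mkQ_apply, Submodule.Quotient.mk_eq_zero, hU]
        exact Submodule.subset_span ⟨a, rfl⟩
      rw [h3, map_zero]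
    · funext t
      rw [hc]
      change φ (M (Pi.single t 1)) = _
      rw [hMs]
  refine (e24_quot U _).trans ?_
  refine Nat.add_le_add hUf ?_
  rw [Submodule.map_iSup]
  exact e24_iSup _ hW

end Pool.Agent.Lib.MP_44a246_ntE
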