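import Mathlib
import Pool.Agent.Lib.MP_44a246_ntE.E23
import Pool.Agent.Lib.MP_44a246_ntE.E24
import Pool.Agent.Lib.MP_44a246_ntG.G14
import Pool.Agent.Lib.MP_44a246_ntG.G10

/-!
The dimension of the space of the rows, linear in the degree of the curve.
-/

namespace Pool.Agent.Lib.MP_44a246_ntE

open Pool.Agent.Lib.MP_44a246_nt
open Pool.Agent.Lib.MP_44a246_ntL
open Pool.Agent.Lib.MP_44a246_ntS
open Pool.Agent.Lib.MP_44a246_ntX
open Pool.Agent.Lib.MP_44a246_ntG
open Pool.Agent.Lib.MP_44a246_ntW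
open Pool.Agent.Lib.MP_e52354_nt
open WithZero Module Polynomial

private theorem e25_gauss (b : ℕ) :
    2 * ∑ i ∈ Finset.range (b + 1), (i + 1) = (b + 1) * (b + 2) := by
  induction b with
  | zero => rfl
  | succ b ih =>
    rw [Finset.sum_range_succ, Nat.mul_add, ih]
    ring

/-- the polynomial with the coefficients `v` -/
private noncomputable def e25_phi (L : Type*) [Field L] (b : ℕ) :
    (Fin (b + 1) × Fin (b + 1) → L) →ₗ[L] L[X][X] where
  toFun v := ∑ t : Fin (b + 1) × Fin (b + 1), monomial (t.1 : ℕ) (monomial (t.2 : ℕ) (v t))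
  map_add' u v := by
    simp only [Pi.add_apply, map_add, Finset.sum_add_distrib]
  map_smul' c v := by
    simp only [Pi.smul_apply, RingHom.id_apply, Finset.smul_sum, smul_monomial]

private theorem e25_phi_coeff (L : Type*) [Field L] (b : ℕ) (v : Fin (b + 1) × Fin (b + 1) → L)
    (i j : ℕ) : ((e25_phi L b v).coeff i).coeff j =
      if h : i < b + 1 ∧ j < b + 1 then v (⟨i, h.1⟩, ⟨j, h.2⟩) else 0 := by
  classical
  change ((∑ t : Fin (b + 1) × Fin (b + 1),
    monomial (t.1 : ℕ) (monomial (t.2 : ℕ) (v t))).coeff i).coeff j = _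
  rw [finsetSum_coeff, finsetSum_coeff]
  have h1 : ∀ t : Fin (b + 1) × Fin (b + 1),
      ((monomial (t.1 : ℕ) (monomial (t.2 : ℕ) (v t))).coeff i).coeff j =
        if ((t.1 : ℕ) = i ∧ (t.2 : ℕ) = j) then v t else 0 := by
    intro t
    rw [coeff_monomial]
    by_cases h1 : (t.1 : ℕ) = i
    · rw [if_pos h1, coeff_monomial]
      by_cases h2 : (t.2 : ℕ) = j
      · rw [if_pos h2, if_pos ⟨h1, h2⟩]
      · rw [if_neg h2, if_neg fun h => h2 h.2]
    · rw [if_neg h1, coeff_zero, if_neg fun h => h1 h.1]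
  rw [Finset.sum_congr rfl fun t _ => h1 t]
  split_ifs with h
  · rw [Finset.sum_eq_single ((⟨i, h.1⟩, ⟨j, h.2⟩) : Fin (b + 1) × Fin (b + 1))]
    · rw [if_pos ⟨rfl, rfl⟩]
    · rintro ⟨t1, t2⟩ _ ht
      rw [if_neg]
      rintro ⟨h2, h3⟩
      refine ht ?_
      refine Prod.ext ?_ ?_
      · exact Fin.ext h2
      · exact Fin.ext h3
    · intro h0
      exact absurd (Finset.mem_univ _) h0
  · refine Finset.sum_eq_zero fun t _ => ?_
    rw [if_neg]
    rintro ⟨h2, h3⟩
    exact h ⟨h2 ▸ t.1.2, h3 ▸ t.2.2⟩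

private theorem e25_phi_inj (L : Type*) [Field L] (b : ℕ) : Function.Injective (e25_phi L b) := by
  intro u v huv
  funext t
  have h1 := e25_phi_coeff L b u t.1 t.2
  have h2 := e25_phi_coeff L b v t.1 t.2
  rw [dif_pos ⟨t.1.2, t.2.2⟩] at h1 h2
  rw [← huv, h1] at h2
  exact h2

variable {κ L : Type*} [Field κ] [IsAlgClosed κ] [CharZero κ] [Field L] [CharZero L]
  [Algebra κ L]

/-- **The dimension of the space of the rows.** -/
theorem finrank_VJ_new (h : IsFF κ L) {n d : ℕ} (X : DatG κ (L := L) n d) {b : ℕ} {A : L[X][X]}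
    (J : Finset (Fin (n + 1))) (hA : CrvG X b A) (hlc : A.leadingCoeff.Monic)
    (htot : ∀ i j, b < i + j → (A.coeff i).coeff j = 0)
    (hspan : 9 * (b : ℤ) * gh κ A + 3 * b * X.Δ < height κ X.x) :
    2 * finrank L (X.VJ J b A) ≤ (b + 1) * (b + 2) + 2 * J.card * (b + 1) + 2 := by
  -- `finrank_rows_le` with `rA` = the rows of the coefficients of `A` with `i + j ≤ b` (their
  -- number is `(b + 1) (b + 2) / 2`; the other rows are `0`) and
  -- `rB k (i, j)` = the rows of the coefficients of `X.B A k`; `X.row X.y₁` adds `1`. The pairing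
  -- of `c` with the row of `e : L` is `D e` for `D = ∑ c K • X.DK K` (a derivation); `c`
  -- orthogonal to the rows of the coefficients of `A` means `cd D A = 0`, and the vector of the
  -- pairings with the rows of `B k` is the coefficient vector of `cd D (X.B A k)`
  -- `= - cd D (cd (X.E k) A)`: `finrank_der_le` with `hE` from `dvd_EE` (G14), `deg_X ≤ b`.
  classical
  let rA : (Σ i : Fin (b + 1), Fin ((i : ℕ) + 1)) → M3 d → L := fun t =>
    X.row ((A.coeff ((t.1 : ℕ) - (t.2 : ℕ))).coeff (t.2 : ℕ))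
  let rB : ↥J → (Fin (b + 1) × Fin (b + 1)) → M3 d → L := fun k t =>
    X.row (((X.B A k.1).coeff (t.1 : ℕ)).coeff (t.2 : ℕ))
  -- the rows of the coefficients of `A`
  have hrA : ∀ i j : ℕ, i + j ≤ b →
      ∃ t, rA t = X.row ((A.coeff i).coeff j) := by
    intro i j hij
    refine ⟨⟨⟨i + j, by omega⟩, ⟨j, by
      change j < i + j + 1
      omega⟩⟩, ?_⟩
    change X.row ((A.coeff (i + j - j)).coeff j) = _
    rw [Nat.add_sub_cancel]
  -- the derivation of a vector
  have hder : ∀ c : M3 d → L, ∃ D : Derivation ℤ L L, ∀ e : L, D e = ∑ K, c K * X.row e K := by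
    intro c
    refine ⟨∑ K, c K • X.DK K, fun e => ?_⟩
    rw [← Derivation.coeFnAddMonoidHom_apply, map_sum, Finset.sum_apply]
    rfl
  have hkey := finrank_rows_le rA rB (N := b + 1) (by
    intro k V hV
    have h1 : finrank L V = finrank L ↥(V.map (e25_phi L b)) :=
      LinearEquiv.finrank_eq (Submodule.equivMapOfInjective (e25_phi L b) (e25_phi_inj L b) V)
    rw [h1]
    refine finrank_der_le hA.irr hA.deg hlc hA.zero hA.der hA.box.2 (E := X.E k.1)
      (dvd_EE X hA h hspan k.1 k.1) ?_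
    intro G hG
    obtain ⟨v, hv, rfl⟩ := Submodule.mem_map.1 hG
    obtain ⟨c, hc, rfl⟩ := hV v hv
    obtain ⟨D, hD⟩ := hder c
    have hDA : ∀ i j, D ((A.coeff i).coeff j) = 0 := by
      intro i j
      by_cases hij : i + j ≤ b
      · obtain ⟨t, ht⟩ := hrA i j hij
        rw [hD, ← ht]
        exact hc t
      · rw [htot i j (by omega), map_zero]
    refine ⟨-D, ?_, ?_⟩
    · ext i j
      rw [cd_coeff, Derivation.neg_apply, hDA, neg_zero, coeff_zero, coeff_zero]
    · ext i j
      rw [e25_phi_coeff, cd_coeff, Derivation.neg_apply]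
      have h2 : ((X.B A k.1).coeff i).coeff j = -((cd (X.E k.1) A).coeff i).coeff j := by
        unfold DatG.B
        rw [coeff_neg, coeff_neg]
      have h3 : -D (((cd (X.E k.1) A).coeff i).coeff j) = D (((X.B A k.1).coeff i).coeff j) := by
        rw [h2, map_neg]
      rw [h3]
      split_ifs with hij
      · rw [hD]
      · have hbox : Box b (cd (X.E k.1) A) := cd_box hA.box
        have h4 : ((cd (X.E k.1) A).coeff i).coeff j = 0 := by
          by_cases hi : i < b + 1
          · exact coeff_eq_zero_of_natDegree_lt (lt_of_le_of_lt (hbox.2 i) (by omega))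
          · rw [coeff_eq_zero_of_natDegree_lt (lt_of_le_of_lt hbox.1 (by omega)), coeff_zero]
        rw [h2, h4, neg_zero, map_zero])
  -- the space of the rows
  have hle : X.VJ J b A ≤ (Submodule.span L (Set.range rA) ⊔
      ⨆ k, Submodule.span L (Set.range (rB k))) ⊔ Submodule.span L {X.row X.y₁} := by
    unfold DatG.VJ
    refine sup_le (Finset.sup_le fun t _ => ?_) le_sup_right
    refine le_trans ?_ le_sup_left
    rw [Submodule.span_singleton_le_iff_mem]
    obtain ⟨o, i, j⟩ := t
    cases o with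
    | none =>
      refine Submodule.mem_sup_left ?_
      change X.row ((A.coeff i).coeff j) ∈ _
      by_cases hij : (i : ℕ) + (j : ℕ) ≤ b
      · obtain ⟨t, ht⟩ := hrA i j hij
        rw [← ht]
        exact Submodule.subset_span ⟨t, rfl⟩
      · rw [htot i j (by omega), X.row_zero]
        exact Submodule.zero_mem _
    | some k =>
      refine Submodule.mem_sup_right ?_
      refine Submodule.mem_iSup_of_mem k ?_
      exact Submodule.subset_span ⟨(i, j), rfl⟩
  have h1 := Submodule.finrank_mono hle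
  have h2 := Submodule.finrank_add_le_finrank_add_finrank
    (Submodule.span L (Set.range rA) ⊔ ⨆ k, Submodule.span L (Set.range (rB k)))
    (Submodule.span L {X.row X.y₁})
  have h3 : finrank L ↥(Submodule.span L {X.row X.y₁}) ≤ 1 := by
    have h4 := finrank_range_le_card (R := L) (fun _ : Unit => X.row X.y₁)
    rw [Set.range_const, Fintype.card_unit] at h4
    exact h4
  have h5 : 2 * Fintype.card (Σ i : Fin (b + 1), Fin ((i : ℕ) + 1)) = (b + 1) * (b + 2) := by
    rw [Fintype.card_sigma, ← e25_gauss b]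
    simp only [Fintype.card_fin]
    rw [Fin.sum_univ_eq_sum_range (fun i => i + 1) (b + 1)]
  rw [Fintype.card_coe] at hkey
  have h6 := (h1.trans h2).trans (Nat.add_le_add hkey h3)
  have h7 : 2 * (J.card * (b + 1)) = 2 * J.card * (b + 1) := by ring
  omega

/-- **The plane projections of the curve have degree at most `2 b`.** -/
theorem exists_proj_form_dat (h : IsFF κ L) {n d : ℕ} (X : DatG κ (L := L) n d) {b : ℕ}
    {A : L[X][X]} (hA : CrvG X b A)
    (hspan : 9 * (b : ℤ) * gh κ A + 3 * b * X.Δ < height κ X.x) (u : Fin 3 → Fin (n + 1) → ℕ) :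
    ∃ P : MvPolynomial (Fin 3) L, P ≠ 0 ∧ P.IsHomogeneous (2 * b) ∧
      A ∣ MvPolynomial.aeval (fun i => ∑ j, C (C (u i j : L)) * X.B A j) P := by
  have hb1 : 1 ≤ b := by
    have h1 := hA.box.1
    have h2 := hA.deg
    omega
  exact exists_proj_form hA.irr hA.deg hA.zero hA.der hA.box.2 hb1 (E := X.E)
    (fun k => dvd_EE X hA h hspan k k) u

end Pool.Agent.Lib.MP_44a246_ntE
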